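import Pool.Agent.helper20.SOL.Spec

set_option autoImplicit false

namespace Pool.Agent.SOL

open Finset

theorem EXT_aux {n : ℕ} (P : Finset (Fin n)) (K : Finset ℤ) (c : ℤ → ℕ)
    (hc : ∑ l ∈ K, c l = P.card) : ∀ (N : ℕ) (F : Finset (Fin n)) (g : Fin n → ℤ),
    (P \ F).card = N → F ⊆ P → (∀ j ∈ F, g j ∈ K) →
    (∀ l ∈ K, (F.filter fun j => g j = l).card ≤ c l) →
    ∃ h : Fin n → ℤ, (∀ j ∈ F, h j = g j) ∧ (∀ j ∈ P, h j ∈ K) ∧
      ∀ l ∈ K, (P.filter fun j => h j = l).card = c l := by
  intro N
  induction N with
  | zero =>
    intro F g hN hF hg hle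
    have hPF : P = F := by
      apply le_antisymm _ hF
      rw [Finset.card_eq_zero, Finset.sdiff_eq_empty_iff_subset] at hN
      exact hN
    subst hPF
    refine ⟨g, fun _ _ => rfl, hg, ?_⟩
    have h1 : ∑ l ∈ K, (P.filter fun j => g j = l).card = ∑ l ∈ K, c l := by
      rw [hc, Finset.card_eq_sum_card_fiberwise (f := g) (t := K) hg]
    exact (Finset.sum_eq_sum_iff_of_le hle).1 h1
  | succ N ih =>
    intro F g hN hF hg hle
    obtain ⟨j, hj⟩ : (P \ F).Nonempty := by
      rw [← Finset.card_pos, hN]
      omega
    rw [Finset.mem_sdiff] at hj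
    have hcard : F.card < P.card := by
      apply Finset.card_lt_card
      exact ⟨hF, fun h => hj.2 (h hj.1)⟩
    have hex : ∃ l ∈ K, (F.filter fun i => g i = l).card < c l := by
      by_contra hno
      push Not at hno
      have h1 : ∑ l ∈ K, c l ≤ ∑ l ∈ K, (F.filter fun i => g i = l).card :=
        Finset.sum_le_sum hno
      rw [← Finset.card_eq_sum_card_fiberwise (f := g) (t := K) hg, hc] at h1
      omega
    obtain ⟨l, hl, hlt⟩ := hex
    have hne : ∀ i ∈ F, i ≠ j := fun i hi h => hj.2 (h ▸ hi)
    obtain ⟨h, h1, h2, h3⟩ := ih (insert j F) (Function.update g j l) (by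
        rw [Finset.sdiff_insert, Finset.card_erase_of_mem (Finset.mem_sdiff.2 hj), hN]
        rfl) (by
        intro i hi
        rcases Finset.mem_insert.1 hi with rfl | hi
        · exact hj.1
        · exact hF hi) (by
        intro i hi
        rcases Finset.mem_insert.1 hi with rfl | hi
        · rw [Function.update_self]
          exact hl
        · rw [Function.update_of_ne (hne i hi)]
          exact hg i hi) (by
        intro m hm
        have e1 : (F.filter fun i => Function.update g j l i = m) = F.filter fun i => g i = m := by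
          apply Finset.filter_congr
          intro i hi
          rw [Function.update_of_ne (hne i hi)]
        rw [Finset.filter_insert, Function.update_self]
        by_cases hml : l = m
        · subst hml
          rw [if_pos rfl, Finset.card_insert_of_notMem (by
            rw [Finset.mem_filter]
            exact fun h => hj.2 h.1), e1]
          omega
        · rw [if_neg hml, e1]
          exact hle m hm)
    refine ⟨h, ?_, h2, h3⟩
    intro i hi
    rw [h1 i (Finset.mem_insert_of_mem hi), Function.update_of_ne (hne i hi)]

theorem EXT : EXT_stmt := by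
  intro n P F K c g hF hc hg hle
  exact EXT_aux P K c hc _ F g rfl hF hg hle

end Pool.Agent.SOL
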