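import Pool.Agent.helper20.SOL.AD8
import Pool.Agent.helper20.SOL.EXT
import Pool.Agent.helper16.SOL.CNT
import Pool.Agent.helper77.SOL.CSI
import Pool.Agent.helper3.SOL.ODA
import Pool.Agent.helper57.SOL.VD1
import Pool.Agent.helper44.SOL.VA1
import Pool.Agent.helper7.SOL.PAT
import Pool.Agent.helper53.SOL.LX1
import Pool.Agent.helper87.SOL.LX2
import Pool.Agent.helper46.SOL.LX3
import Pool.Agent.helper23.SOL.LX4
import Pool.Agent.helper66.SOL.LX5
import Pool.Agent.helper98.SOL.DL0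
import Pool.Agent.helper68.SOL.DL1
import Pool.Agent.helper88.SOL.DL2
import Pool.Agent.helper16.SOL.DL3
import Pool.Agent.helper56.SOL.K2L
import Pool.Agent.helper96.SOL.PR4
import Pool.Agent.helper25.SOL.DSM
import Pool.Agent.helper31.SOL.ALP
import Pool.Agent.helper34.SOL.AL1
import Pool.Agent.helper83.SOL.AL2
import Pool.Agent.helper66.SOL.ALN
import Pool.Agent.helper64.SOL.ASM
import Pool.Agent.helper46.SOL.NED
import Pool.Agent.helper34.SOL.SOE
import Pool.Agent.helper44.SOL.ELB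
import Pool.Agent.helper44.SOL.CLQ
import Pool.Agent.helper79.SOL.REP
import Pool.Agent.helper38.SOL.CTE
import Pool.Agent.helper44.SOL.PRD
import Pool.Agent.helper90.SOL.ME8a
import Pool.Agent.helper31.SOL.ME8b
import Pool.Agent.helper38.SOL.ME8c
import Pool.Agent.helper17.SOL.ME8d
import Pool.Agent.helper77.SOL.ME7a
import Pool.Agent.helper83.SOL.ME7b
import Pool.Agent.helper31.SOL.ME7c
import Pool.Agent.helper36.SOL.ME6a
import Pool.Agent.helper1.SOL.LME6b
import Pool.Agent.helper3.SOL.EMP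
import Pool.Agent.helper4.SOL.NE77
import Pool.Agent.helper34.SOL.LCE8
import Pool.Agent.helper34.SOL.LCE7
import Pool.Agent.helper64.SOL.CE6
import Pool.Agent.helper22.SOL.LE87
import Pool.Agent.helper39.SOL.LLE76
import Pool.Agent.helper34.SOL.ND
import Pool.Agent.helper66.SOL.NA
import Pool.Agent.helper83.SOL.CO
import Pool.Agent.helper39.SOL.EN
import Pool.Agent.helper25.SOL.TE

/-!
# Project sol: all rows together
-/

set_option autoImplicit false

namespace Pool.Agent.SOL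

theorem rPAT : PAT_stmt := PAT EXT

theorem rLX1 : LX1_stmt := LX1 CNT

theorem rLX5 : LX5_stmt := LX5 CNT rLX1 (LX2 CNT rLX1) (LX3 CNT) (LX4 CNT)

theorem rALP : ALP_stmt := ALP EXT

theorem rowsD : RowsD where
  cnt := CNT
  csi := CSI
  oda := ODA
  dsm := DSM CNT
  pr4 := PR4 CNT rPAT
  k2l := K2L CNT
  dl0 := DL0 CNT rPAT rLX5
  dl1 := DL1 CNT rPAT rLX5
  dl2 := DL2 CNT rPAT rLX5
  dl3 := DL3 CNT rPAT rLX5

theorem rowsA : RowsA where
  csi := CSI
  oda := ODA
  aln := ALN rALP (AL1 rALP) AL2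
  asm := ASM

theorem rME8a : ME8a_stmt := ME8a REP CTE PRD CLQ

theorem rME8d : ME8d_stmt := ME8d REP CTE PRD CLQ ELB

theorem rME6a : ME6a_stmt := ME6a REP CTE PRD CLQ

theorem rME6b : ME6b_stmt := ME6bL REP CTE PRD CLQ

theorem rEN : EN_stmt :=
  EN ELB rME8a (ME8b REP CTE PRD CLQ) (ME8c REP CTE PRD CLQ) rME8d
    (ME7a REP CTE PRD CLQ ELB) (ME7b REP CTE PRD CLQ ELB) (ME7c REP CTE PRD CLQ ELB)
    rME6a rME6b CE8L CE7L CE6 (LE87 REP CTE PRD CLQ ELB) (LE76L REP CTE PRD CLQ ELB)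

theorem rowsN : RowsN where
  nd := ND
  na := NA
  en := rEN
  te := TE ELB
  co := CO ELB rME8a rME8d rME6a rME6b
  ned := NED CNT
  emp := EMP
  me6b := rME6b
  ne77 := NE77 rME8d ELB

end Pool.Agent.SOL
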