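import Pool.Agent.helper20.SOL.SpecP

/-!
# Project sol: the special graphs of type B against simply laced targets
-/

set_option autoImplicit false

namespace Pool.Agent.SOL

open Finset

open scoped BigOperators

theorem STN_V0 (hBTY : BTY_stmt) {κ : ℕ} {v : Vec (2 * κ + 1)} (hv : v ∈ TD (2 * κ + 1) κ 0) :
    v ∈ VB (2 * κ + 1) (2 * κ) := by
  refine (hBTY.1 _ _ v).2 ⟨hv.1, Or.inl ?_, ?_⟩
  · rw [hv.2.1, hv.2.2]; omega
  · rw [hv.2.1, hv.2.2]; omega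

theorem STN_V1 (hBTY : BTY_stmt) {κ : ℕ} (hκ : 2 ≤ κ) {v : Vec (2 * κ + 1)}
    (hv : v ∈ TD (2 * κ + 1) (κ - 1) 3) : v ∈ VB (2 * κ + 1) (2 * κ) := by
  refine (hBTY.1 _ _ v).2 ⟨hv.1, Or.inr ?_, ?_⟩
  · rw [hv.2.1, hv.2.2]; omega
  · rw [hv.2.1, hv.2.2]; omega

theorem STN_cases (hBTY : BTY_stmt) {κ : ℕ} {v : Vec (2 * κ + 1)}
    (hv : v ∈ VB (2 * κ + 1) (2 * κ)) :
    v ∈ TD (2 * κ + 1) κ 0 ∨ v ∈ TD (2 * κ + 1) (κ - 1) 3 := by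
  obtain ⟨h1, h2, h3⟩ := (hBTY.1 _ _ v).1 hv
  rcases h2 with h2 | h2
  · exact Or.inl ⟨h1, by omega, by omega⟩
  · exact Or.inr ⟨h1, by omega, by omega⟩

theorem STN_cv_neg {n : ℕ} (x : Vec n) : cv (-x) = -cv x := by
  funext i
  simp [cv]

theorem STN_dot_sum {n d : ℕ} (a : Fin d → ℝ) (c : Fin n → ℝ) (T : Fin n → Fin d → ℝ) :
    a ⬝ᵥ (∑ i, c i • T i) = ∑ i, c i * (a ⬝ᵥ T i) := by
  rw [dotProduct_sum]
  refine Finset.sum_congr rfl fun i _ => ?_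
  rw [dotProduct_smul, smul_eq_mul]

theorem STN (hCNT : CNT_stmt) (hCSI : CSI_stmt) (hDSM : DSM_stmt) (hBTY : BTY_stmt)
    (hSYA : SYA_stmt) (hTHS : THS_stmt) (hODG : ODG_stmt) (hSLE : SLE_stmt) (hGLB : GLB_stmt)
    (hGBS : GBS_stmt) (hPRB : PRB_stmt) (hBDG : BDG_stmt) : STN_stmt := by
  intro κ d N S' hκ hN hneg hnorm hull hi
  obtain ⟨ψ⟩ := hi
  have hV0 : ∀ v ∈ TD (2 * κ + 1) κ 0, v ∈ VB (2 * κ + 1) (2 * κ) := fun v hv => STN_V0 hBTY hv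
  have hSy : Sy (VB (2 * κ + 1) (2 * κ)) := (hBTY.2.2.2.2.2.2.1 _ _ (by omega)).1
  have hfin : (VB (2 * κ + 1) (2 * κ)).Finite := (hBTY.2.2.2.2.2.2.2 _ _).1
  have hSL : SLs S' := hCSI d S' N hN hneg hnorm
  obtain ⟨hSy', hsharp, _, _⟩ := hSLE d S' hSL
  obtain ⟨s1, _, _, _, _, s6, s7, s8⟩ := hSYA _ _ _ S' ψ hSy hSy'
  have hodd : ∀ v ∈ TD (2 * κ + 1) κ 0, up ψ (-v) = -up ψ v := by
    intro v hv
    exact hODG _ _ _ S' ψ hSy hSy' v (hV0 v hv) (hGBS κ hκ v hv)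
      (fun y' hy' h => hsharp _ (up_mem ψ (hV0 v hv)) y' hy' h)
      (fun y' hy' h => hsharp _ (up_mem ψ (hSy.neg v (hV0 v hv))) y' hy' h)
  have hodp : ∀ v ∈ TD (2 * κ + 1) κ 0, odp ψ v = cv (up ψ v) := by
    intro v hv
    unfold odp
    rw [hodd v hv, STN_cv_neg, sub_neg_eq_add, ← two_smul ℝ, smul_smul]
    norm_num
  obtain ⟨t1, t2⟩ := hTHS _ _ _ S' ψ hfin hSy hSy'
  obtain ⟨T, hT⟩ := hGLB κ (Fin d → ℝ) (odp ψ) hκ t1 t2
  have hT' : ∀ v ∈ TD (2 * κ + 1) κ 0, cv (up ψ v) = ∑ i, (v i : ℝ) • T i := by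
    intro v hv
    rw [← hodp v hv, hT v hv]
  obtain ⟨n1, n2⟩ := hDSM (2 * κ + 1) d κ 0 (N : ℝ) T (by omega) (by omega) (by
    intro x hx
    rw [← hT' x hx, cv_dot, hnorm _ (up_mem ψ (hV0 x hx))])
  have hκ' : (0 : ℝ) < κ := by exact_mod_cast (by omega : 0 < κ)
  have hN' : (0 : ℝ) < N := by exact_mod_cast hN
  have n1' : ∀ i, T i ⬝ᵥ T i = (N : ℝ) / (4 * κ) := by
    intro i
    rw [n1 i]
    norm_num
  -- an odd vertex
  have hle : (κ - 1) + 3 ≤ 2 * κ + 1 := by omega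
  obtain ⟨x, hx⟩ : ∃ x, x ∈ TD (2 * κ + 1) (κ - 1) 3 := ⟨std (2 * κ + 1) (κ - 1) 3, std_mem hle⟩
  have hxS := STN_V1 hBTY hκ hx
  have hw : ∀ i, cv (up ψ x) ⬝ᵥ T i = (N / 2 : ℝ) / (2 * κ) * (x i : ℝ) := by
    refine hPRB κ x (fun i => cv (up ψ x) ⬝ᵥ T i) (N / 2 : ℝ) hκ hx ?_
    intro y hy hxy
    have h1 := hnorm _ ((s1 x hxS y (hV0 y hy)).2 hxy)
    rw [dp_sub_sub, hnorm _ (up_mem ψ hxS), hnorm _ (up_mem ψ (hV0 y hy))] at h1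
    have h2 : 2 * dp (up ψ x) (up ψ y) = N := by linarith
    have h3 : (2 : ℝ) * (dp (up ψ x) (up ψ y) : ℝ) = N := by exact_mod_cast h2
    have h4 : cv (up ψ x) ⬝ᵥ cv (up ψ y) = (N : ℝ) / 2 := by rw [cv_dot]; linarith
    rw [hT' y hy, STN_dot_sum] at h4
    exact h4
  have hxx : ∑ i, (x i : ℝ) * (x i : ℝ) = 4 * κ - 1 := by
    have h1 := hBTY.2.2.1 _ x hx.1
    rw [hx.2.1, hx.2.2] at h1
    unfold dp at h1
    have h2 : ((∑ i, x i * x i : ℤ) : ℝ) = ((4 * ((κ - 1 : ℕ) : ℤ) + ((3 : ℕ) : ℤ) : ℤ) : ℝ) := by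
      rw [h1]
    push_cast at h2
    rw [h2, Nat.cast_sub (by omega)]
    push_cast
    ring
  have hη : ∀ i, T i ⬝ᵥ (cv (up ψ x) - ∑ j, (x j : ℝ) • T j) = 0 := by
    intro i
    rw [dotProduct_sub, dotProduct_comm (T i), hw i, STN_dot_sum, Finset.sum_eq_single i]
    · rw [n1' i]
      field_simp
      ring
    · intro j _ hj
      rw [n2 i j hj.symm, mul_zero]
    · intro h
      exact absurd (mem_univ i) h
  have hcη : cv (up ψ x) ⬝ᵥ (cv (up ψ x) - ∑ j, (x j : ℝ) • T j) = (N : ℝ) / (4 * κ) := by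
    rw [dotProduct_sub, STN_dot_sum, cv_dot, hnorm _ (up_mem ψ hxS)]
    have h1 : ∀ i ∈ (univ : Finset (Fin (2 * κ + 1))), (x i : ℝ) * (cv (up ψ x) ⬝ᵥ T i) =
        (N / 2 : ℝ) / (2 * κ) * ((x i : ℝ) * (x i : ℝ)) := by
      intro i _
      rw [hw i]
      ring
    rw [Finset.sum_congr rfl h1, ← Finset.mul_sum, hxx]
    field_simp
    ring
  -- the span
  have hmem := hull (up ψ '' TD (2 * κ + 1) κ 0) (by
      rintro _ ⟨v, hv, rfl⟩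
      exact up_mem ψ (hV0 v hv)) (by
      exact ⟨_, std (2 * κ + 1) κ 0, std_mem (by omega), rfl⟩) (by
      rintro _ ⟨v, hv, rfl⟩ z' hz' hdeg
      obtain ⟨v', hv', rfl⟩ := s7 z' hz'
      rcases STN_cases hBTY hv' with h1 | h1
      · exact ⟨v', h1, rfl⟩
      · exfalso
        rw [← s6 v' hv', ← s6 v (hV0 v hv)] at hdeg
        exact hBDG κ hκ v hv v' h1 hdeg.symm) (up ψ x) (up_mem ψ hxS)
  have hzero : ∀ u ∈ Submodule.span ℝ (cv '' (up ψ '' TD (2 * κ + 1) κ 0)),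
      u ⬝ᵥ (cv (up ψ x) - ∑ j, (x j : ℝ) • T j) = 0 := by
    intro u hu
    induction hu using Submodule.span_induction with
    | mem u hu =>
      obtain ⟨_, ⟨v, hv, rfl⟩, rfl⟩ := hu
      rw [hT' v hv, sum_dotProduct]
      refine Finset.sum_eq_zero fun i _ => ?_
      rw [smul_dotProduct, hη i, smul_zero]
    | zero => exact zero_dotProduct _
    | add a b _ _ ha hb => rw [add_dotProduct, ha, hb, add_zero]
    | smul c a _ ha => rw [smul_dotProduct, ha, smul_zero]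
  have h1 := hzero _ hmem
  rw [hcη] at h1
  have h2 : (0 : ℝ) < (N : ℝ) / (4 * κ) := by positivity
  linarith

end Pool.Agent.SOL
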