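import Pool.Agent.helper20.SOL.PairsN
import Pool.Agent.helper20.SOL.ALL
import Pool.Agent.helper20.SOL.STN
import Pool.Agent.helper52.SOL.VB1
import Pool.Agent.helper31.SOL.VC1
import Pool.Agent.helper16.SOL.CRD
import Pool.Agent.helper16.SOL.BTY
import Pool.Agent.helper45.SOL.SYA
import Pool.Agent.helper72.SOL.RST
import Pool.Agent.helper24.SOL.THS
import Pool.Agent.helper92.SOL.ODG
import Pool.Agent.helper16.SOL.SLE
import Pool.Agent.helper16.SOL.SHB
import Pool.Agent.helper45.SOL.SHC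
import Pool.Agent.helper46.SOL.NEB
import Pool.Agent.helper16.SOL.BDN
import Pool.Agent.helper54.SOL.BFN
import Pool.Agent.helper75.SOL.C2S
import Pool.Agent.helper79.SOL.MON
import Pool.Agent.helper41.SOL.TRS
import Pool.Agent.helper22.SOL.BDG
import Pool.Agent.helper2.SOL.PRB
import Pool.Agent.helper24.SOL.GLZ
import Pool.Agent.helper79.SOL.GLB
import Pool.Agent.helper8.SOL.GLC
import Pool.Agent.helper31.SOL.NMB
import Pool.Agent.helper92.SOL.NMC
import Pool.Agent.helper77.SOL.NMA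
import Pool.Agent.helper1.SOL.LSMB
import Pool.Agent.helper79.SOL.F4S
import Pool.Agent.helper77.SOL.LF4N
import Pool.Agent.helper27.SOL.F4E
import Pool.Agent.helper46.SOL.G2S
import Pool.Agent.helper34.SOL.CE87
import Pool.Agent.helper34.SOL.NSB
import Pool.Agent.helper76.SOL.NSC
import Pool.Agent.helper22.SOL.NSI
import Pool.Agent.helper1.SOL.PBB
import Pool.Agent.helper1.SOL.BC1
import Pool.Agent.helper8.SOL.HUL
import Pool.Agent.helper90.SOL.BC2
import Pool.Agent.helper66.SOL.CCO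

/-!
# Project sol: all rows for the types B, C, F4, G2
-/

set_option autoImplicit false

namespace Pool.Agent.SOL

theorem rBTY : BTY_stmt := BTY CNT

theorem rBDN : BDN_stmt := BDN CNT rBTY

theorem rSHC : SHC_stmt := SHC rBTY

theorem rTRS : TRS_stmt := TRS CNT

theorem rTHS : THS_stmt := THS SYA

theorem rODG : ODG_stmt := ODG SYA

theorem rGLZ : GLZ_stmt := GLZ CNT (LX3 CNT) (LX4 CNT)

theorem rNMB : NMB_stmt := NMB CNT rBTY CRD

theorem rNMC : NMC_stmt := NMC CNT rBTY CRD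

theorem rNSB : NSB_stmt := NSB rBTY rBDN SHB PB

theorem rNSC : NSC_stmt := NSC rBTY rSHC PC

theorem rNSI : NSI_stmt := NSI SYA (RST SYA)

theorem rGSO : GSO_stmt := GSO rowsD rPAT

theorem e87 : (VE R8 7).ncard ≤ 82560 := by
  have h : VE R8 7 ⊆ XE8 7 := fun x hx => (ELB.2.2.1 7 x).1 hx
  have h1 := Set.ncard_le_ncard h (Set.finite_of_ncard_ne_zero (by rw [CE87]; norm_num))
  rwa [CE87] at h1

theorem rowsM : RowsM where
  cnt := CNT
  csi := CSI
  bty := rBTY
  crd := CRD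
  sya := SYA
  sle := SLE
  shb := SHB
  neb := NEB rBTY SHB
  bdn := rBDN
  bfn := BFN CNT rBTY SHB
  c2s := C2S rBTY
  mon := MON rBTY
  nmb := rNMB
  nmc := rNMC
  nma := NMA CNT CRD rTRS
  smb := SMBL
  f4s := F4S
  f4n := F4NL
  f4e := F4E
  g2s := G2S
  vb1 := VB1 VD1
  vc1 := VC1
  e87 := e87

theorem rSTN : STN_stmt :=
  STN CNT CSI (DSM CNT) rBTY SYA rTHS rODG SLE (GLB CNT rPAT rBTY rGLZ) GBS
    (PRB CNT rPAT rBTY) (BDG CNT rPAT rBTY SHB rTRS CRD)

theorem rCCO : CCO_stmt :=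
  CCO CNT (DSM CNT) rBTY SYA rTHS rODG rSHC (GLC CNT rPAT rBTY rGLZ) GCC rNSC

theorem rowsP : RowsP where
  bty := rBTY
  nmc := rNMC
  gso := rGSO
  nsb := rNSB
  nsc := rNSC
  nsi := rNSI
  pbb := PBB rBTY rNSB rNSI rGSO rNMB
  bc1 := BC1 CNT rPAT rBTY CRD rNSB rNSC rNSI rNMB rNMC
  bc2 := BC2
  cco := rCCO
  hul := HUL CNT
  stn := rSTN

end Pool.Agent.SOL
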