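import Pool.Agent.helper54.SOG.Main

/-!
# Project sol (MP_cad530_co): isomorphisms of strongly orthogonal sum graphs of simply laced root
systems. Definitions and basic lemmas.

Integer vectors `Vec n`; `VA n k`, `VD n k`: the vertex sets of `Γ(A_{n-1}, k)` and `Γ(D_n, k)`;
`gph S`: the graph on `S` in which distinct `x`, `y` are adjacent when `x - y ∈ S` (or `y - x ∈ S`).
-/

set_option autoImplicit false

namespace Pool.Agent.SOL

open Pool.Agent.helper54.SOG Finset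

open scoped BigOperators

/-- integer vectors -/
abbrev Vec (n : ℕ) : Type := Fin n → ℤ

/-- the dot product -/
def dp {n : ℕ} (x y : Vec n) : ℤ := ∑ i, x i * y i

/-- the sum of the absolute values -/
def l1 {n : ℕ} (x : Vec n) : ℤ := ∑ i, |x i|

/-- the vertices of `Γ(A_{n-1}, k)`: `k` entries `1`, `k` entries `-1`, the others `0` -/
def VA (n k : ℕ) : Set (Vec n) := {x | (∀ i, |x i| ≤ 1) ∧ ∑ i, x i = 0 ∧ dp x x = 2 * k}

/-- the vertices of `Γ(D_n, k)`: entries `0, ±1, ±2`, square sum `2 k`, sum of the absolute values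
at most `n` (equivalently: at least as many entries `0` as entries `±2`) -/
def VD (n k : ℕ) : Set (Vec n) := {x | (∀ i, |x i| ≤ 2) ∧ dp x x = 2 * k ∧ l1 x ≤ n}

/-- the number of entries `±2` -/
def tw {n : ℕ} (x : Vec n) : ℕ := (univ.filter fun i => |x i| = 2).card

/-- the good orbit: the vertices of `Γ(D_n, k)` with the maximal number `⌊k/2⌋` of entries `±2`; for
`k ≡ 2 mod 4` also those with `k/2 - 1` entries `±2` -/
def OD (n k : ℕ) : Set (Vec n) := {x | x ∈ VD n k ∧ (if k % 4 = 2 then k / 2 - 1 else k / 2) ≤ tw x}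

section Graphs

variable {A A' : Type*} [AddCommGroup A] [AddCommGroup A']

/-- the difference graph of `S` -/
def gph (S : Set A) : SimpleGraph S := SimpleGraph.fromRel (fun v w => (v : A) - (w : A) ∈ S)

theorem sosGraph_eq (R : Set A) (k : ℕ) : sosGraph R k = gph (sosSums R k) := rfl

/-- the non-isolated vertices -/
def NI (S : Set A) : Set A := {x | x ∈ S ∧ ∃ y ∈ S, x - y ∈ S}

/-- the algebraic properties of the vertex set of a graph of a simply laced root system -/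
structure SLs (S : Set A) : Prop where
  neg : ∀ x ∈ S, -x ∈ S
  zero : (0 : A) ∉ S
  two : ∀ x ∈ S, x + x ∉ S
  uc : ∀ x ∈ S, ∀ y ∈ S, x - y ∈ S → ∀ v ∈ S, y - v ∈ S → x - y - v ∈ S → v = x
  nc : ∀ x ∈ S, ∀ v ∈ S, x - v ∈ S → x + v ∉ S

/-- the edge `x, y` is good: every neighbour `w ≠ x` of `y` which is not adjacent to `x` and
different from `y - x` has a second common neighbour with `x` -/
def Good (S : Set A) (x y : A) : Prop :=
  ∀ w ∈ S, y - w ∈ S → w ≠ x → x - w ∉ S → w ≠ y - x → ∃ v ∈ S, v ≠ y ∧ x - v ∈ S ∧ w - v ∈ S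

theorem SLs.sub_comm {S : Set A} (h : SLs S) {x y : A} (hxy : x - y ∈ S) : y - x ∈ S := by
  have := h.neg _ hxy
  rwa [neg_sub] at this

theorem SLs.sub_comm_iff {S : Set A} (h : SLs S) {x y : A} : x - y ∈ S ↔ y - x ∈ S :=
  ⟨h.sub_comm, h.sub_comm⟩

theorem SLs.ne_of_sub {S : Set A} (h : SLs S) {x y : A} (hxy : x - y ∈ S) : x ≠ y := by
  rintro rfl
  rw [sub_self] at hxy
  exact h.zero hxy

theorem SLs.adj_iff {S : Set A} (h : SLs S) (v w : S) :
    (gph S).Adj v w ↔ (v : A) - (w : A) ∈ S := by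
  unfold gph
  rw [SimpleGraph.fromRel_adj]
  constructor
  · rintro ⟨_, h1 | h1⟩
    · exact h1
    · exact h.sub_comm h1
  · intro h1
    exact ⟨fun h2 => h.ne_of_sub h1 (congrArg Subtype.val h2), Or.inl h1⟩

theorem SLs.sub_mem_NI {S : Set A} (h : SLs S) {x y : A} (hx : x ∈ S) (hy : y ∈ S)
    (hxy : x - y ∈ S) : x - y ∈ NI S :=
  ⟨hxy, x, hx, by
    have := h.neg _ hy
    rwa [sub_sub, add_comm, ← sub_sub, sub_self, zero_sub]⟩

theorem SLs.neg_mem_NI {S : Set A} (h : SLs S) {x : A} (hx : x ∈ NI S) : -x ∈ NI S := by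
  obtain ⟨hx1, y, hy, hxy⟩ := hx
  refine ⟨h.neg _ hx1, -y, h.neg _ hy, ?_⟩
  have := h.neg _ hxy
  rwa [neg_sub, show y - x = -x - -y by abel] at this

open Classical in
/-- an isomorphism as a function on the whole group -/
noncomputable def up {S : Set A} {S' : Set A'} (ψ : gph S ≃g gph S') (x : A) : A' :=
  if h : x ∈ S then (ψ ⟨x, h⟩ : A') else 0

theorem up_of_mem {S : Set A} {S' : Set A'} (ψ : gph S ≃g gph S') {x : A} (h : x ∈ S) :
    up ψ x = (ψ ⟨x, h⟩ : A') := by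
  unfold up
  rw [dif_pos h]

theorem up_mem {S : Set A} {S' : Set A'} (ψ : gph S ≃g gph S') {x : A} (h : x ∈ S) :
    up ψ x ∈ S' := by
  rw [up_of_mem ψ h]
  exact (ψ ⟨x, h⟩).2

theorem up_inj {S : Set A} {S' : Set A'} (ψ : gph S ≃g gph S') {x y : A} (hx : x ∈ S)
    (hy : y ∈ S) (hxy : up ψ x = up ψ y) : x = y := by
  rw [up_of_mem ψ hx, up_of_mem ψ hy] at hxy
  have := ψ.injective (Subtype.ext hxy)
  exact congrArg Subtype.val this

theorem up_surj {S : Set A} {S' : Set A'} (ψ : gph S ≃g gph S') {x' : A'} (h : x' ∈ S') :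
    ∃ x ∈ S, up ψ x = x' := by
  refine ⟨(ψ.symm ⟨x', h⟩ : A), (ψ.symm ⟨x', h⟩).2, ?_⟩
  rw [up_of_mem ψ (ψ.symm ⟨x', h⟩).2]
  simp

/-- adjacency is preserved -/
theorem up_adj {S : Set A} {S' : Set A'} (hS : SLs S) (hS' : SLs S') (ψ : gph S ≃g gph S')
    {x y : A} (hx : x ∈ S) (hy : y ∈ S) : up ψ x - up ψ y ∈ S' ↔ x - y ∈ S := by
  rw [up_of_mem ψ hx, up_of_mem ψ hy, ← hS'.adj_iff, ψ.map_adj_iff, hS.adj_iff]

theorem up_NI {S : Set A} {S' : Set A'} (hS : SLs S) (hS' : SLs S') (ψ : gph S ≃g gph S')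
    {x : A} (hx : x ∈ NI S) : up ψ x ∈ NI S' := by
  obtain ⟨hx1, y, hy, hxy⟩ := hx
  exact ⟨up_mem ψ hx1, up ψ y, up_mem ψ hy, (up_adj hS hS' ψ hx1 hy).2 hxy⟩

theorem up_NI_surj {S : Set A} {S' : Set A'} (hS : SLs S) (hS' : SLs S') (ψ : gph S ≃g gph S')
    {x' : A'} (hx' : x' ∈ NI S') : ∃ x ∈ NI S, up ψ x = x' := by
  obtain ⟨hx1, y', hy', hxy'⟩ := hx'
  obtain ⟨x, hx, rfl⟩ := up_surj ψ hx1
  obtain ⟨y, hy, rfl⟩ := up_surj ψ hy'
  exact ⟨x, ⟨hx, y, hy, (up_adj hS hS' ψ hx hy).1 hxy'⟩, rfl⟩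

end Graphs

/-- `f` is odd and additive on `O` -/
structure AddOn {n : ℕ} {M : Type*} [AddCommGroup M] (O : Set (Vec n)) (f : Vec n → M) :
    Prop where
  odd : ∀ x ∈ O, f (-x) = -f x
  add : ∀ x ∈ O, ∀ y ∈ O, x - y ∈ O → f (x - y) = f x - f y

/-- the real vector of `x` -/
def cv {n : ℕ} (x : Vec n) : Fin n → ℝ := fun i => (x i : ℝ)

theorem cv_inj {n : ℕ} {x y : Vec n} (h : cv x = cv y) : x = y := by
  funext i
  have := congrFun h i
  unfold cv at this
  exact_mod_cast this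

theorem cv_sub {n : ℕ} (x y : Vec n) : cv (x - y) = cv x - cv y := by
  funext i
  simp [cv]

/-! ### Dot products -/

theorem dp_comm {n : ℕ} (x y : Vec n) : dp x y = dp y x :=
  Finset.sum_congr rfl fun i _ => mul_comm _ _

theorem dp_sub_right {n : ℕ} (x y z : Vec n) : dp x (y - z) = dp x y - dp x z := by
  unfold dp
  rw [← Finset.sum_sub_distrib]
  exact Finset.sum_congr rfl fun i _ => by rw [Pi.sub_apply]; ring

theorem dp_sub_left {n : ℕ} (x y z : Vec n) : dp (x - y) z = dp x z - dp y z := by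
  rw [dp_comm, dp_sub_right, dp_comm z x, dp_comm z y]

theorem dp_neg_right {n : ℕ} (x y : Vec n) : dp x (-y) = -dp x y := by
  unfold dp
  rw [← Finset.sum_neg_distrib]
  exact Finset.sum_congr rfl fun i _ => by rw [Pi.neg_apply]; ring

theorem dp_neg_left {n : ℕ} (x y : Vec n) : dp (-x) y = -dp x y := by
  rw [dp_comm, dp_neg_right, dp_comm]

theorem dp_sub_sub {n : ℕ} (x y : Vec n) : dp (x - y) (x - y) = dp x x - 2 * dp x y + dp y y := by
  rw [dp_sub_right, dp_sub_left, dp_sub_left, dp_comm y x]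
  ring

theorem dp_self_nonneg {n : ℕ} (x : Vec n) : 0 ≤ dp x x :=
  Finset.sum_nonneg fun i _ => mul_self_nonneg _

theorem eq_zero_of_dp {n : ℕ} {x : Vec n} (h : dp x x = 0) : x = 0 := by
  funext i
  have h1 := (Finset.sum_eq_zero_iff_of_nonneg fun i _ => mul_self_nonneg (x i)).1 h i
    (Finset.mem_univ i)
  exact mul_self_eq_zero.1 h1

theorem dp_neg_neg {n : ℕ} (x y : Vec n) : dp (-x) (-y) = dp x y := by
  rw [dp_neg_left, dp_neg_right, neg_neg]

theorem l1_neg {n : ℕ} (x : Vec n) : l1 (-x) = l1 x :=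
  Finset.sum_congr rfl fun i _ => by rw [Pi.neg_apply, abs_neg]

theorem VD_neg {n k : ℕ} {x : Vec n} (h : x ∈ VD n k) : -x ∈ VD n k :=
  ⟨fun i => by rw [Pi.neg_apply, abs_neg]; exact h.1 i, by rw [dp_neg_neg]; exact h.2.1,
    by rw [l1_neg]; exact h.2.2⟩

theorem VA_neg {n k : ℕ} {x : Vec n} (h : x ∈ VA n k) : -x ∈ VA n k :=
  ⟨fun i => by rw [Pi.neg_apply, abs_neg]; exact h.1 i,
    by
      have : ∑ i, (-x) i = -∑ i, x i := by
        rw [← Finset.sum_neg_distrib]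
        rfl
      rw [this, h.2.1, neg_zero],
    by rw [dp_neg_neg]; exact h.2.2⟩

theorem tw_neg {n : ℕ} (x : Vec n) : tw (-x) = tw x := by
  unfold tw
  congr 1
  ext i
  simp

theorem OD_neg {n k : ℕ} {x : Vec n} (h : x ∈ OD n k) : -x ∈ OD n k :=
  ⟨VD_neg h.1, by rw [tw_neg]; exact h.2⟩

/-- adjacent vertices of `Γ(D_n, k)` have the dot product `k` -/
theorem VD_dp {n k : ℕ} {x y : Vec n} (hx : x ∈ VD n k) (hy : y ∈ VD n k) (h : x - y ∈ VD n k) :
    dp x y = k := by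
  have h1 := dp_sub_sub x y
  rw [h.2.1, hx.2.1, hy.2.1] at h1
  omega

theorem VA_dp {n k : ℕ} {x y : Vec n} (hx : x ∈ VA n k) (hy : y ∈ VA n k) (h : x - y ∈ VA n k) :
    dp x y = k := by
  have h1 := dp_sub_sub x y
  rw [h.2.2, hx.2.2, hy.2.2] at h1
  omega

end Pool.Agent.SOL
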