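import Pool.Agent.helper20.SOL.AD8
import Pool.Agent.helper1.SOL.SpecN

/-!
# Project sol: all irreducible root systems
-/

set_option autoImplicit false

namespace Pool.Agent.SOL

open Pool.Agent.helper54.SOG Finset

open scoped BigOperators

/-- the names of the irreducible root systems -/
inductive Ty : Type
  | A (n : ℕ)
  | B (n : ℕ)
  | C (n : ℕ)
  | D (n : ℕ)
  | E6
  | E7
  | E8
  | F4
  | G2
  deriving DecidableEq

/-- the usual ranges of the rank (every irreducible root system is isomorphic to exactly one of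
these) -/
def Ty.ok : Ty → Prop
  | .A n => 1 ≤ n
  | .B n => 2 ≤ n
  | .C n => 3 ≤ n
  | .D n => 4 ≤ n
  | _ => True

/-- the dimension of the ambient space of the model -/
def Ty.dim : Ty → ℕ
  | .A n => n + 1
  | .B n => n
  | .C n => n
  | .D n => n
  | .E6 => 8
  | .E7 => 8
  | .E8 => 8
  | .F4 => 4
  | .G2 => 3

/-- the models of the irreducible root systems -/
def Ty.R : (τ : Ty) → Set (Fin τ.dim → ℝ)
  | .A n => rootsA (n + 1)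
  | .B n => rootsB n
  | .C n => rootsC n
  | .D n => rootsD n
  | .E6 => rootsE6
  | .E7 => rootsE7
  | .E8 => rootsE8
  | .F4 => rootsF4
  | .G2 => rootsG2

/-- the nontrivial coincidences, as classes of pairs `(R, k)` with isomorphic graphs -/
def SameClass (τ : Ty) (k : ℕ) (τ' : Ty) (m : ℕ) : Prop :=
  (τ = τ' ∧ k = m) ∨
  ((τ, k) ∈ ([(.D 4, 1), (.D 4, 2), (.D 4, 4), (.B 4, 4), (.F4, 4)] : List (Ty × ℕ)) ∧
    (τ', m) ∈ ([(.D 4, 1), (.D 4, 2), (.D 4, 4), (.B 4, 4), (.F4, 4)] : List (Ty × ℕ))) ∨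
  ((τ, k) ∈ ([(.D 5, 1), (.D 5, 4)] : List (Ty × ℕ)) ∧
    (τ', m) ∈ ([(.D 5, 1), (.D 5, 4)] : List (Ty × ℕ))) ∨
  ((τ, k) ∈ ([(.E6, 1), (.E6, 4)] : List (Ty × ℕ)) ∧
    (τ', m) ∈ ([(.E6, 1), (.E6, 4)] : List (Ty × ℕ))) ∨
  ((τ, k) ∈ ([(.E8, 2), (.E8, 8)] : List (Ty × ℕ)) ∧
    (τ', m) ∈ ([(.E8, 2), (.E8, 8)] : List (Ty × ℕ))) ∨
  ((τ, k) ∈ ([(.A 2, 1), (.G2, 2)] : List (Ty × ℕ)) ∧
    (τ', m) ∈ ([(.A 2, 1), (.G2, 2)] : List (Ty × ℕ))) ∨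
  ∃ l : ℕ, 4 ∣ l ∧ (τ, k) ∈ ([(.B l, l), (.D l, l)] : List (Ty × ℕ)) ∧
    (τ', m) ∈ ([(.B l, l), (.D l, l)] : List (Ty × ℕ))

/-- the simply laced names -/
def Ty.sl : Ty → Prop
  | .A _ => True
  | .D _ => True
  | .E6 => True
  | .E7 => True
  | .E8 => True
  | _ => False

/-- translation to `ST` -/
def Ty.st : Ty → ST
  | .A n => .A (n + 1)
  | .D n => .D n
  | .E6 => .E6
  | .E7 => .E7
  | _ => .E8

theorem Ty.st_inj {τ τ' : Ty} (h : τ.sl) (h' : τ'.sl) (e : τ.st = τ'.st) : τ = τ' := by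
  cases τ <;> cases τ' <;> simp_all [Ty.sl, Ty.st]

theorem Ty.st_ok {τ : Ty} (h : τ.sl) (hok : τ.ok) : τ.st.ok := by
  cases τ <;> simp_all [Ty.sl, Ty.st, Ty.ok, ST.ok]

theorem Ty.st_graph {τ : Ty} (h : τ.sl) (k : ℕ) :
    Nonempty (sosGraph τ.R k ≃g sosGraph τ.st.R k) := by
  cases τ <;> first | exact h.elim | exact ⟨SimpleGraph.Iso.refl⟩

theorem nf_eq_self {t : ST} {k : ℕ} (h1 : ¬ (t = .D 4 ∧ (k = 2 ∨ k = 4)))
    (h2 : ¬ (t = .D 5 ∧ k = 4)) (h3 : ¬ (t = .E6 ∧ k = 4)) (h4 : ¬ (t = .E8 ∧ k = 8)) :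
    nf t k = (t, k) := by
  unfold nf
  rw [if_neg h1, if_neg h2, if_neg h3, if_neg h4]

/-- the fibres of the normal form -/
theorem nf_eq_iff (t : ST) (k : ℕ) (t' : ST) (m : ℕ) : nf t k = nf t' m ↔
    (t = t' ∧ k = m) ∨
    ((t = .D 4 ∧ (k = 1 ∨ k = 2 ∨ k = 4)) ∧ (t' = .D 4 ∧ (m = 1 ∨ m = 2 ∨ m = 4))) ∨
    ((t = .D 5 ∧ (k = 1 ∨ k = 4)) ∧ (t' = .D 5 ∧ (m = 1 ∨ m = 4))) ∨
    ((t = .E6 ∧ (k = 1 ∨ k = 4)) ∧ (t' = .E6 ∧ (m = 1 ∨ m = 4))) ∨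
    ((t = .E8 ∧ (k = 2 ∨ k = 8)) ∧ (t' = .E8 ∧ (m = 2 ∨ m = 8))) := by
  constructor
  · intro h
    unfold nf at h
    split_ifs at h <;> simp only [Prod.mk.injEq, reduceCtorEq, false_and] at h
    all_goals
      first
        | (obtain ⟨h1, h2⟩ := h; subst h1; subst h2; simp_all)
        | simp_all
  · rintro (⟨rfl, rfl⟩ | ⟨⟨rfl, h1⟩, rfl, h2⟩ | ⟨⟨rfl, h1⟩, rfl, h2⟩ | ⟨⟨rfl, h1⟩, rfl, h2⟩ |
      ⟨⟨rfl, h1⟩, rfl, h2⟩)
    · rfl
    · rcases h1 with rfl | rfl | rfl <;> rcases h2 with rfl | rfl | rfl <;> decide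
    · rcases h1 with rfl | rfl <;> rcases h2 with rfl | rfl <;> decide
    · rcases h1 with rfl | rfl <;> rcases h2 with rfl | rfl <;> decide
    · rcases h1 with rfl | rfl <;> rcases h2 with rfl | rfl <;> decide

/-- the classes of coincidences, for simply laced names -/
theorem sameClass_sl {τ τ' : Ty} (h : τ.sl) (h' : τ'.sl) (k m : ℕ) :
    SameClass τ k τ' m ↔ nf τ.st k = nf τ'.st m := by
  rw [nf_eq_iff]
  unfold SameClass
  cases τ <;> cases τ' <;>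
    first
    | exact h.elim
    | exact h'.elim
    | simp [Ty.st]
  all_goals
    intros
    first
      | omega
      | (left; omega)

/-- the classification for the simply laced types -/
theorem full_sl (RD : RowsD) (RA : RowsA) (R : RowsN) (hVD : VD1_stmt) (hVA : VA1_stmt)
    (hSO : SOE_stmt) {τ τ' : Ty} (h : τ.sl) (h' : τ'.sl) (hok : τ.ok) (hok' : τ'.ok) {k m : ℕ}
    (hk : 0 < k) (hm : 0 < m) (hedge : ∃ v w, (sosGraph τ.R k).Adj v w) :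
    Nonempty (sosGraph τ.R k ≃g sosGraph τ'.R m) ↔ SameClass τ k τ' m := by
  obtain ⟨e⟩ := Ty.st_graph h k
  obtain ⟨e'⟩ := Ty.st_graph h' m
  rw [sameClass_sl h h', ← main_SL RD RA R hVD hVA hSO (Ty.st_ok h hok) (Ty.st_ok h' hok') hk hm
    (by
      obtain ⟨v, w, hvw⟩ := hedge
      exact ⟨e v, e w, e.map_adj_iff.2 hvw⟩)]
  constructor
  · rintro ⟨g⟩
    exact ⟨(e.symm.trans g).trans e'⟩
  · rintro ⟨g⟩
    exact ⟨(e.trans g).trans e'.symm⟩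

end Pool.Agent.SOL
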