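import Pool.Agent.helper20.SOL.Spec
import Pool.Agent.helper1.SOL.Rows

/-!
# Project sol: the linear map of an isomorphism from a graph of type D
-/

set_option autoImplicit false

namespace Pool.Agent.SOL

open Finset

open scoped BigOperators

theorem cv_dot {n : ℕ} (a b : Vec n) : cv a ⬝ᵥ cv b = (dp a b : ℝ) := by
  unfold dotProduct cv dp
  push_cast
  rfl

/-- data of a target: symmetric, constant norm `ρ m`, the norms of differences are divisible by `ρ`,
the rank is at most `r` -/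
structure Tgt {d : ℕ} (S : Set (Vec d)) (ρ m r : ℕ) : Prop where
  pos : 0 < m
  rpos : 0 < ρ
  neg : ∀ x ∈ S, -x ∈ S
  norm : ∀ x ∈ S, dp x x = ρ * m
  diff : ∀ a ∈ S, ∀ b ∈ S, (ρ : ℤ) ∣ dp (a - b) (a - b)
  rank : ∃ W : Submodule ℝ (Fin d → ℝ), (∀ x ∈ S, cv x ∈ W) ∧ Module.finrank ℝ W ≤ r

theorem Tgt.sl {d : ℕ} {S : Set (Vec d)} {ρ m r : ℕ} (hCSI : CSI_stmt) (h : Tgt S ρ m r) : SLs S :=
  hCSI d S (ρ * m) (by have := Nat.mul_pos h.rpos h.pos; exact_mod_cast this) h.neg h.norm

theorem VD_tgt {n k : ℕ} (hk : 0 < k) : Tgt (VD n k) 2 k n where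
  pos := hk
  rpos := by norm_num
  neg := fun _ hx => VD_neg hx
  norm := fun x hx => by rw [hx.2.1]; norm_num
  diff := fun a ha b hb => by
    rw [dp_sub_sub, ha.2.1, hb.2.1]
    exact ⟨k - dp a b + k, by push_cast; ring⟩
  rank := ⟨⊤, fun _ _ => Submodule.mem_top, by
    rw [finrank_top, Module.finrank_fin_fun]⟩

/-- elements of `TD n t s` exist, with a prescribed entry `1` and a prescribed entry `0` -/
theorem cnt_perm {n : ℕ} (σ : Equiv.Perm (Fin n)) (x : Vec n) (a : ℤ) :
    cnt (fun j => x (σ j)) a = cnt x a := by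
  unfold cnt
  refine Finset.card_bij (fun j _ => σ j) ?_ ?_ ?_
  · intro j hj
    rw [Finset.mem_filter] at hj ⊢
    exact ⟨Finset.mem_univ _, hj.2⟩
  · intro j _ l _ h
    exact σ.injective h
  · intro j hj
    rw [Finset.mem_filter] at hj
    refine ⟨σ.symm j, ?_, by simp⟩
    rw [Finset.mem_filter]
    exact ⟨Finset.mem_univ _, by simpa using hj.2⟩

theorem TD_perm {n t s : ℕ} (σ : Equiv.Perm (Fin n)) {x : Vec n} (hx : x ∈ TD n t s) :
    (fun j => x (σ j)) ∈ TD n t s :=
  ⟨fun i => hx.1 _, by rw [cnt_perm]; exact hx.2.1, by rw [cnt_perm]; exact hx.2.2⟩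

/-- the standard element -/
def std (n t s : ℕ) : Vec n := fun j => if j.val < t then 2 else if j.val < t + s then 1 else 0

theorem card_lt {n t : ℕ} (h : t ≤ n) : (univ.filter fun j : Fin n => j.val < t).card = t := by
  have := Fin.card_filter_val_lt (n := n) (m := t)
  rw [this]
  exact min_eq_right h

theorem std_mem {n t s : ℕ} (h : t + s ≤ n) : std n t s ∈ TD n t s := by
  refine ⟨?_, ?_, ?_⟩
  · intro i
    unfold std
    split_ifs <;> simp
  · unfold cnt
    have : (univ.filter fun i : Fin n => |std n t s i| = 2) =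
        univ.filter fun j : Fin n => j.val < t := by
      ext i
      simp only [mem_filter, mem_univ, true_and]
      unfold std
      split_ifs with h1 h2
      · simp [h1]
      · simp [h1]
      · simp [h1]
    rw [this, card_lt (by omega)]
  · unfold cnt
    have : (univ.filter fun i : Fin n => |std n t s i| = 1) =
        (univ.filter fun j : Fin n => j.val < t + s) \ (univ.filter fun j : Fin n => j.val < t) := by
      ext i
      simp only [mem_filter, mem_univ, true_and, mem_sdiff]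
      unfold std
      split_ifs with h1 h2
      · simp [h1]
      · simp [h1, h2]
      · simp [h2]
    rw [this, card_sdiff_of_subset, card_lt h, card_lt (by omega)]
    · omega
    · intro j hj
      rw [mem_filter] at hj ⊢
      exact ⟨mem_univ _, by omega⟩

/-- a permutation moving two given indices to two given indices -/
theorem exists_perm {n : ℕ} {i j i' j' : Fin n} (h : i ≠ j) (h' : i' ≠ j') :
    ∃ σ : Equiv.Perm (Fin n), σ i = i' ∧ σ j = j' := by
  refine ⟨(Equiv.swap i i').trans (Equiv.swap (Equiv.swap i i' j) j'), ?_, ?_⟩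
  · rw [Equiv.trans_apply, Equiv.swap_apply_left]
    apply Equiv.swap_apply_of_ne_of_ne _ h'
    intro h1
    have h2 : Equiv.swap i i' j = Equiv.swap i i' i := by rw [← h1, Equiv.swap_apply_left]
    exact h ((Equiv.swap i i').injective h2).symm
  · rw [Equiv.trans_apply, Equiv.swap_apply_left]

theorem exists_one_zero {n t s : ℕ} (hs : 1 ≤ s) (h : t + s < n) {i j : Fin n} (hij : i ≠ j) :
    ∃ x ∈ TD n t s, x i = 1 ∧ x j = 0 := by
  have hi' : t < n := by omega
  have hj' : t + s < n := h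
  obtain ⟨σ, h1, h2⟩ := exists_perm (i' := (⟨t, hi'⟩ : Fin n)) (j' := ⟨t + s, hj'⟩) hij (by
    intro h1
    have := congrArg Fin.val h1
    simp at this
    omega)
  refine ⟨fun l => std n t s (σ l), TD_perm σ (std_mem h.le), ?_, ?_⟩
  · show std n t s (σ i) = 1
    rw [h1]
    unfold std
    have h3 : ¬ (t < t) := lt_irrefl t
    have h4 : t < t + s := by omega
    simp [h4]
  · show std n t s (σ j) = 0
    rw [h2]
    unfold std
    have h3 : ¬ (t + s < t) := by omega
    simp [h3]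

/-- the differences of the basis images -/
theorem diffs {n d t s : ℕ} (hCNT : CNT_stmt) {S' : Set (Vec d)} (f : Vec n → Vec d)
    (T : Fin n → Fin d → ℝ) (hs : 1 ≤ s) (hts : t + s < n) (hf : ∀ x ∈ TD n t s, f x ∈ S')
    (hT : ∀ x ∈ TD n t s, cv (f x) = ∑ i, (x i : ℝ) • T i) :
    (∀ i j, i ≠ j → ∃ a ∈ S', ∃ b ∈ S', T i - T j = cv (a - b)) ∧
    (∀ i j, i ≠ j → ∃ a ∈ S', ∃ b ∈ S', T i + T j = cv (a - b)) := by
  have key : ∀ i j : Fin n, i ≠ j → ∀ x : Vec n, x i = 1 → x j = 0 →
      ∑ l, (x l : ℝ) • T l - ∑ l, ((swp i j x) l : ℝ) • T l = T i - T j ∧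
      ∑ l, (x l : ℝ) • T l - ∑ l, ((flp j (swp i j x)) l : ℝ) • T l = T i + T j := by
    intro i j hij x hi hj
    have e1 : ∀ l, ((x l : ℝ) • T l - ((swp i j x) l : ℝ) • T l) =
        (if l = i then T i else 0) - (if l = j then T j else 0) := by
      intro l
      unfold swp
      by_cases h1 : l = i
      · subst h1
        rw [Equiv.swap_apply_left, hi, hj, if_pos rfl, if_neg hij]
        simp
      · by_cases h2 : l = j
        · subst h2
          rw [Equiv.swap_apply_right, hi, hj, if_pos rfl, if_neg h1]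
          simp
        · rw [Equiv.swap_apply_of_ne_of_ne h1 h2, if_neg h1, if_neg h2]
          simp
    have e2 : ∀ l, ((x l : ℝ) • T l - ((flp j (swp i j x)) l : ℝ) • T l) =
        (if l = i then T i else 0) + (if l = j then T j else 0) := by
      intro l
      unfold flp swp
      by_cases h1 : l = i
      · subst h1
        rw [if_neg hij, Equiv.swap_apply_left, hi, hj, if_pos rfl, if_neg hij]
        simp
      · by_cases h2 : l = j
        · subst h2
          rw [if_pos rfl, Equiv.swap_apply_right, hi, hj, if_pos rfl, if_neg h1]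
          simp
        · rw [if_neg h2, Equiv.swap_apply_of_ne_of_ne h1 h2, if_neg h1, if_neg h2]
          simp
    constructor
    · rw [← Finset.sum_sub_distrib, Finset.sum_congr rfl (fun l _ => e1 l), Finset.sum_sub_distrib,
        Finset.sum_ite_eq', Finset.sum_ite_eq', if_pos (mem_univ _), if_pos (mem_univ _)]
    · rw [← Finset.sum_sub_distrib, Finset.sum_congr rfl (fun l _ => e2 l), Finset.sum_add_distrib,
        Finset.sum_ite_eq', Finset.sum_ite_eq', if_pos (mem_univ _), if_pos (mem_univ _)]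
  obtain ⟨_, _, _, c4, c5, _, _, _⟩ := hCNT
  constructor
  · intro i j hij
    obtain ⟨x, hx, hi, hj⟩ := exists_one_zero hs hts hij
    refine ⟨f x, hf x hx, f (swp i j x), hf _ (c5 _ _ _ _ _ _ hx), ?_⟩
    rw [cv_sub, hT x hx, hT _ (c5 _ _ _ _ _ _ hx)]
    exact ((key i j hij x hi hj).1).symm
  · intro i j hij
    obtain ⟨x, hx, hi, hj⟩ := exists_one_zero hs hts hij
    have h1 : flp j (swp i j x) ∈ TD n t s := c4 _ _ _ _ _ (c5 _ _ _ _ _ _ hx)
    refine ⟨f x, hf x hx, f (flp j (swp i j x)), hf _ h1, ?_⟩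
    rw [cv_sub, hT x hx, hT _ h1]
    exact ((key i j hij x hi hj).2).symm

/-- the core: linearity on the orbit `TD n t s` -/
theorem core {n k t s d ρ m r : ℕ} {S' : Set (Vec d)} (hCNT : CNT_stmt) (hCSI : CSI_stmt)
    (hODA : ODA_stmt) (hDSM : DSM_stmt) (hk : 0 < k) (h4 : 4 * t + s = 2 * k) (hle : 2 * t + s ≤ n)
    (h2 : 2 ≤ t + s) (hlt : t + s < n) (hLin : Lin n t s)
    (hgood : ∀ x ∈ TD n t s, GoodPair (VD n k) x) (h : Tgt S' ρ m r)
    (ψ : gph (VD n k) ≃g gph S') :
    ∃ T : Fin n → Fin d → ℝ, (∀ x ∈ TD n t s, cv (up ψ x) = ∑ i, (x i : ℝ) • T i) ∧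
      (∀ i, T i ⬝ᵥ T i = (ρ * m : ℝ) / (2 * k)) ∧ ∀ i j, i ≠ j → T i ⬝ᵥ T j = 0 := by
  have hS := (VD_tgt (n := n) hk).sl hCSI
  have hS' := h.sl hCSI
  have hsub : ∀ x ∈ TD n t s, x ∈ VD n k := fun x hx => hCNT.2.2.1 n k t s x h4 hle hx
  obtain ⟨_, o2, o3⟩ := hODA n d (VD n k) S' ψ hS hS'
  have hodd : ∀ x ∈ TD n t s, up ψ (-x) = -up ψ x := by
    intro x hx
    obtain ⟨y, hy, hxy, g1, g2⟩ := hgood x hx
    exact o2 x (hsub x hx) y hy hxy g1 g2
  have hadd : AddOn (TD n t s) (fun x => cv (up ψ x)) := by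
    constructor
    · intro x hx
      show cv (up ψ (-x)) = -cv (up ψ x)
      rw [hodd x hx]
      funext i
      simp [cv]
    · intro x hx y hy hxy
      show cv (up ψ (x - y)) = cv (up ψ x) - cv (up ψ y)
      rw [o3 y (hsub y hy) x (hsub x hx) (hS.sub_comm (hsub _ hxy)) (hodd y hy), cv_sub]
  obtain ⟨T, hT⟩ := hLin (Fin d → ℝ) _ hadd
  obtain ⟨n1, n2⟩ := hDSM n d t s (ρ * m : ℝ) T h2 hlt (by
    intro x hx
    rw [← hT x hx, cv_dot, h.norm _ (up_mem ψ (hsub x hx))]
    push_cast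
    rfl)
  refine ⟨T, hT, fun i => ?_, n2⟩
  rw [n1 i]
  congr 1
  have : ((4 * t + s : ℕ) : ℝ) = ((2 * k : ℕ) : ℝ) := by rw [h4]
  push_cast at this
  exact this

end Pool.Agent.SOL
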