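import Pool.Agent.helper20.SOL.AD1

/-!
# Project sol: the linear map of an isomorphism from a graph of type D, all classes
-/

set_option autoImplicit false

namespace Pool.Agent.SOL

open Finset

open scoped BigOperators

/-- the generic pairs of type D -/
def GenD (n k : ℕ) : Prop :=
  4 ≤ n ∧ ((k % 4 = 1 ∧ k + 1 ≤ n) ∨ (k % 4 = 3 ∧ k + 1 ≤ n ∧ 5 ≤ n) ∨
    (k % 4 = 2 ∧ k + 2 ≤ n ∧ 5 ≤ n) ∨ (k % 4 = 0 ∧ 4 ≤ k ∧ k + 2 ≤ n))

/-- what we know about the linear map in the generic case -/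
structure OutD {d : ℕ} (n k : ℕ) (S' : Set (Vec d)) (ρ m : ℕ) (T : Fin n → Fin d → ℝ) : Prop where
  norm : ∀ i, T i ⬝ᵥ T i = (ρ * m : ℝ) / (2 * k)
  orth : ∀ i j, i ≠ j → T i ⬝ᵥ T j = 0
  sub : ∀ i j, i ≠ j → ∃ a ∈ S', ∃ b ∈ S', T i - T j = cv (a - b)
  add : ∀ i j, i ≠ j → ∃ a ∈ S', ∃ b ∈ S', T i + T j = cv (a - b)
  two : 2 ≤ k → ∃ t s, 1 ≤ t ∧ t + s ≤ n ∧ ∀ x ∈ TD n t s, ∃ a ∈ S', ∑ i, (x i : ℝ) • T i = cv a
  lone : 2 ≤ k → ∃ t s, 3 ≤ 2 * t + s ∧ t + s ≤ n ∧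
    ∀ x ∈ TD n t s, ∃ a ∈ S', ∑ i, (x i : ℝ) • T i = cv a

/-- the rows used -/
structure RowsD : Prop where
  cnt : CNT_stmt
  csi : CSI_stmt
  oda : ODA_stmt
  dsm : DSM_stmt
  pr4 : PR4_stmt
  k2l : K2L_stmt
  dl0 : DL0_stmt
  dl1 : DL1_stmt
  dl2 : DL2_stmt
  dl3 : DL3_stmt

theorem RowsD.sub (R : RowsD) {n k t s : ℕ} (h4 : 4 * t + s = 2 * k) (hle : 2 * t + s ≤ n)
    {x : Vec n} (hx : x ∈ TD n t s) : x ∈ VD n k := R.cnt.2.2.1 n k t s x h4 hle hx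

theorem half_inner {n k d ρ m r : ℕ} {S' : Set (Vec d)} (R : RowsD) (hk : 0 < k)
    (h : Tgt S' ρ m r) (ψ : gph (VD n k) ≃g gph S') {x y : Vec n} (hx : x ∈ VD n k)
    (hy : y ∈ VD n k) (hxy : x - y ∈ VD n k) :
    cv (up ψ x) ⬝ᵥ cv (up ψ y) = (ρ * m : ℝ) / 2 := by
  have hS := (VD_tgt (n := n) hk).sl R.csi
  have hS' := h.sl R.csi
  have h1 := h.norm _ ((up_adj hS hS' ψ hx hy).2 hxy)
  rw [dp_sub_sub, h.norm _ (up_mem ψ hx), h.norm _ (up_mem ψ hy)] at h1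
  rw [cv_dot]
  have h2 : 2 * dp (up ψ x) (up ψ y) = ρ * m := by linarith
  have h3 : (2 : ℝ) * (dp (up ψ x) (up ψ y) : ℝ) = ρ * m := by exact_mod_cast h2
  linarith

/-- general packaging: linear on `TD n t s` with `s ≥ 1` -/
theorem OutD.mk' {n k t s d ρ m : ℕ} {S' : Set (Vec d)} (R : RowsD) (f : Vec n → Vec d)
    (T : Fin n → Fin d → ℝ) (hs : 1 ≤ s) (hlt : t + s < n) (ht : 2 ≤ k → 1 ≤ t)
    (hl : 2 ≤ k → 3 ≤ 2 * t + s)
    (hf : ∀ x ∈ TD n t s, f x ∈ S') (hT : ∀ x ∈ TD n t s, cv (f x) = ∑ i, (x i : ℝ) • T i)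
    (n1 : ∀ i, T i ⬝ᵥ T i = (ρ * m : ℝ) / (2 * k)) (n2 : ∀ i j, i ≠ j → T i ⬝ᵥ T j = 0) :
    OutD n k S' ρ m T := by
  obtain ⟨d1, d2⟩ := diffs R.cnt f T hs hlt hf hT
  exact ⟨n1, n2, d1, d2, fun h => ⟨t, s, ht h, hlt.le, fun x hx => ⟨f x, hf x hx, (hT x hx).symm⟩⟩,
    fun h => ⟨t, s, hl h, hlt.le, fun x hx => ⟨f x, hf x hx, (hT x hx).symm⟩⟩⟩

theorem genD {n k d ρ m r : ℕ} {S' : Set (Vec d)} (R : RowsD) (hg : GenD n k) (h : Tgt S' ρ m r)
    (ψ : gph (VD n k) ≃g gph S') : ∃ T : Fin n → Fin d → ℝ, OutD n k S' ρ m T := by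
  obtain ⟨hn, hg⟩ := hg
  have hk : 0 < k := by omega
  have hS := (VD_tgt (n := n) hk).sl R.csi
  have hS' := h.sl R.csi
  rcases hg with ⟨hk4, hle⟩ | ⟨hk4, hle, h5⟩ | ⟨hk4, hle, h5⟩ | ⟨hk4, hk0, hle⟩
  · -- k = 4 q + 1
    obtain ⟨q, rfl⟩ : ∃ q, k = 4 * q + 1 := ⟨k / 4, by omega⟩
    obtain ⟨T, hT, n1, n2⟩ := core (t := 2 * q) (s := 2) R.cnt R.csi R.oda R.dsm hk (by omega)
      (by omega) (by omega) (by omega) (R.dl1 n q (by omega) hn) (by
        intro x hx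
        exact row_DG1 (by omega) (by omega) (R.sub (by omega) (by omega) hx) hx.2.1) h ψ
    refine ⟨T, OutD.mk' R (up ψ) T (t := 2 * q) (s := 2) (by norm_num) (by omega) (by omega)
      (by omega) (fun x hx => up_mem ψ (R.sub (by omega) (by omega) hx)) hT n1 n2⟩
  · -- k = 4 q + 3
    obtain ⟨q, rfl⟩ : ∃ q, k = 4 * q + 3 := ⟨k / 4, by omega⟩
    obtain ⟨T, hT, n1, n2⟩ := core (t := 2 * q + 1) (s := 2) R.cnt R.csi R.oda R.dsm hk (by omega)
      (by omega) (by omega) (by omega) (R.dl3 n q (by omega) h5) (by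
        intro x hx
        exact row_DG3 (by omega) (R.sub (by omega) (by omega) hx) hx.2.1) h ψ
    refine ⟨T, OutD.mk' R (up ψ) T (t := 2 * q + 1) (s := 2) (by norm_num) (by omega) (by omega)
      (by omega) (fun x hx => up_mem ψ (R.sub (by omega) (by omega) hx)) hT n1 n2⟩
  · obtain ⟨q, rfl⟩ : ∃ q, k = 4 * q + 2 := ⟨k / 4, by omega⟩
    rcases Nat.eq_zero_or_pos q with rfl | hq
    · -- k = 2
      obtain ⟨_, o2, o3⟩ := R.oda n d (VD n 2) S' ψ hS hS'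
      have hodd : ∀ x ∈ TD n 1 0, up ψ (-x) = -up ψ x := by
        intro x hx
        have hx' : x ∈ VD n 2 := R.sub (by norm_num) (by omega) hx
        obtain ⟨y, hy, hxy, g1, g2⟩ := row_DG2a (r := 0) (by omega) hx' hx.2.1
        exact o2 x hx' y hy hxy g1 g2
      obtain ⟨T, hT, n1, n2⟩ := R.k2l n d (ρ * m : ℝ) (fun x => cv (up ψ x)) hn (by
          intro x hx
          show cv (up ψ x) ⬝ᵥ cv (up ψ x) = _
          rw [cv_dot, h.norm _ (up_mem ψ hx)]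
          push_cast
          rfl) (by
          intro x hx y hy hxy
          exact half_inner R hk h ψ hx hy hxy) (by
          intro x hx
          show cv (up ψ (-x)) = -cv (up ψ x)
          rw [hodd x hx]
          funext i
          simp [cv]) (by
          intro x hx y hy hxy
          show cv (up ψ (y - x)) = cv (up ψ y) - cv (up ψ x)
          rw [o3 x (R.sub (by norm_num) (by omega) hx) y hy hxy (hodd x hx), cv_sub])
      have hs1 : ∀ x ∈ TD n 1 0, x ∈ VD n (4 * 0 + 2) := fun x hx => R.sub (by norm_num) (by omega) hx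
      have hs4 : ∀ x ∈ TD n 0 4, x ∈ VD n (4 * 0 + 2) := fun x hx => R.sub (by norm_num) (by omega) hx
      obtain ⟨d1, d2⟩ := diffs (t := 0) (s := 4) (S' := S') R.cnt (up ψ) T (by norm_num) (by omega)
        (fun x hx => up_mem ψ (hs4 x hx)) (fun x hx => hT x (hs4 x hx))
      refine ⟨T, ⟨fun i => ?_, n2, d1, d2, fun _ => ⟨1, 0, le_refl 1, by omega, fun x hx =>
        ⟨up ψ x, up_mem ψ (hs1 x hx), (hT x (hs1 x hx)).symm⟩⟩, fun _ => ⟨0, 4, by norm_num,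
        by omega, fun x hx => ⟨up ψ x, up_mem ψ (hs4 x hx), (hT x (hs4 x hx)).symm⟩⟩⟩⟩
      rw [n1 i]
      norm_num
    · obtain ⟨T, hT, n1, n2⟩ := core (t := 2 * q) (s := 4) R.cnt R.csi R.oda R.dsm hk (by omega)
        (by omega) (by omega) (by omega) (R.dl2 n q hq (by omega)) (by
          intro x hx
          exact row_DG2 hq (by omega) (R.sub (by omega) (by omega) hx) hx.2.1) h ψ
      refine ⟨T, OutD.mk' R (up ψ) T (t := 2 * q) (s := 4) (by norm_num) (by omega) (by omega)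
        (by omega) (fun x hx => up_mem ψ (R.sub (by omega) (by omega) hx)) hT n1 n2⟩
  · obtain ⟨q, rfl⟩ : ∃ q, k = 4 * q := ⟨k / 4, by omega⟩
    have hq : 1 ≤ q := by omega
    obtain ⟨T, hT, n1, n2⟩ := core (t := 2 * q) (s := 0) R.cnt R.csi R.oda R.dsm hk (by omega)
      (by omega) (by omega) (by omega) (R.dl0 n q hq (by omega)) (by
        intro x hx
        exact row_DG0 hq (by omega) (R.sub (by omega) (by omega) hx) hx.2.1) h ψ
    have hs4 : ∀ x ∈ TD n (2 * q - 1) 4, x ∈ VD n (4 * q) :=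
      fun x hx => R.sub (by omega) (by omega) hx
    have hN : (0 : ℝ) < ρ * m := by
      have := Nat.mul_pos h.rpos h.pos
      exact_mod_cast this
    have hk' : (0 : ℝ) < ((4 * q : ℕ) : ℝ) := by exact_mod_cast hk
    -- linearity on the second orbit
    have hT2 : ∀ x ∈ TD n (2 * q - 1) 4, cv (up ψ x) = ∑ i, (x i : ℝ) • T i := by
      intro x hx
      have hxV := hs4 x hx
      have hnorm := h.norm _ (up_mem ψ hxV)
      have hpr := R.pr4 n q x (fun i => cv (up ψ x) ⬝ᵥ T i) ((ρ * m : ℝ) / 2) hq (by omega) hx (by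
        intro y hy hxy
        have h1 := half_inner R hk h ψ hxV (R.sub (by omega) (by omega) hy) hxy
        rw [hT y hy, dotProduct_sum] at h1
        rw [← h1]
        refine Finset.sum_congr rfl fun i _ => ?_
        rw [dotProduct_smul, smul_eq_mul])
      have h1 : cv (up ψ x) ⬝ᵥ (∑ i, (x i : ℝ) • T i) = (ρ * m : ℝ) := by
        rw [dotProduct_sum]
        have h2 : ∀ i ∈ (univ : Finset (Fin n)), cv (up ψ x) ⬝ᵥ ((x i : ℝ) • T i) =
            (x i : ℝ) * (cv (up ψ x) ⬝ᵥ T i) := by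
          intro i _
          rw [dotProduct_smul, smul_eq_mul]
        rw [Finset.sum_congr rfl h2, hpr]
        ring
      have h2 : (∑ i, (x i : ℝ) • T i) ⬝ᵥ (∑ i, (x i : ℝ) • T i) = (ρ * m : ℝ) := by
        rw [dotProduct_sum]
        have h3 : ∀ i ∈ (univ : Finset (Fin n)), (∑ j, (x j : ℝ) • T j) ⬝ᵥ ((x i : ℝ) • T i) =
            (x i : ℝ) * (x i : ℝ) * ((ρ * m : ℝ) / (2 * ((4 * q : ℕ) : ℝ))) := by
          intro i _
          rw [dotProduct_smul, sum_dotProduct, Finset.sum_eq_single i]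
          · rw [smul_dotProduct, n1 i, smul_eq_mul, smul_eq_mul]
            ring
          · intro j _ hj
            rw [smul_dotProduct, n2 j i hj, smul_zero]
          · intro h
            exact absurd (mem_univ i) h
        rw [Finset.sum_congr rfl h3, ← Finset.sum_mul]
        have h4 : ∑ i, (x i : ℝ) * (x i : ℝ) = 2 * ((4 * q : ℕ) : ℝ) := by
          have h5 := hxV.2.1
          unfold dp at h5
          exact_mod_cast h5
        rw [h4]
        field_simp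
      have h3 : (cv (up ψ x) - ∑ i, (x i : ℝ) • T i) ⬝ᵥ (cv (up ψ x) - ∑ i, (x i : ℝ) • T i) = 0 := by
        rw [sub_dotProduct, dotProduct_sub, dotProduct_sub, h1, h2,
          dotProduct_comm (∑ i, (x i : ℝ) • T i) (cv (up ψ x)), h1, cv_dot, hnorm]
        push_cast
        ring
      have h4 := dotProduct_self_eq_zero.1 h3
      exact sub_eq_zero.1 h4
    obtain ⟨d1, d2⟩ := diffs (t := 2 * q - 1) (s := 4) (S' := S') R.cnt (up ψ) T (by norm_num)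
      (by omega) (fun x hx => up_mem ψ (hs4 x hx)) hT2
    refine ⟨T, ⟨n1, n2, d1, d2, fun _ => ⟨2 * q - 1, 4, by omega, by omega, fun x hx =>
      ⟨up ψ x, up_mem ψ (hs4 x hx), (hT2 x hx).symm⟩⟩, fun _ => ⟨2 * q - 1, 4, by omega, by omega,
      fun x hx => ⟨up ψ x, up_mem ψ (hs4 x hx), (hT2 x hx).symm⟩⟩⟩⟩

/-- the special pairs of type D: `4 ∣ k`, `k ≤ n ≤ k + 1`; the isomorphism is linear everywhere -/
theorem specD {n k d ρ m r : ℕ} {S' : Set (Vec d)} (R : RowsD) (hk4 : k % 4 = 0) (hk : 0 < k)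
    (hn : 4 ≤ n) (hkn : k ≤ n) (hnk : n ≤ k + 1) (h : Tgt S' ρ m r)
    (ψ : gph (VD n k) ≃g gph S') :
    ∃ T : Fin n → Fin d → ℝ, (∀ x ∈ VD n k, cv (up ψ x) = ∑ i, (x i : ℝ) • T i) ∧
      (∀ i, T i ⬝ᵥ T i = (ρ * m : ℝ) / (2 * k)) ∧ ∀ i j, i ≠ j → T i ⬝ᵥ T j = 0 := by
  obtain ⟨q, rfl⟩ : ∃ q, k = 4 * q := ⟨k / 4, by omega⟩
  have hq : 1 ≤ q := by omega
  obtain ⟨T, hT, n1, n2⟩ := core (t := 2 * q) (s := 0) R.cnt R.csi R.oda R.dsm hk (by omega)
    (by omega) (by omega) (by omega) (R.dl0 n q hq (by omega)) (by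
      intro x hx
      exact row_DG0 hq (by omega) (R.sub (by omega) (by omega) hx) hx.2.1) h ψ
  refine ⟨T, fun x hx => hT x ?_, n1, n2⟩
  obtain ⟨a, b, c⟩ := (R.cnt.2.1 n (4 * q) x).1 hx
  exact ⟨a, by omega, by omega⟩

end Pool.Agent.SOL
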