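import Pool.Agent.helper20.SOL.AD2

/-!
# Project sol: consequences of the linear map: divisibility and rank
-/

set_option autoImplicit false

namespace Pool.Agent.SOL

open Finset

open scoped BigOperators

theorem cv_mem_span {d : ℕ} {W : Submodule ℝ (Fin d → ℝ)} {a b : Vec d} (ha : cv a ∈ W)
    (hb : cv b ∈ W) : cv (a - b) ∈ W := by
  rw [cv_sub]
  exact W.sub_mem ha hb

/-- the norm of a combination of orthogonal vectors -/
theorem norm_comb {n d : ℕ} {T : Fin n → Fin d → ℝ} {c : ℝ} (n1 : ∀ i, T i ⬝ᵥ T i = c)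
    (n2 : ∀ i j, i ≠ j → T i ⬝ᵥ T j = 0) (u : Fin n → ℝ) :
    (∑ i, u i • T i) ⬝ᵥ (∑ i, u i • T i) = c * ∑ i, u i * u i := by
  rw [dotProduct_sum, Finset.mul_sum]
  refine Finset.sum_congr rfl fun i _ => ?_
  rw [dotProduct_smul, sum_dotProduct, Finset.sum_eq_single i]
  · rw [smul_dotProduct, n1 i, smul_eq_mul, smul_eq_mul]
    ring
  · intro j _ hj
    rw [smul_dotProduct, n2 j i hj, smul_zero]
  · intro h
    exact absurd (mem_univ i) h

/-- orthogonal nonzero vectors in a subspace -/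
theorem rank_orth {n d r : ℕ} {T : Fin n → Fin d → ℝ} {c : ℝ} (hc : 0 < c)
    (n1 : ∀ i, T i ⬝ᵥ T i = c) (n2 : ∀ i j, i ≠ j → T i ⬝ᵥ T j = 0)
    {W : Submodule ℝ (Fin d → ℝ)} (hW : ∀ i, T i ∈ W) (hr : Module.finrank ℝ W ≤ r) : n ≤ r := by
  have hli : LinearIndependent ℝ (fun i => (⟨T i, hW i⟩ : W)) := by
    rw [Fintype.linearIndependent_iff]
    intro g hg i
    have h1 : ∑ i, g i • T i = 0 := by
      have h2 := congrArg (Submodule.subtype W) hg
      rw [map_sum] at h2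
      simpa using h2
    have h3 := norm_comb n1 n2 g
    rw [h1, zero_dotProduct] at h3
    have h4 : ∑ i, g i * g i = 0 := by
      rcases mul_eq_zero.1 h3.symm with h5 | h5
      · exact absurd h5 hc.ne'
      · exact h5
    have h5 := (Finset.sum_eq_zero_iff_of_nonneg fun i _ => mul_self_nonneg (g i)).1 h4 i
      (Finset.mem_univ i)
    exact mul_self_eq_zero.1 h5
  have := hli.fintype_card_le_finrank
  rw [Fintype.card_fin] at this
  exact this.trans hr

/-- divisibility from an integral vector of known norm -/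
theorem dvd_of_norm {d ρ m k : ℕ} {S' : Set (Vec d)} {r : ℕ} (h : Tgt S' ρ m r) (hk : 0 < k)
    {a b : Vec d} (ha : a ∈ S') (hb : b ∈ S') {e : ℕ}
    (hab : cv (a - b) ⬝ᵥ cv (a - b) = (ρ * m * e : ℝ) / k) : k ∣ m * e := by
  obtain ⟨c, hc⟩ := h.diff a ha b hb
  rw [cv_dot, hc] at hab
  have hρ : (0 : ℝ) < ρ := by exact_mod_cast h.rpos
  have hk' : (0 : ℝ) < k := by exact_mod_cast hk
  have h1 : (c : ℝ) * k = m * e := by
    push_cast at hab
    field_simp at hab
    linarith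
  have h2 : c * (k : ℤ) = (m * e : ℕ) := by
    have : ((c * (k : ℤ) : ℤ) : ℝ) = (((m * e : ℕ) : ℤ) : ℝ) := by push_cast; linarith
    exact_mod_cast this
  have h3 : (k : ℤ) ∣ ((m * e : ℕ) : ℤ) := ⟨c, by rw [← h2]; ring⟩
  exact_mod_cast h3

theorem OutD.pos {n k d ρ m r : ℕ} {S' : Set (Vec d)} (hk : 0 < k) (h : Tgt S' ρ m r) :
    (0 : ℝ) < (ρ * m : ℝ) / (2 * k) := by
  have h1 : (0 : ℝ) < ρ := by exact_mod_cast h.rpos
  have h2 : (0 : ℝ) < m := by exact_mod_cast h.pos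
  have h3 : (0 : ℝ) < k := by exact_mod_cast hk
  positivity

theorem exists_ne_fin {n : ℕ} (hn : 2 ≤ n) (i : Fin n) : ∃ j : Fin n, i ≠ j := by
  by_cases h : i.val = 0
  · exact ⟨⟨1, by omega⟩, fun h1 => by rw [h1] at h; simp at h⟩
  · exact ⟨⟨0, by omega⟩, fun h1 => h (by rw [h1])⟩

/-- `2 T i` is a difference of differences -/
theorem OutD.two_T {n k d ρ m : ℕ} {S' : Set (Vec d)} {T : Fin n → Fin d → ℝ} (hn : 2 ≤ n)
    (h : OutD n k S' ρ m T) (i : Fin n) :
    ∃ a ∈ S', ∃ b ∈ S', ∃ a' ∈ S', ∃ b' ∈ S', (2 : ℝ) • T i = cv ((a - b) + (a' - b')) := by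
  obtain ⟨j, hij⟩ := exists_ne_fin hn i
  obtain ⟨a, ha, b, hb, h1⟩ := h.sub i j hij
  obtain ⟨a', ha', b', hb', h2⟩ := h.add i j hij
  refine ⟨a, ha, b, hb, a', ha', b', hb', ?_⟩
  have h3 : cv ((a - b) + (a' - b')) = cv (a - b) + cv (a' - b') := by
    funext p
    simp [cv]
  rw [h3, ← h1, ← h2, two_smul]
  abel

theorem OutD.mem {n k d ρ m : ℕ} {S' : Set (Vec d)} {T : Fin n → Fin d → ℝ} (hn : 2 ≤ n)
    (h : OutD n k S' ρ m T) {W : Submodule ℝ (Fin d → ℝ)} (hW : ∀ x ∈ S', cv x ∈ W) (i : Fin n) :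
    T i ∈ W := by
  obtain ⟨a, ha, b, hb, a', ha', b', hb', h1⟩ := h.two_T hn i
  have h3 : cv ((a - b) + (a' - b')) = cv (a - b) + cv (a' - b') := by
    funext p
    simp [cv]
  have h2 : (2 : ℝ) • T i ∈ W := by
    rw [h1, h3]
    exact W.add_mem (cv_mem_span (hW a ha) (hW b hb)) (cv_mem_span (hW a' ha') (hW b' hb'))
  have h4 := W.smul_mem (1 / 2 : ℝ) h2
  rw [smul_smul] at h4
  norm_num at h4
  exact h4

/-- generic type D: `k ∣ m` and `n ≤ r` -/
theorem genD_out {n k d ρ m r : ℕ} {S' : Set (Vec d)} (R : RowsD) (hg : GenD n k)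
    (h : Tgt S' ρ m r) (ψ : gph (VD n k) ≃g gph S') :
    k ∣ m ∧ n ≤ r ∧ ∃ T : Fin n → Fin d → ℝ, OutD n k S' ρ m T := by
  obtain ⟨T, hT⟩ := genD R hg h ψ
  have hn := hg.1
  have hk : 0 < k := by rcases hg.2 with h | h | h | h <;> omega
  obtain ⟨W, hW, hr⟩ := h.rank
  refine ⟨?_, ?_, T, hT⟩
  · have h01 : (⟨0, by omega⟩ : Fin n) ≠ ⟨1, by omega⟩ := by
      intro h1
      have := congrArg Fin.val h1
      simp at this
    obtain ⟨a, ha, b, hb, hab⟩ := hT.sub _ _ h01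
    have h1 := dvd_of_norm h hk ha hb (e := 1) (by
      rw [← hab, sub_dotProduct, dotProduct_sub, dotProduct_sub, hT.norm, hT.norm,
        hT.orth _ _ h01, hT.orth _ _ h01.symm]
      have h3 : (0 : ℝ) < k := by exact_mod_cast hk
      field_simp
      ring)
    rwa [mul_one] at h1
  · exact rank_orth (OutD.pos (n := n) hk h) hT.norm hT.orth (fun i => hT.mem (by omega) hW i) hr

/-- special type D: `k ∣ 4 m`, `n ≤ r`, and the doubled vectors have integral sums and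
differences -/
theorem specD_out {n k d ρ m r : ℕ} {S' : Set (Vec d)} (R : RowsD) (hk4 : k % 4 = 0) (hk : 0 < k)
    (hn : 4 ≤ n) (hkn : k ≤ n) (hnk : n ≤ k + 1) (h : Tgt S' ρ m r)
    (ψ : gph (VD n k) ≃g gph S') :
    k ∣ m * 4 ∧ n ≤ r ∧ ∃ T : Fin n → Fin d → ℝ, (∀ i, T i ⬝ᵥ T i = (ρ * m : ℝ) / (2 * k)) ∧
      (∀ i j, i ≠ j → T i ⬝ᵥ T j = 0) ∧
      (∀ i j, i ≠ j → ∃ a ∈ S', ∃ b ∈ S', (2 : ℝ) • (T i - T j) = cv (a - b)) ∧
      (∀ i j, i ≠ j → ∃ a ∈ S', ∃ b ∈ S', (2 : ℝ) • (T i + T j) = cv (a - b)) := by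
  obtain ⟨T, hT, n1, n2⟩ := specD R hk4 hk hn hkn hnk h ψ
  obtain ⟨q, rfl⟩ : ∃ q, k = 4 * q := ⟨k / 4, by omega⟩
  have hq : 1 ≤ q := by omega
  -- an element with x i = 2, x j = 0
  have hex : ∀ i j : Fin n, i ≠ j → ∃ x ∈ TD n (2 * q) 0, x i = 2 ∧ x j = 0 := by
    intro i j hij
    obtain ⟨σ, h1, h2⟩ := exists_perm (i' := (⟨0, by omega⟩ : Fin n)) (j' := ⟨2 * q, by omega⟩) hij
      (by
        intro h1
        have := congrArg Fin.val h1
        simp at this
        omega)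
    refine ⟨fun l => std n (2 * q) 0 (σ l), TD_perm σ (std_mem (by omega)), ?_, ?_⟩
    · show std n (2 * q) 0 (σ i) = 2
      rw [h1]
      unfold std
      have h3 : 0 < 2 * q := by omega
      simp only [h3, if_true]
    · show std n (2 * q) 0 (σ j) = 0
      rw [h2]
      unfold std
      simp
  have hsub : ∀ x ∈ TD n (2 * q) 0, x ∈ VD n (4 * q) := fun x hx => R.sub (by omega) (by omega) hx
  obtain ⟨_, _, _, c4, c5, _, _, _⟩ := R.cnt
  have key : ∀ i j : Fin n, i ≠ j → ∀ x : Vec n, x i = 2 → x j = 0 →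
      ∑ l, (x l : ℝ) • T l - ∑ l, ((swp i j x) l : ℝ) • T l = (2 : ℝ) • (T i - T j) ∧
      ∑ l, (x l : ℝ) • T l - ∑ l, ((flp j (swp i j x)) l : ℝ) • T l = (2 : ℝ) • (T i + T j) ∧
      ∑ l, (x l : ℝ) • T l - ∑ l, ((flp i x) l : ℝ) • T l = (4 : ℝ) • T i := by
    intro i j hij x hi hj
    have e1 : ∀ l, ((x l : ℝ) • T l - ((swp i j x) l : ℝ) • T l) =
        (if l = i then (2 : ℝ) • T i else 0) - (if l = j then (2 : ℝ) • T j else 0) := by
      intro l
      unfold swp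
      by_cases h1 : l = i
      · subst h1
        rw [Equiv.swap_apply_left, hi, hj, if_pos rfl, if_neg hij]
        simp
      · by_cases h2 : l = j
        · subst h2
          rw [Equiv.swap_apply_right, hi, hj, if_pos rfl, if_neg h1]
          simp
        · rw [Equiv.swap_apply_of_ne_of_ne h1 h2, if_neg h1, if_neg h2]
          simp
    have e2 : ∀ l, ((x l : ℝ) • T l - ((flp j (swp i j x)) l : ℝ) • T l) =
        (if l = i then (2 : ℝ) • T i else 0) + (if l = j then (2 : ℝ) • T j else 0) := by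
      intro l
      unfold flp swp
      by_cases h1 : l = i
      · subst h1
        rw [if_neg hij, Equiv.swap_apply_left, hi, hj, if_pos rfl, if_neg hij]
        simp
      · by_cases h2 : l = j
        · subst h2
          rw [if_pos rfl, Equiv.swap_apply_right, hi, hj, if_pos rfl, if_neg h1]
          simp
        · rw [if_neg h2, Equiv.swap_apply_of_ne_of_ne h1 h2, if_neg h1, if_neg h2]
          simp
    have e3 : ∀ l, ((x l : ℝ) • T l - ((flp i x) l : ℝ) • T l) =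
        (if l = i then (4 : ℝ) • T i else 0) := by
      intro l
      unfold flp
      by_cases h1 : l = i
      · subst h1
        rw [if_pos rfl, if_pos rfl, hi, ← sub_smul]
        norm_num
      · rw [if_neg h1, if_neg h1, sub_self]
    refine ⟨?_, ?_, ?_⟩
    · rw [← Finset.sum_sub_distrib, Finset.sum_congr rfl (fun l _ => e1 l), Finset.sum_sub_distrib,
        Finset.sum_ite_eq', Finset.sum_ite_eq', if_pos (mem_univ _), if_pos (mem_univ _), smul_sub]
    · rw [← Finset.sum_sub_distrib, Finset.sum_congr rfl (fun l _ => e2 l), Finset.sum_add_distrib,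
        Finset.sum_ite_eq', Finset.sum_ite_eq', if_pos (mem_univ _), if_pos (mem_univ _), smul_add]
    · rw [← Finset.sum_sub_distrib, Finset.sum_congr rfl (fun l _ => e3 l),
        Finset.sum_ite_eq', if_pos (mem_univ _)]
  have d1 : ∀ i j, i ≠ j → ∃ a ∈ S', ∃ b ∈ S', (2 : ℝ) • (T i - T j) = cv (a - b) := by
    intro i j hij
    obtain ⟨x, hx, hi, hj⟩ := hex i j hij
    have h1 := c5 _ _ _ _ i j hx
    refine ⟨up ψ x, up_mem ψ (hsub x hx), up ψ (swp i j x), up_mem ψ (hsub _ h1), ?_⟩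
    rw [cv_sub, hT x (hsub x hx), hT _ (hsub _ h1)]
    exact ((key i j hij x hi hj).1).symm
  have d2 : ∀ i j, i ≠ j → ∃ a ∈ S', ∃ b ∈ S', (2 : ℝ) • (T i + T j) = cv (a - b) := by
    intro i j hij
    obtain ⟨x, hx, hi, hj⟩ := hex i j hij
    have h1 : flp j (swp i j x) ∈ TD n (2 * q) 0 := c4 _ _ _ _ j (c5 _ _ _ _ i j hx)
    refine ⟨up ψ x, up_mem ψ (hsub x hx), up ψ (flp j (swp i j x)), up_mem ψ (hsub _ h1), ?_⟩
    rw [cv_sub, hT x (hsub x hx), hT _ (hsub _ h1)]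
    exact ((key i j hij x hi hj).2.1).symm
  obtain ⟨W, hW, hr⟩ := h.rank
  refine ⟨?_, ?_, T, n1, n2, d1, d2⟩
  · have h01 : (⟨0, by omega⟩ : Fin n) ≠ ⟨1, by omega⟩ := by
      intro h1
      have := congrArg Fin.val h1
      simp at this
    obtain ⟨a, ha, b, hb, hab⟩ := d1 _ _ h01
    exact dvd_of_norm h hk ha hb (e := 4) (by
      rw [← hab, smul_dotProduct, dotProduct_smul, sub_dotProduct, dotProduct_sub, dotProduct_sub,
        n1, n1, n2 _ _ h01, n2 _ _ h01.symm]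
      have h3 : (0 : ℝ) < ((4 * q : ℕ) : ℝ) := by exact_mod_cast hk
      rw [smul_eq_mul, smul_eq_mul]
      push_cast
      push_cast at h3
      field_simp
      ring)
  · refine rank_orth (OutD.pos (n := n) hk h) n1 n2 (fun i => ?_) hr
    obtain ⟨j, hij⟩ := exists_ne_fin (by omega) i
    obtain ⟨x, hx, hi, hj⟩ := hex i j hij
    have h1 : flp i x ∈ TD n (2 * q) 0 := c4 _ _ _ _ i hx
    have h2 := (key i j hij x hi hj).2.2
    rw [← hT x (hsub x hx), ← hT _ (hsub _ h1)] at h2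
    have h3 : (4 : ℝ) • T i ∈ W := by
      rw [← h2]
      exact W.sub_mem (hW _ (up_mem ψ (hsub x hx))) (hW _ (up_mem ψ (hsub _ h1)))
    have h4 := W.smul_mem (1 / 4 : ℝ) h3
    rw [smul_smul] at h4
    norm_num at h4
    exact h4

end Pool.Agent.SOL
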