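import Pool.Agent.helper20.SOL.AD3

/-!
# Project sol: type A, and the comparison lemmas
-/

set_option autoImplicit false

namespace Pool.Agent.SOL

open Finset

open scoped BigOperators

/-- the rows used for type A -/
structure RowsA : Prop where
  csi : CSI_stmt
  oda : ODA_stmt
  aln : ALN_stmt
  asm : ASM_stmt

theorem sum_cv {n : ℕ} (x : Vec n) : ∑ i, cv x i = ((∑ i, x i : ℤ) : ℝ) := by
  unfold cv
  push_cast
  rfl

/-- the hyperplane of sum zero -/
noncomputable def hyp (n : ℕ) : Submodule ℝ (Fin n → ℝ) where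
  carrier := {u | ∑ i, u i = 0}
  add_mem' := by
    intro a b ha hb
    show ∑ i, (a + b) i = 0
    have ha' : ∑ i, a i = 0 := ha
    have hb' : ∑ i, b i = 0 := hb
    simp only [Pi.add_apply, Finset.sum_add_distrib, ha', hb', add_zero]
  zero_mem' := by
    show ∑ i, (0 : Fin n → ℝ) i = 0
    simp
  smul_mem' := by
    intro c a ha
    show ∑ i, (c • a) i = 0
    have ha' : ∑ i, a i = 0 := ha
    simp only [Pi.smul_apply, smul_eq_mul, ← Finset.mul_sum, ha', mul_zero]

theorem mem_hyp {n : ℕ} {u : Fin n → ℝ} : u ∈ hyp n ↔ ∑ i, u i = 0 := Iff.rfl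

theorem finrank_hyp (n : ℕ) : Module.finrank ℝ (hyp n) ≤ n - 1 := by
  rcases Nat.eq_zero_or_pos n with rfl | hn
  · have := Submodule.finrank_le (hyp 0)
    rw [Module.finrank_fin_fun] at this
    omega
  · have h1 : hyp n ≠ ⊤ := by
      intro h
      have h2 : (fun _ => (1 : ℝ)) ∈ hyp n := by rw [h]; exact Submodule.mem_top
      rw [mem_hyp] at h2
      simp at h2
      omega
    have h2 := Submodule.finrank_lt h1
    rw [Module.finrank_fin_fun] at h2
    omega

theorem VA_tgt {n k : ℕ} (hk : 0 < k) : Tgt (VA n k) 2 k (n - 1) where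
  pos := hk
  rpos := by norm_num
  neg := fun _ hx => VA_neg hx
  norm := fun x hx => by rw [hx.2.2]; norm_num
  diff := fun a ha b hb => by
    rw [dp_sub_sub, ha.2.2, hb.2.2]
    exact ⟨k - dp a b + k, by push_cast; ring⟩
  rank := ⟨hyp n, fun x hx => by rw [mem_hyp, sum_cv, hx.2.1, Int.cast_zero], finrank_hyp n⟩

/-- an element of `VA n k` with a prescribed entry `1` and a prescribed entry `0` -/
theorem VA_swp {n k : ℕ} (i j : Fin n) {x : Vec n} (hx : x ∈ VA n k) : swp i j x ∈ VA n k := by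
  refine ⟨fun l => hx.1 _, ?_, ?_⟩
  · rw [← hx.2.1]
    exact Equiv.sum_comp (Equiv.swap i j) x
  · rw [← hx.2.2]
    exact Equiv.sum_comp (Equiv.swap i j) (fun l => x l * x l)

theorem VA_perm {n k : ℕ} (σ : Equiv.Perm (Fin n)) {x : Vec n} (hx : x ∈ VA n k) :
    (fun l => x (σ l)) ∈ VA n k := by
  refine ⟨fun l => hx.1 _, ?_, ?_⟩
  · rw [← hx.2.1]
    exact Equiv.sum_comp σ x
  · rw [← hx.2.2]
    exact Equiv.sum_comp σ (fun l => x l * x l)

/-- the standard element of `VA n k` -/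
def stdA (n k : ℕ) : Vec n := fun j => if j.val < k then 1 else if j.val < 2 * k then -1 else 0

theorem stdA_mem {n k : ℕ} (h : 2 * k ≤ n) : stdA n k ∈ VA n k := by
  have h1 : ∀ i : Fin n, stdA n k i = (if i.val < k then 1 else 0) -
      ((if i.val < 2 * k then 1 else 0) - (if i.val < k then 1 else 0)) := by
    intro i
    unfold stdA
    split_ifs <;> first | omega | rfl
  have h2 : ∀ i : Fin n, stdA n k i * stdA n k i = (if i.val < 2 * k then 1 else 0) := by
    intro i
    unfold stdA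
    split_ifs <;> first | omega | rfl
  refine ⟨?_, ?_, ?_⟩
  · intro i
    unfold stdA
    split_ifs <;> norm_num
  · rw [Finset.sum_congr rfl (fun i _ => h1 i), Finset.sum_sub_distrib, Finset.sum_sub_distrib,
      Finset.sum_boole, Finset.sum_boole, card_lt (by omega), card_lt h]
    push_cast
    ring
  · unfold dp
    rw [Finset.sum_congr rfl (fun i _ => h2 i), Finset.sum_boole, card_lt h]
    push_cast
    ring

theorem VA_one_zero {n k : ℕ} (hk : 1 ≤ k) (hn : 3 * k ≤ n) {i j : Fin n} (hij : i ≠ j) :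
    ∃ x ∈ VA n k, x i = 1 ∧ x j = 0 := by
  obtain ⟨σ, h1, h2⟩ := exists_perm (i' := (⟨0, by omega⟩ : Fin n)) (j' := ⟨2 * k, by omega⟩) hij (by
    intro h1
    have := congrArg Fin.val h1
    simp at this
    omega)
  refine ⟨fun l => stdA n k (σ l), VA_perm σ (stdA_mem (by omega)), ?_, ?_⟩
  · show stdA n k (σ i) = 1
    rw [h1]
    unfold stdA
    have : 0 < k := by omega
    simp [this]
  · show stdA n k (σ j) = 0
    rw [h2]
    unfold stdA
    have h3 : ¬ (2 * k < k) := by omega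
    simp [h3]

theorem genA {n k d ρ m r : ℕ} {S' : Set (Vec d)} (R : RowsA) (hk : 1 ≤ k) (hn : 3 * k ≤ n)
    (h62 : ¬(n = 6 ∧ k = 2)) (h : Tgt S' ρ m r) (ψ : gph (VA n k) ≃g gph S') :
    ∃ T : Fin n → Fin d → ℝ, (∀ u : Fin n → ℝ, ∑ i, u i = 0 →
      (∑ i, u i • T i) ⬝ᵥ (∑ i, u i • T i) = (ρ * m : ℝ) / (2 * k) * ∑ i, u i * u i) ∧
      ∀ i j, i ≠ j → ∃ a ∈ S', ∃ b ∈ S', T i - T j = cv (a - b) := by
  have hS := (VA_tgt (n := n) hk).sl R.csi
  have hS' := h.sl R.csi
  obtain ⟨_, o2, o3⟩ := R.oda n d (VA n k) S' ψ hS hS'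
  have hodd : ∀ x ∈ VA n k, up ψ (-x) = -up ψ x := by
    intro x hx
    obtain ⟨y, hy, hxy, g1, g2⟩ := row_AG hk hn hx
    exact o2 x hx y hy hxy g1 g2
  have hadd : AddOn (VA n k) (fun x => cv (up ψ x)) := by
    constructor
    · intro x hx
      show cv (up ψ (-x)) = -cv (up ψ x)
      rw [hodd x hx]
      funext i
      simp [cv]
    · intro x hx y hy hxy
      show cv (up ψ (x - y)) = cv (up ψ x) - cv (up ψ y)
      rw [o3 y hy x hx (hS.sub_comm hxy) (hodd y hy), cv_sub]
  obtain ⟨T, hT⟩ := R.aln n k (Fin d → ℝ) _ hk hn h62 hadd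
  refine ⟨T, R.asm n d k (ρ * m : ℝ) T hk hn (by
    intro x hx
    rw [← hT x hx, cv_dot, h.norm _ (up_mem ψ hx)]
    push_cast
    rfl), ?_⟩
  intro i j hij
  obtain ⟨x, hx, hi, hj⟩ := VA_one_zero hk hn hij
  have hsw := VA_swp i j hx
  refine ⟨up ψ x, up_mem ψ hx, up ψ (swp i j x), up_mem ψ hsw, ?_⟩
  have e1 : ∀ l, ((x l : ℝ) • T l - ((swp i j x) l : ℝ) • T l) =
      (if l = i then T i else 0) - (if l = j then T j else 0) := by
    intro l
    unfold swp
    by_cases h1 : l = i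
    · subst h1
      rw [Equiv.swap_apply_left, hi, hj, if_pos rfl, if_neg hij]
      simp
    · by_cases h2 : l = j
      · subst h2
        rw [Equiv.swap_apply_right, hi, hj, if_pos rfl, if_neg h1]
        simp
      · rw [Equiv.swap_apply_of_ne_of_ne h1 h2, if_neg h1, if_neg h2]
        simp
  rw [cv_sub, hT x hx, hT _ hsw, ← Finset.sum_sub_distrib, Finset.sum_congr rfl (fun l _ => e1 l),
    Finset.sum_sub_distrib, Finset.sum_ite_eq', Finset.sum_ite_eq', if_pos (mem_univ _),
    if_pos (mem_univ _)]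

theorem sum_pair_smul {n d : ℕ} (T : Fin n → Fin d → ℝ) {i j : Fin n} (hij : i ≠ j) :
    ∑ l, ((if l = i then (1 : ℝ) else 0) - (if l = j then 1 else 0)) • T l = T i - T j := by
  have : ∀ l, ((if l = i then (1 : ℝ) else 0) - (if l = j then 1 else 0)) • T l =
      (if l = i then T i else 0) - (if l = j then T j else 0) := by
    intro l
    by_cases h1 : l = i
    · subst h1
      rw [if_pos rfl, if_neg hij, if_pos rfl, if_neg hij]
      simp
    · by_cases h2 : l = j
      · subst h2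
        simp [h1]
      · simp [h1, h2]
  rw [Finset.sum_congr rfl (fun l _ => this l), Finset.sum_sub_distrib, Finset.sum_ite_eq',
    Finset.sum_ite_eq', if_pos (mem_univ _), if_pos (mem_univ _)]

theorem genA_out {n k d ρ m r : ℕ} {S' : Set (Vec d)} (R : RowsA) (hk : 1 ≤ k) (hn : 3 * k ≤ n)
    (h62 : ¬(n = 6 ∧ k = 2)) (h : Tgt S' ρ m r) (ψ : gph (VA n k) ≃g gph S') :
    k ∣ m ∧ n - 1 ≤ r := by
  obtain ⟨T, hT, hd⟩ := genA R hk hn h62 h ψ
  obtain ⟨W, hW, hr⟩ := h.rank
  have hkr : (0 : ℝ) < k := by exact_mod_cast hk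
  constructor
  · have h01 : (⟨0, by omega⟩ : Fin n) ≠ ⟨1, by omega⟩ := by
      intro h1
      have := congrArg Fin.val h1
      simp at this
    obtain ⟨a, ha, b, hb, hab⟩ := hd _ _ h01
    have h1 := dvd_of_norm h hk ha hb (e := 1) (by
      rw [← hab, ← sum_pair_smul T h01, hT _ (by
        rw [Finset.sum_sub_distrib, Finset.sum_ite_eq', Finset.sum_ite_eq', if_pos (mem_univ _),
          if_pos (mem_univ _), sub_self])]
      have h2 : ∀ l : Fin n, ((if l = (⟨0, by omega⟩ : Fin n) then (1 : ℝ) else 0) -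
          (if l = (⟨1, by omega⟩ : Fin n) then 1 else 0)) *
          ((if l = (⟨0, by omega⟩ : Fin n) then (1 : ℝ) else 0) -
          (if l = (⟨1, by omega⟩ : Fin n) then 1 else 0)) =
          (if l = (⟨0, by omega⟩ : Fin n) then (1 : ℝ) else 0) +
          (if l = (⟨1, by omega⟩ : Fin n) then 1 else 0) := by
        intro l
        by_cases h3 : l = (⟨0, by omega⟩ : Fin n)
        · have h4 : ¬ l = (⟨1, by omega⟩ : Fin n) := fun h => h01 (h3 ▸ h)
          simp only [if_pos h3, if_neg h4]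
          norm_num
        · by_cases h4 : l = (⟨1, by omega⟩ : Fin n)
          · simp only [if_neg h3, if_pos h4]
            norm_num
          · simp only [if_neg h3, if_neg h4]
            norm_num
      rw [Finset.sum_congr rfl (fun l _ => h2 l), Finset.sum_add_distrib, Finset.sum_ite_eq',
        Finset.sum_ite_eq', if_pos (mem_univ _), if_pos (mem_univ _)]
      push_cast
      field_simp
      ring)
    rwa [mul_one] at h1
  · obtain ⟨N, rfl⟩ : ∃ N, n = N + 1 := ⟨n - 1, by omega⟩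
    rw [Nat.add_sub_cancel]
    have hmem : ∀ i : Fin N, T i.succ - T 0 ∈ W := by
      intro i
      obtain ⟨a, ha, b, hb, hab⟩ := hd i.succ 0 (Fin.succ_ne_zero i)
      rw [hab]
      exact cv_mem_span (hW a ha) (hW b hb)
    have hli : LinearIndependent ℝ (fun i : Fin N => (⟨T i.succ - T 0, hmem i⟩ : W)) := by
      rw [Fintype.linearIndependent_iff]
      intro g hg i
      have h1 : ∑ i, g i • (T i.succ - T 0) = 0 := by
        have h2 := congrArg (Submodule.subtype W) hg
        rw [map_sum] at h2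
        simpa using h2
      have hu : ∑ l, (Fin.cons (-∑ i, g i) g : Fin (N + 1) → ℝ) l = 0 := by
        rw [Fin.sum_univ_succ]
        simp
      have h2 := hT _ hu
      have h3 : ∑ l, (Fin.cons (-∑ i, g i) g : Fin (N + 1) → ℝ) l • T l = 0 := by
        rw [Fin.sum_univ_succ]
        simp only [Fin.cons_zero, Fin.cons_succ]
        rw [← h1, neg_smul, Finset.sum_smul]
        simp only [smul_sub, Finset.sum_sub_distrib]
        abel
      rw [h3, zero_dotProduct] at h2
      have hc : (0 : ℝ) < (ρ * m : ℝ) / (2 * k) := OutD.pos (n := N) hk h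
      have h4 : ∑ l, (Fin.cons (-∑ i, g i) g : Fin (N + 1) → ℝ) l *
          (Fin.cons (-∑ i, g i) g : Fin (N + 1) → ℝ) l = 0 := by
        rcases mul_eq_zero.1 h2.symm with h5 | h5
        · exact absurd h5 hc.ne'
        · exact h5
      have h5 := (Finset.sum_eq_zero_iff_of_nonneg fun i _ => mul_self_nonneg _).1 h4 i.succ
        (Finset.mem_univ _)
      rw [Fin.cons_succ] at h5
      exact mul_self_eq_zero.1 h5
    have := hli.fintype_card_le_finrank
    rw [Fintype.card_fin] at this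
    exact this.trans hr

/-- orthonormal vectors with half integral coordinates and sum zero in `ℝ^{n+1}` -/
theorem no_half {n : ℕ} (U : Fin n → Fin (n + 1) → ℝ) (n1 : ∀ i, U i ⬝ᵥ U i = 1)
    (n2 : ∀ i j, i ≠ j → U i ⬝ᵥ U j = 0) (hs : ∀ i, ∑ p, U i p = 0)
    (hh : ∀ i, ∃ c : Vec (n + 1), (2 : ℝ) • U i = cv c) : n ≤ 3 := by
  classical
  have hn1 : (0 : ℝ) < (n : ℝ) + 1 := by positivity
  have hsq : √((n : ℝ) + 1) * √((n : ℝ) + 1) = n + 1 := Real.mul_self_sqrt hn1.le
  have hs0 : √((n : ℝ) + 1) ≠ 0 := (Real.sqrt_pos.2 hn1).ne'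
  set M : Matrix (Option (Fin n)) (Fin (n + 1)) ℝ :=
    fun o p => match o with
      | none => (√((n : ℝ) + 1))⁻¹
      | some i => U i p with hM
  have hMM : M * M.transpose = 1 := by
    ext a b
    rw [Matrix.mul_apply]
    rcases a with _ | i <;> rcases b with _ | j
    · rw [Matrix.one_apply_eq]
      show ∑ _p : Fin (n + 1), (√((n : ℝ) + 1))⁻¹ * (√((n : ℝ) + 1))⁻¹ = 1
      rw [Finset.sum_const, Finset.card_univ, Fintype.card_fin, nsmul_eq_mul, ← mul_inv, hsq]
      push_cast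
      field_simp
    · rw [Matrix.one_apply_ne (by simp)]
      show ∑ p, (√((n : ℝ) + 1))⁻¹ * U j p = 0
      rw [← Finset.mul_sum, hs, mul_zero]
    · rw [Matrix.one_apply_ne (by simp)]
      show ∑ p, U i p * (√((n : ℝ) + 1))⁻¹ = 0
      rw [← Finset.sum_mul, hs, zero_mul]
    · show ∑ p, U i p * U j p = _
      by_cases hij : i = j
      · subst hij
        rw [Matrix.one_apply_eq]
        exact n1 i
      · rw [Matrix.one_apply_ne (by simpa using hij)]
        exact n2 i j hij
  have hMM' : M.transpose * M = 1 :=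
    (Matrix.mul_eq_one_comm_of_card_eq (Option (Fin n)) (Fin (n + 1)) ℝ (by simp)).1 hMM
  have h0 := congrFun (congrFun hMM' 0) 0
  rw [Matrix.mul_apply, Matrix.one_apply_eq, Fintype.sum_option] at h0
  have h1 : (√((n : ℝ) + 1))⁻¹ * (√((n : ℝ) + 1))⁻¹ + ∑ i, U i 0 * U i 0 = 1 := h0
  rw [← mul_inv, hsq] at h1
  choose c hc using hh
  have h2 : ∀ i, U i 0 = (c i 0 : ℝ) / 2 := by
    intro i
    have h3 := congrFun (hc i) 0
    rw [Pi.smul_apply, smul_eq_mul] at h3
    unfold cv at h3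
    linarith
  have h3 : ∑ i, U i 0 * U i 0 = ((∑ i, c i 0 * c i 0 : ℤ) : ℝ) / 4 := by
    push_cast
    rw [Finset.sum_div]
    refine Finset.sum_congr rfl fun i _ => ?_
    rw [h2 i]
    ring
  rw [h3] at h1
  have h4 : ((n : ℝ) + 1) * ((∑ i, c i 0 * c i 0 : ℤ) : ℝ) = 4 * n := by
    field_simp at h1
    linarith
  have h5 : ((n : ℤ) + 1) * (∑ i, c i 0 * c i 0) = 4 * n := by exact_mod_cast h4
  have h6 : ((n : ℤ) + 1) ∣ 4 := by
    refine ⟨4 - ∑ i, c i 0 * c i 0, ?_⟩
    linarith
  have h7 := Int.le_of_dvd (by norm_num) h6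
  omega

end Pool.Agent.SOL
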