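import Pool.Agent.helper20.SOL.AD4

/-!
# Project sol: the comparison of the pairs of types A and D
-/

set_option autoImplicit false

namespace Pool.Agent.SOL

open Finset

open scoped BigOperators

/-- sign alignment -/
theorem align {n t s : ℕ} {x : Vec n} (hx : x ∈ TD n t s) (v : Vec n) :
    (fun j => if v j < 0 then -|x j| else |x j|) ∈ TD n t s := by
  have h : ∀ j, |(if v j < 0 then -|x j| else |x j|)| = |x j| := by
    intro j
    split_ifs
    · rw [abs_neg, abs_abs]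
    · rw [abs_abs]
  refine ⟨fun i => ?_, ?_, ?_⟩
  · show |(if v i < 0 then -|x i| else |x i|)| ≤ 2
    rw [h]; exact hx.1 i
  · rw [← hx.2.1]
    unfold cnt
    congr 1
    ext j
    simp only [mem_filter, mem_univ, true_and]
    rw [h]
  · rw [← hx.2.2]
    unfold cnt
    congr 1
    ext j
    simp only [mem_filter, mem_univ, true_and]
    rw [h]

theorem align_mul (a v : ℤ) : (if v < 0 then -|a| else |a|) * v = |a| * |v| := by
  split_ifs with h
  · rw [abs_of_neg h]; ring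
  · rw [abs_of_nonneg (not_lt.1 h)]

theorem l1_of_TD {n t s : ℕ} {x : Vec n} (hx : x ∈ TD n t s) : ∑ i, |x i| = 2 * t + s := by
  have h1 : ∀ i, |x i| = 2 * (if |x i| = 2 then 1 else 0) + (if |x i| = 1 then 1 else 0) := by
    intro i
    have h2 := hx.1 i
    have h3 := abs_nonneg (x i)
    have h4 : |x i| = 0 ∨ |x i| = 1 ∨ |x i| = 2 := by omega
    rcases h4 with h | h | h <;> rw [h] <;> norm_num
  rw [Finset.sum_congr rfl (fun i _ => h1 i), Finset.sum_add_distrib, ← Finset.mul_sum,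
    Finset.sum_boole, Finset.sum_boole]
  have e1 := hx.2.1
  have e2 := hx.2.2
  unfold cnt at e1 e2
  rw [e1, e2]

/-- a target with even entries of absolute value at most `2` is impossible in the generic case -/
theorem spec_gen {n' m n k : ℕ} (R : RowsD) (hm : 2 ≤ m) (hn' : 4 ≤ n') (hk : 0 < k)
    (hev : ∀ x ∈ VD n k, ∀ p, x p % 2 = 0) {T : Fin n' → Fin n → ℝ}
    (h : OutD n' m (VD n k) 2 k T) : False := by
  have hm0 : (0 : ℝ) < m := by exact_mod_cast (by omega : 0 < m)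
  have hk0 : (0 : ℝ) < k := by exact_mod_cast hk
  -- half differences
  have hd : ∀ i j, i ≠ j → ∃ u : Vec n, T i - T j = cv u + cv u := by
    intro i j hij
    obtain ⟨a, ha, b, hb, hab⟩ := h.sub i j hij
    refine ⟨fun p => (a p - b p) / 2, ?_⟩
    rw [hab]
    funext p
    have h1 := hev a ha p
    have h2 := hev b hb p
    have h3 : a p - b p = (a p - b p) / 2 + (a p - b p) / 2 := by omega
    show (((a - b) p : ℤ) : ℝ) = (((a p - b p) / 2 : ℤ) : ℝ) + (((a p - b p) / 2 : ℤ) : ℝ)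
    rw [Pi.sub_apply]
    exact_mod_cast h3
  have ha : ∀ i j, i ≠ j → ∃ u : Vec n, T i + T j = cv u + cv u := by
    intro i j hij
    obtain ⟨a, ha, b, hb, hab⟩ := h.add i j hij
    refine ⟨fun p => (a p - b p) / 2, ?_⟩
    rw [hab]
    funext p
    have h1 := hev a ha p
    have h2 := hev b hb p
    have h3 : a p - b p = (a p - b p) / 2 + (a p - b p) / 2 := by omega
    show (((a - b) p : ℤ) : ℝ) = (((a p - b p) / 2 : ℤ) : ℝ) + (((a p - b p) / 2 : ℤ) : ℝ)
    rw [Pi.sub_apply]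
    exact_mod_cast h3
  have hint : ∀ i, ∃ c : Vec n, T i = cv c := by
    intro i
    obtain ⟨j, hij⟩ := exists_ne_fin (by omega : 2 ≤ n') i
    obtain ⟨u, hu⟩ := hd i j hij
    obtain ⟨w, hw⟩ := ha i j hij
    refine ⟨u + w, ?_⟩
    funext p
    have h1 := congrFun hu p
    have h2 := congrFun hw p
    simp only [Pi.sub_apply, Pi.add_apply] at h1 h2
    show T i p = (((u + w) p : ℤ) : ℝ)
    rw [Pi.add_apply]
    unfold cv at h1 h2
    push_cast
    linarith
  choose c hc using hint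
  have hpar : ∀ i j p, c i p % 2 = c j p % 2 := by
    intro i j p
    by_cases hij : i = j
    · rw [hij]
    · obtain ⟨u, hu⟩ := hd i j hij
      have h1 := congrFun hu p
      rw [hc i, hc j] at h1
      simp only [Pi.sub_apply, Pi.add_apply] at h1
      unfold cv at h1
      have h2 : c i p - c j p = u p + u p := by exact_mod_cast h1
      omega
  -- a nonzero coordinate
  have hne : ∃ i p, c i p ≠ 0 := by
    by_contra hall
    push Not at hall
    have h1 := h.norm ⟨0, by omega⟩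
    rw [hc] at h1
    have h2 : cv (c ⟨0, by omega⟩) = 0 := by
      funext p
      show ((c ⟨0, by omega⟩ p : ℤ) : ℝ) = 0
      rw [hall]
      simp
    rw [h2, zero_dotProduct] at h1
    have h3 : (0 : ℝ) < (((2 : ℕ) : ℝ) * k) / (2 * m) := by positivity
    exact absurd h1 h3.ne
  obtain ⟨i0, p, hip⟩ := hne
  -- the value at p of an image
  have himg : ∀ {t s : ℕ}, (∀ x ∈ TD n' t s, ∃ a ∈ VD n k, ∑ i, (x i : ℝ) • T i = cv a) →
      ∀ x ∈ TD n' t s, ∑ i, |x i| * |c i p| ≤ 2 := by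
    intro t s hts x hx
    obtain ⟨a, haV, hax⟩ := hts _ (align hx (fun i => c i p))
    have h1 := congrFun hax p
    rw [Finset.sum_apply] at h1
    have h2 : ∀ i, (((if c i p < 0 then -|x i| else |x i| : ℤ) : ℝ) • T i) p =
        ((|x i| * |c i p| : ℤ) : ℝ) := by
      intro i
      rw [Pi.smul_apply, hc i, smul_eq_mul, ← align_mul (x i) (c i p)]
      unfold cv
      push_cast
      rfl
    have h3 : ∑ i, ((|x i| * |c i p| : ℤ) : ℝ) = (a p : ℝ) := by
      rw [← Finset.sum_congr rfl (fun i _ => h2 i)]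
      exact h1
    have h4 : ∑ i, |x i| * |c i p| = a p := by exact_mod_cast h3
    rw [h4]
    exact (le_abs_self _).trans (haV.1 p)
  by_cases hodd : c i0 p % 2 = 0
  · obtain ⟨t, s, ht, hts, hT⟩ := h.two hm
    -- an element with entry 2 at i0
    have hex : ∃ x ∈ TD n' t s, x i0 = 2 := by
      refine ⟨fun l => std n' t s (Equiv.swap i0 ⟨0, by omega⟩ l), TD_perm _ (std_mem hts), ?_⟩
      show std n' t s (Equiv.swap i0 ⟨0, by omega⟩ i0) = 2
      rw [Equiv.swap_apply_left]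
      unfold std
      have h0 : 0 < t := ht
      simp only [h0, if_true]
    obtain ⟨x, hx, hx0⟩ := hex
    have h1 := himg hT x hx
    have h2 : |x i0| * |c i0 p| ≤ ∑ i, |x i| * |c i p| :=
      Finset.single_le_sum (f := fun i => |x i| * |c i p|)
        (fun i _ => mul_nonneg (abs_nonneg _) (abs_nonneg _)) (mem_univ i0)
    rw [hx0] at h2
    have h3 : 2 ≤ |c i0 p| := by
      have h4 : |c i0 p| ≠ 0 := abs_ne_zero.2 hip
      have h5 := abs_nonneg (c i0 p)
      rcases abs_choice (c i0 p) with h6 | h6 <;> rw [h6] at h4 h5 ⊢ <;> omega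
    have h4 : |(2 : ℤ)| = 2 := by norm_num
    rw [h4] at h2
    linarith
  · obtain ⟨t, s, ht, hts, hT⟩ := h.lone hm
    have h1 := himg hT _ (std_mem hts)
    have h2 : ∀ i, 1 ≤ |c i p| := by
      intro i
      have h3 := hpar i i0 p
      have h4 : c i p ≠ 0 := by
        intro h5
        rw [h5] at h3
        omega
      exact Int.one_le_abs h4
    have h3 : ∑ i, |std n' t s i| ≤ ∑ i, |std n' t s i| * |c i p| := by
      apply Finset.sum_le_sum
      intro i _
      have := h2 i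
      have h5 := abs_nonneg (std n' t s i)
      nlinarith
    rw [l1_of_TD (std_mem hts)] at h3
    have h6 : (3 : ℤ) ≤ 2 * (t : ℤ) + s := by exact_mod_cast ht
    linarith

theorem VD_even {n k : ℕ} (R : RowsD) (hnk : n ≤ k + 1) {x : Vec n} (hk : k % 4 = 0)
    (hx : x ∈ VD n k) (p : Fin n) : x p % 2 = 0 := by
  obtain ⟨h1, h2, h3⟩ := (R.cnt.2.1 n k x).1 hx
  have h4 : cnt x 1 = 0 := by omega
  unfold cnt at h4
  rw [Finset.card_eq_zero, Finset.filter_eq_empty_iff] at h4
  have h5 := h4 (mem_univ p)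
  have h6 := h1 p
  have h7 : |x p| = 0 ∨ |x p| = 2 := by
    have := abs_nonneg (x p)
    omega
  rcases h7 with h | h
  · rw [abs_eq_zero.1 h]
    rfl
  · rcases abs_choice (x p) with h8 | h8 <;> rw [h8] at h <;> omega

/-- the special pairs of type D, `k ≥ 8` -/
def SpcD (n k : ℕ) : Prop := k % 4 = 0 ∧ 8 ≤ k ∧ k ≤ n ∧ n ≤ k + 1

/-- the generic pairs of type A (`VA n k` is `A_{n-1}`) -/
def GenA (n k : ℕ) : Prop := 1 ≤ k ∧ 3 * k ≤ n ∧ ¬(n = 6 ∧ k = 2)

theorem iso_symm {n n' : ℕ} {S : Set (Vec n)} {S' : Set (Vec n')}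
    (h : Nonempty (gph S ≃g gph S')) : Nonempty (gph S' ≃g gph S) := h.map fun e => e.symm

theorem pair_DD {n k n' k' : ℕ} (R : RowsD) (h : GenD n k) (h' : GenD n' k')
    (hi : Nonempty (gph (VD n k) ≃g gph (VD n' k'))) : n = n' ∧ k = k' := by
  obtain ⟨ψ⟩ := hi
  have hk : 0 < k := by rcases h.2 with h | h | h | h <;> omega
  have hk' : 0 < k' := by rcases h'.2 with h | h | h | h <;> omega
  obtain ⟨d1, r1, _⟩ := genD_out R h (VD_tgt (n := n') hk') ψ
  obtain ⟨d2, r2, _⟩ := genD_out R h' (VD_tgt (n := n) hk) ψ.symm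
  exact ⟨le_antisymm r1 r2, Nat.dvd_antisymm d1 d2⟩

theorem pair_AA {n k n' k' : ℕ} (R : RowsA) (h : GenA n k) (h' : GenA n' k')
    (hi : Nonempty (gph (VA n k) ≃g gph (VA n' k'))) : n = n' ∧ k = k' := by
  obtain ⟨ψ⟩ := hi
  obtain ⟨d1, r1⟩ := genA_out R h.1 h.2.1 h.2.2 (VA_tgt (n := n') h'.1) ψ
  obtain ⟨d2, r2⟩ := genA_out R h'.1 h'.2.1 h'.2.2 (VA_tgt (n := n) h.1) ψ.symm
  have := h.1
  have := h.2.1
  have := h'.1
  have := h'.2.1
  exact ⟨by omega, Nat.dvd_antisymm d1 d2⟩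

theorem pair_DA {n k n' k' : ℕ} (RD : RowsD) (RA : RowsA) (h : GenD n k) (h' : GenA n' k')
    (hi : Nonempty (gph (VD n k) ≃g gph (VA n' k'))) : False := by
  obtain ⟨ψ⟩ := hi
  have hk : 0 < k := by rcases h.2 with h | h | h | h <;> omega
  obtain ⟨d1, r1, T, hT⟩ := genD_out RD h (VA_tgt (n := n') h'.1) ψ
  obtain ⟨d2, r2⟩ := genA_out RA h'.1 h'.2.1 h'.2.2 (VD_tgt (n := n) hk) ψ.symm
  have hkk := Nat.dvd_antisymm d1 d2
  subst hkk
  have h4 := h.1
  obtain rfl : n' = n + 1 := by omega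
  have hkr : (0 : ℝ) < k := by exact_mod_cast hk
  have := no_half T (fun i => by rw [hT.norm i]; push_cast; field_simp) hT.orth (fun i => by
      have h1 := hT.mem (by omega) (W := hyp (n + 1))
        (fun x hx => by rw [mem_hyp, sum_cv, hx.2.1, Int.cast_zero]) i
      exact mem_hyp.1 h1) (fun i => by
      obtain ⟨a, _, b, _, a', _, b', _, h1⟩ := hT.two_T (by omega) i
      exact ⟨_, h1⟩)
  omega

theorem pair_SD {n k n' k' : ℕ} (R : RowsD) (h : SpcD n k) (h' : GenD n' k')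
    (hi : Nonempty (gph (VD n k) ≃g gph (VD n' k'))) : False := by
  obtain ⟨ψ⟩ := hi
  obtain ⟨h4, h8, hkn, hnk⟩ := h
  have hk : 0 < k := by omega
  have hk' : 0 < k' := by rcases h'.2 with h | h | h | h <;> omega
  obtain ⟨d1, r1, _⟩ := specD_out R h4 hk (by omega) hkn hnk (VD_tgt (n := n') hk') ψ
  obtain ⟨d2, r2, T, hT⟩ := genD_out R h' (VD_tgt (n := n) hk) ψ.symm
  rcases Nat.lt_or_ge 1 k' with hk1 | hk1
  · exact spec_gen R (by omega) h'.1 hk (fun x hx p => VD_even R hnk h4 hx p) hT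
  · have h1 : k' = 1 := by omega
    subst h1
    have := Nat.le_of_dvd (by norm_num) d1
    omega

theorem pair_SA {n k n' k' : ℕ} (RD : RowsD) (RA : RowsA) (h : SpcD n k) (h' : GenA n' k')
    (hi : Nonempty (gph (VD n k) ≃g gph (VA n' k'))) : False := by
  obtain ⟨ψ⟩ := hi
  obtain ⟨h4, h8, hkn, hnk⟩ := h
  have hk : 0 < k := by omega
  obtain ⟨d1, r1, T, n1, n2, s1, s2⟩ :=
    specD_out RD h4 hk (by omega) hkn hnk (VA_tgt (n := n') h'.1) ψ
  obtain ⟨d2, r2⟩ := genA_out RA h'.1 h'.2.1 h'.2.2 (VD_tgt (n := n) hk) ψ.symm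
  have h1 := h'.1
  have h3 := h'.2.1
  obtain rfl : n' = n + 1 := by omega
  -- k = 4 k'
  obtain ⟨a, rfl⟩ := d2
  have ha : a ∣ 4 := Nat.dvd_of_mul_dvd_mul_left (by omega) d1
  have ha' : a ≤ 4 := Nat.le_of_dvd (by norm_num) ha
  have ha4 : a = 4 := by
    interval_cases a
    · omega
    · omega
    · omega
    · omega
    · rfl
  subst ha4
  have hkr : (0 : ℝ) < k' := by exact_mod_cast h1
  have hW : ∀ i, T i ∈ hyp (n + 1) := by
    intro i
    obtain ⟨j, hij⟩ := exists_ne_fin (by omega : 2 ≤ n) i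
    obtain ⟨a, ha, b, hb, hab⟩ := s1 i j hij
    obtain ⟨a', ha', b', hb', hab'⟩ := s2 i j hij
    have hm : ∀ x ∈ VA (n + 1) k', cv x ∈ hyp (n + 1) :=
      fun x hx => by rw [mem_hyp, sum_cv, hx.2.1, Int.cast_zero]
    have e1 : (4 : ℝ) • T i = cv (a - b) + cv (a' - b') := by
      rw [← hab, ← hab', ← smul_add]
      have : T i - T j + (T i + T j) = (2 : ℝ) • T i := by
        rw [two_smul]; abel
      rw [this, smul_smul]
      norm_num
    have e2 : (4 : ℝ) • T i ∈ hyp (n + 1) := by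
      rw [e1]
      exact (hyp (n + 1)).add_mem (cv_mem_span (hm a ha) (hm b hb))
        (cv_mem_span (hm a' ha') (hm b' hb'))
    have e3 := (hyp (n + 1)).smul_mem (1 / 4 : ℝ) e2
    rw [smul_smul] at e3
    norm_num at e3
    exact e3
  have := no_half (fun i => (2 : ℝ) • T i) (fun i => by
      rw [smul_dotProduct, dotProduct_smul, n1 i, smul_eq_mul, smul_eq_mul]
      push_cast
      field_simp
      norm_num) (fun i j hij => by
      rw [smul_dotProduct, dotProduct_smul, n2 i j hij, smul_zero, smul_zero]) (fun i => by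
      have e1 := (hyp (n + 1)).smul_mem (2 : ℝ) (hW i)
      exact mem_hyp.1 e1) (fun i => by
      obtain ⟨j, hij⟩ := exists_ne_fin (by omega : 2 ≤ n) i
      obtain ⟨a, ha, b, hb, hab⟩ := s1 i j hij
      obtain ⟨a', ha', b', hb', hab'⟩ := s2 i j hij
      refine ⟨(a - b) + (a' - b'), ?_⟩
      have e1 : cv ((a - b) + (a' - b')) = cv (a - b) + cv (a' - b') := by
        funext p
        simp [cv]
      rw [e1, ← hab, ← hab', ← smul_add]
      congr 1
      rw [two_smul]
      abel)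
  omega

theorem pair_SS {n k n' k' : ℕ} (R : RowsD) (h : SpcD n k) (h' : SpcD n' k')
    (hi : Nonempty (gph (VD n k) ≃g gph (VD n' k'))) : n = n' ∧ k = k' := by
  obtain ⟨ψ⟩ := hi
  obtain ⟨a1, a2, a3, a4⟩ := h
  obtain ⟨b1, b2, b3, b4⟩ := h'
  obtain ⟨_, r1, _⟩ := specD_out R a1 (by omega) (by omega) a3 a4
    (VD_tgt (n := n') (by omega : 0 < k')) ψ
  obtain ⟨_, r2, _⟩ := specD_out R b1 (by omega) (by omega) b3 b4
    (VD_tgt (n := n) (by omega : 0 < k)) ψ.symm
  exact ⟨le_antisymm r1 r2, by omega⟩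

end Pool.Agent.SOL
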