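import Pool.Agent.helper20.SOL.SpecE

/-!
# Project sol (MP_cad530_co), block 3: numbers of vertices of `Γ(D_n, k)`, `Γ(A_{n-1}, k)` for small `n`,
and the coincidences of type E.
-/

set_option autoImplicit false

namespace Pool.Agent.SOL

open Pool.Agent.helper54.SOG Finset

open scoped BigOperators

/-- ROW `ND` (medium). The number of vertices of `Γ(D_n, k)`. `VD n k` is the disjoint union over `t` (with
`s = 2 k - 4 t ≥ 0`, `2 t + s ≤ n`) of the sets of vectors with `t` entries `±2` and `s` entries `±1`, whose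
number is `n! / (t! s! (n-t-s)!) * 2^(t+s)`. One way: prove by induction on `n` (`Fin.cons`) that the
number `w n m l` of `x : Fin n → ℤ` with `|x i| ≤ 2`, `dp x x = m`, `l1 x ≤ l` satisfies
`w (n+1) m l = w n m l + 2 w n (m-1) (l-1) + 2 w n (m-4) (l-2)` (terms with negative arguments are `0`),
`w 0 0 l = 1`, `w 0 m l = 0` for `m > 0`, and evaluate `w n (2k) n` with `decide`; for `n ≤ 5` also
`decide` over `Fin n → Fin 5`. -/
def ND_stmt : Prop :=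
  (VD 4 1).ncard = 24 ∧ (VD 4 3).ncard = 96 ∧
  (VD 5 1).ncard = 40 ∧ (VD 5 2).ncard = 90 ∧ (VD 5 3).ncard = 240 ∧
  (VD 6 1).ncard = 60 ∧ (VD 6 2).ncard = 252 ∧ (VD 6 3).ncard = 544 ∧ (VD 6 4).ncard = 1020 ∧
    (VD 6 5).ncard = 1440 ∧
  (VD 7 1).ncard = 84 ∧ (VD 7 2).ncard = 574 ∧ (VD 7 3).ncard = 1288 ∧ (VD 7 4).ncard = 3444 ∧
    (VD 7 5).ncard = 3360 ∧
  (VD 8 1).ncard = 112 ∧ (VD 8 2).ncard = 1136 ∧ (VD 8 3).ncard = 3136 ∧ (VD 8 4).ncard = 9328 ∧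
    (VD 8 5).ncard = 13888 ∧ (VD 8 6).ncard = 27328 ∧ (VD 8 7).ncard = 17920 ∧
    (VD 8 8).ncard = 1120

/-- ROW `NA` (short-medium). The number of vertices of `Γ(A_{n-1}, k)`: `n! / (k! k! (n-2k)!)`. One way:
the number `w n a b` of `x : Fin n → ℤ` with entries in `{0, 1, -1}`, `a` entries `1` and `b` entries `-1`
satisfies `w (n+1) a b = w n a b + w n (a-1) b + w n a (b-1)`. -/
def NA_stmt : Prop :=
  (VA 3 1).ncard = 6 ∧ (VA 4 1).ncard = 12 ∧ (VA 5 1).ncard = 20 ∧ (VA 6 1).ncard = 30 ∧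
  (VA 7 1).ncard = 42 ∧ (VA 8 1).ncard = 56 ∧ (VA 9 1).ncard = 72 ∧
  (VA 6 2).ncard = 90 ∧ (VA 7 2).ncard = 210 ∧ (VA 8 2).ncard = 420 ∧ (VA 9 2).ncard = 756 ∧
  (VA 9 3).ncard = 1680

/-- ROW `CO` (short-medium). The two coincidences of type E: doubling. `VE R8 8 = 2 XE8 2 = 2 (VE R8 2)`
(`ME8d`, `ME8a` and `ELB` (3)), so `x ↦ x + x` is a bijection `VE R8 2 → VE R8 8` preserving adjacency
(`x - y ∈ VE R8 2` iff `(x + x) - (y + y) ∈ VE R8 8`); the same for `VE R6 1 = R6` and `VE R6 4` (`ME6b`).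
Hypotheses: `hELB : ELB_stmt`, `hME8a : ME8a_stmt`, `hME8d : ME8d_stmt`, `hME6a : ME6a_stmt`,
`hME6b : ME6b_stmt`. -/
def CO_stmt : Prop :=
  Nonempty (gph (VE R8 2) ≃g gph (VE R8 8)) ∧ Nonempty (gph (VE R6 1) ≃g gph (VE R6 4))

/-- ROW `EN` (short-medium). The list of the vertex numbers of type E. `VE R8 k = XE8 k` for
`1 ≤ k ≤ 6` (`ME8a,b,c` and `ELB` (3)), so the numbers are those of `CE8`; the same for `VE R7 k`, `k ≤ 5`,
and `VE R6 k`, `k ≤ 3`. `|VE R7 6| ≤ 11592` as `VE R7 6 ⊆ XE7 6` (finite, `CE7`), `> 7560` by `LE76`;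
`|VE R8 7| > 60480` by `LE87`; `|VE R8 8| = |VE R8 2|`, `|VE R6 4| = |R6|` by `ME8d`, `ME6b` (doubling is
injective). Hypotheses in this order: `hELB hME8a hME8b hME8c hME8d hME7a hME7b hME7c hME6a hME6b hCE8
hCE7 hCE6 hLE87 hLE76` (each `: XX_stmt`). -/
def EN_stmt : Prop :=
  ((VE R8 1).ncard = 240 ∧ (VE R8 2).ncard = 2160 ∧ (VE R8 3).ncard = 6720 ∧
    (VE R8 4).ncard = 17520 ∧ (VE R8 5).ncard = 30240 ∧ (VE R8 6).ncard = 60480 ∧
    60480 < (VE R8 7).ncard ∧ (VE R8 8).ncard = 2160) ∧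
  ((VE R7 1).ncard = 126 ∧ (VE R7 2).ncard = 756 ∧ (VE R7 3).ncard = 2072 ∧
    (VE R7 4).ncard = 4158 ∧ (VE R7 5).ncard = 7560 ∧ 7560 < (VE R7 6).ncard ∧
    (VE R7 6).ncard ≤ 11592) ∧
  (VE R6 1).ncard = 72 ∧ (VE R6 2).ncard = 270 ∧ (VE R6 3).ncard = 720 ∧ (VE R6 4).ncard = 72

/-- ROW `TE` (short-medium). The targets of type E: `VE R8 k`, `VE R7 k`, `VE R6 k` are symmetric sets of
constant norm `8 k`, the norms of differences of elements are divisible by `8` (`ELB`), and they span a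
space of dimension at most `8, 7, 6`. (`Tgt` is defined in `SOL/AD1.lean`; here it is written out.) For
the rank use `W = ⊤`, `W = {u | u 6 + u 7 = 0}`, `W = {u | u 6 + u 7 = 0, u 5 = u 6}` (kernels of surjective
linear maps to `ℝ`, `ℝ × ℝ`, or strictly decreasing chain of submodules and `Submodule.finrank_lt_finrank_of_lt`).
Hypothesis: `hELB : ELB_stmt`. -/
def TE_stmt : Prop :=
  ∀ (P : Set (Vec 8)) (r k : ℕ), (P = R8 ∧ r = 8) ∨ (P = R7 ∧ r = 7) ∨ (P = R6 ∧ r = 6) →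
    (∀ x ∈ VE P k, -x ∈ VE P k) ∧ (∀ x ∈ VE P k, dp x x = 8 * k) ∧
    (∀ a ∈ VE P k, ∀ b ∈ VE P k, (8 : ℤ) ∣ dp (a - b) (a - b)) ∧
    ∃ W : Submodule ℝ (Fin 8 → ℝ), (∀ x ∈ VE P k, cv x ∈ W) ∧ Module.finrank ℝ W ≤ r

end Pool.Agent.SOL
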