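import Pool.Agent.helper20.SOL.AD5
import Pool.Agent.helper20.SOL.SpecN

/-!
# Project sol: the classification for the simply laced types, in terms of integer vectors
-/

set_option autoImplicit false

namespace Pool.Agent.SOL

open Finset

open scoped BigOperators

/-- the numerical rows -/
structure RowsN : Prop where
  nd : ND_stmt
  na : NA_stmt
  en : EN_stmt
  te : TE_stmt
  co : CO_stmt
  ned : NED_stmt
  emp : EMP_stmt
  me6b : ME6b_stmt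
  ne77 : NE77_stmt

/-- the simply laced types: `A n` is `A_{n-1}` (vectors of length `n`) -/
inductive ST : Type
  | A (n : ℕ)
  | D (n : ℕ)
  | E6
  | E7
  | E8
  deriving DecidableEq

/-- length of the vectors -/
def ST.d : ST → ℕ
  | .A n => n
  | .D n => n
  | .E6 => 8
  | .E7 => 8
  | .E8 => 8

/-- the vertex sets -/
def ST.V : (t : ST) → ℕ → Set (Vec t.d)
  | .A n, k => VA n k
  | .D n, k => VD n k
  | .E6, k => VE R6 k
  | .E7, k => VE R7 k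
  | .E8, k => VE R8 k

/-- rank bound for the target -/
def ST.rk : ST → ℕ
  | .A n => n - 1
  | .D n => n
  | .E6 => 6
  | .E7 => 7
  | .E8 => 8

/-- squared length of the roots -/
def ST.ρ : ST → ℕ
  | .A _ => 2
  | .D _ => 2
  | .E6 => 8
  | .E7 => 8
  | .E8 => 8

theorem tgtE (R : RowsN) {P : Set (Vec 8)} {r k : ℕ} (hk : 0 < k)
    (h : (P = R8 ∧ r = 8) ∨ (P = R7 ∧ r = 7) ∨ (P = R6 ∧ r = 6)) : Tgt (VE P k) 8 k r := by
  obtain ⟨h1, h2, h3, h4⟩ := R.te P r k h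
  exact ⟨hk, by norm_num, h1, fun x hx => by rw [h2 x hx]; norm_num,
    fun a ha b hb => by have := h3 a ha b hb; exact_mod_cast this, h4⟩

theorem ST.tgt (R : RowsN) (t : ST) {k : ℕ} (hk : 0 < k) : Tgt (t.V k) t.ρ k t.rk := by
  cases t with
  | A n => exact VA_tgt hk
  | D n => exact VD_tgt hk
  | E6 => exact tgtE R hk (Or.inr (Or.inr ⟨rfl, rfl⟩))
  | E7 => exact tgtE R hk (Or.inr (Or.inl ⟨rfl, rfl⟩))
  | E8 => exact tgtE R hk (Or.inl ⟨rfl, rfl⟩)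

theorem ncard_iso {n n' : ℕ} {S : Set (Vec n)} {S' : Set (Vec n')}
    (h : Nonempty (gph S ≃g gph S')) : S.ncard = S'.ncard := by
  obtain ⟨ψ⟩ := h
  have := Nat.card_congr ψ.toEquiv
  rwa [Nat.card_coe_set_eq, Nat.card_coe_set_eq] at this

/-- the normal pairs: representatives of the nontrivial isomorphism classes of graphs with an edge -/
def Nrm (t : ST) (k : ℕ) : Prop :=
  match t with
  | .A n => GenA n k ∨ (n = 6 ∧ k = 2)
  | .D n => GenD n k ∨ SpcD n k ∨ (n = 4 ∧ k = 3)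
  | .E6 => 1 ≤ k ∧ k ≤ 3
  | .E7 => 1 ≤ k ∧ k ≤ 6
  | .E8 => 1 ≤ k ∧ k ≤ 7

/-- generic type D against small targets -/
theorem D_numbers {n k r : ℕ} (R : RowsN) (h : GenD n k) (hn : n ≤ r) (hr : r ≤ 8) :
    (VD n k).ncard ∈ ([24, 40, 90, 240, 60, 252, 544, 1020, 1440, 84, 574, 1288, 3444, 3360, 112,
      1136, 3136, 9328, 13888, 27328, 17920] : List ℕ) ∧ ((VD n k).ncard = 9328 → n = 8) ∧
      ((VD n k).ncard = 240 → k = 3) := by
  obtain ⟨h4, hc⟩ := h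
  obtain ⟨a1, a2, a3, a4, a5, a6, a7, a8, a9, a10, a11, a12, a13, a14, a15, a16, a17, a18, a19,
    a20, a21, a22, a23⟩ := R.nd
  have hn8 : n ≤ 8 := hn.trans hr
  have hk8 : k ≤ 7 := by rcases hc with h | h | h | h <;> omega
  interval_cases n <;> interval_cases k <;>
    first
      | (exfalso; omega)
      | simp [*]

theorem A_numbers {n k : ℕ} (R : RowsN) (h : GenA n k) (h3 : n ≤ 9) :
    (VA n k).ncard ∈ ([6, 12, 20, 30, 42, 56, 72, 210, 420, 756, 1680] : List ℕ) ∧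
      ((VA n k).ncard = 72 → n = 9) ∧ ((VA n k).ncard = 756 → n = 9) := by
  obtain ⟨h1, hc, h62⟩ := h
  obtain ⟨a1, a2, a3, a4, a5, a6, a7, a8, a9, a10, a11, a12⟩ := R.na
  have hk : k ≤ 3 := by omega
  have hn3 : 3 ≤ n := by omega
  interval_cases n <;> interval_cases k <;>
    first
      | (exfalso; omega)
      | simp [*]

/-- the numbers of type E in the normal range -/
def ENum (t : ST) (k N : ℕ) : Prop :=
  match t with
  | .E6 => (k = 1 ∧ N = 72) ∨ (k = 2 ∧ N = 270) ∨ (k = 3 ∧ N = 720)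
  | .E7 => (k = 1 ∧ N = 126) ∨ (k = 2 ∧ N = 756) ∨ (k = 3 ∧ N = 2072) ∨ (k = 4 ∧ N = 4158) ∨
      (k = 5 ∧ N = 7560) ∨ (k = 6 ∧ 7560 < N ∧ N ≤ 11592)
  | .E8 => (k = 1 ∧ N = 240) ∨ (k = 2 ∧ N = 2160) ∨ (k = 3 ∧ N = 6720) ∨ (k = 4 ∧ N = 17520) ∨
      (k = 5 ∧ N = 30240) ∨ (k = 6 ∧ N = 60480) ∨ (k = 7 ∧ 60480 < N)
  | _ => False

theorem E_numbers (R : RowsN) {t : ST} {k : ℕ} (ht : t = .E6 ∨ t = .E7 ∨ t = .E8)
    (h : Nrm t k) : ENum t k (t.V k).ncard := by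
  obtain ⟨⟨a1, a2, a3, a4, a5, a6, a7, a8⟩, ⟨b1, b2, b3, b4, b5, b6, b7⟩, c1, c2, c3, c4⟩ := R.en
  rcases ht with rfl | rfl | rfl
  · obtain ⟨h1, h2⟩ := h
    interval_cases k
    · exact Or.inl ⟨rfl, c1⟩
    · exact Or.inr (Or.inl ⟨rfl, c2⟩)
    · exact Or.inr (Or.inr ⟨rfl, c3⟩)
  · obtain ⟨h1, h2⟩ := h
    interval_cases k
    · exact Or.inl ⟨rfl, b1⟩
    · exact Or.inr (Or.inl ⟨rfl, b2⟩)
    · exact Or.inr (Or.inr (Or.inl ⟨rfl, b3⟩))
    · exact Or.inr (Or.inr (Or.inr (Or.inl ⟨rfl, b4⟩)))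
    · exact Or.inr (Or.inr (Or.inr (Or.inr (Or.inl ⟨rfl, b5⟩))))
    · exact Or.inr (Or.inr (Or.inr (Or.inr (Or.inr ⟨rfl, b6, b7⟩))))
  · obtain ⟨h1, h2⟩ := h
    interval_cases k
    · exact Or.inl ⟨rfl, a1⟩
    · exact Or.inr (Or.inl ⟨rfl, a2⟩)
    · exact Or.inr (Or.inr (Or.inl ⟨rfl, a3⟩))
    · exact Or.inr (Or.inr (Or.inr (Or.inl ⟨rfl, a4⟩)))
    · exact Or.inr (Or.inr (Or.inr (Or.inr (Or.inl ⟨rfl, a5⟩))))
    · exact Or.inr (Or.inr (Or.inr (Or.inr (Or.inr (Or.inl ⟨rfl, a6⟩)))))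
    · exact Or.inr (Or.inr (Or.inr (Or.inr (Or.inr (Or.inr ⟨rfl, a7⟩)))))

end Pool.Agent.SOL
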