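import Pool.Agent.helper20.SOL.AD6

/-!
# Project sol: normal pairs with isomorphic graphs are equal
-/

set_option autoImplicit false

namespace Pool.Agent.SOL

open Finset

open scoped BigOperators

/-- isomorphic graphs -/
def Iso {n n' : ℕ} (S : Set (Vec n)) (S' : Set (Vec n')) : Prop := Nonempty (gph S ≃g gph S')

theorem Iso.symm {n n' : ℕ} {S : Set (Vec n)} {S' : Set (Vec n')} (h : Iso S S') : Iso S' S :=
  Nonempty.map (fun e => e.symm) h

theorem Iso.trans {n n' n'' : ℕ} {S : Set (Vec n)} {S' : Set (Vec n')} {S'' : Set (Vec n'')}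
    (h : Iso S S') (h' : Iso S' S'') : Iso S S'' := by
  obtain ⟨e⟩ := h
  obtain ⟨e'⟩ := h'
  exact ⟨e.trans e'⟩

theorem Iso.ncard {n n' : ℕ} {S : Set (Vec n)} {S' : Set (Vec n')} (h : Iso S S') :
    S.ncard = S'.ncard := ncard_iso h

theorem GenD.pos {n k : ℕ} (h : GenD n k) : 0 < k := by
  rcases h.2 with h | h | h | h <;> omega

theorem GenD.any {n k d ρ m r : ℕ} {S' : Set (Vec d)} (R : RowsD) (hg : GenD n k)
    (h : Tgt S' ρ m r) (hi : Iso (VD n k) S') : k ∣ m ∧ n ≤ r := by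
  obtain ⟨ψ⟩ := hi
  obtain ⟨h1, h2, _⟩ := genD_out R hg h ψ
  exact ⟨h1, h2⟩

theorem GenA.any {n k d ρ m r : ℕ} {S' : Set (Vec d)} (R : RowsA) (hg : GenA n k)
    (h : Tgt S' ρ m r) (hi : Iso (VA n k) S') : k ∣ m ∧ n - 1 ≤ r := by
  obtain ⟨ψ⟩ := hi
  exact genA_out R hg.1 hg.2.1 hg.2.2 h ψ

theorem SpcD.any {n k d ρ m r : ℕ} {S' : Set (Vec d)} (R : RowsD) (hg : SpcD n k)
    (h : Tgt S' ρ m r) (hi : Iso (VD n k) S') : n ≤ r := by
  obtain ⟨ψ⟩ := hi
  obtain ⟨h4, h8, hkn, hnk⟩ := hg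
  exact (specD_out R h4 (by omega) (by omega) hkn hnk h ψ).2.1

/-- generic type D against `A_n` with the same `k` -/
theorem pair_DA' {n k : ℕ} (RD : RowsD) (h : GenD n k) (hi : Iso (VD n k) (VA (n + 1) k)) :
    False := by
  obtain ⟨ψ⟩ := hi
  have hk := h.pos
  obtain ⟨d1, r1, T, hT⟩ := genD_out RD h (VA_tgt (n := n + 1) hk) ψ
  have h4 := h.1
  have hkr : (0 : ℝ) < k := by exact_mod_cast hk
  have := no_half T (fun i => by rw [hT.norm i]; push_cast; field_simp) hT.orth (fun i => by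
      have h1 := hT.mem (by omega) (W := hyp (n + 1))
        (fun x hx => by rw [mem_hyp, sum_cv, hx.2.1, Int.cast_zero]) i
      exact mem_hyp.1 h1) (fun i => by
      obtain ⟨a, _, b, _, a', _, b', _, h1⟩ := hT.two_T (by omega) i
      exact ⟨_, h1⟩)
  omega

/-- generic type A against `A_5, k = 2` -/
theorem pair_A62 {n k : ℕ} (RA : RowsA) (R : RowsN) (h : GenA n k) (hi : Iso (VA n k) (VA 6 2)) :
    False := by
  obtain ⟨h1, h2⟩ := h.any RA (VA_tgt (n := 6) (by norm_num)) hi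
  have h3 := Nat.le_of_dvd (by norm_num) h1
  obtain ⟨g1, g2, g3⟩ := h
  have hn := hi.ncard
  obtain ⟨a1, a2, a3, a4, a5, a6, a7, a8, a9, a10, a11, a12⟩ := R.na
  rw [a8] at hn
  have hn6 : n ≤ 6 := by omega
  have hk1 : k = 1 := by omega
  subst hk1
  have hn3 : 3 ≤ n := by omega
  interval_cases n <;> omega

theorem pair_D62 {n k : ℕ} (RD : RowsD) (R : RowsN) (h : GenD n k) (hi : Iso (VD n k) (VA 6 2)) :
    False := by
  obtain ⟨h1, h2⟩ := h.any RD (VA_tgt (n := 6) (by norm_num)) hi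
  have h3 := Nat.le_of_dvd (by norm_num) h1
  have hk := h.pos
  have hn := hi.ncard
  obtain ⟨a1, a2, a3, a4, a5, a6, a7, a8, a9, a10, a11, a12⟩ := R.na
  rw [a8] at hn
  obtain ⟨b1, b2, b3, b4, b5, b6⟩ := R.nd
  have h4 := h.1
  have h5 := h.2
  have hcases : (n = 4 ∧ k = 1) ∨ (n = 5 ∧ k = 1) ∨ (n = 5 ∧ k = 2) := by omega
  rcases hcases with ⟨rfl, rfl⟩ | ⟨rfl, rfl⟩ | ⟨rfl, rfl⟩
  · omega
  · omega
  · exact pair_DA' RD h hi

theorem pair_A43 {n k : ℕ} (RA : RowsA) (R : RowsN) (h : GenA n k) (hi : Iso (VA n k) (VD 4 3)) :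
    False := by
  obtain ⟨h1, h2⟩ := h.any RA (VD_tgt (n := 4) (by norm_num)) hi
  obtain ⟨g1, g2, g3⟩ := h
  have hn := hi.ncard
  obtain ⟨a1, a2, a3, a4, a5, a6, a7, a8, a9, a10, a11, a12⟩ := R.na
  obtain ⟨b1, b2, b3, b4, b5, b6⟩ := R.nd
  rw [b2] at hn
  have hk1 : k = 1 := by omega
  subst hk1
  have hn3 : 3 ≤ n := by omega
  have hn5 : n ≤ 5 := by omega
  interval_cases n <;> omega

theorem pair_D43 {n k : ℕ} (RD : RowsD) (R : RowsN) (h : GenD n k) (hi : Iso (VD n k) (VD 4 3)) :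
    False := by
  obtain ⟨h1, h2⟩ := h.any RD (VD_tgt (n := 4) (by norm_num)) hi
  have h3 := Nat.le_of_dvd (by norm_num) h1
  have hk := h.pos
  have hn := hi.ncard
  obtain ⟨b1, b2, b3, b4, b5, b6⟩ := R.nd
  rw [b2] at hn
  have h4 := h.1
  have h5 := h.2
  have hcases : n = 4 ∧ k = 1 := by omega
  obtain ⟨rfl, rfl⟩ := hcases
  omega

theorem ENum.cases {t : ST} {k N : ℕ} (h : ENum t k N) :
    ((t = .E6 ∧ N ∈ ([72, 270, 720] : List ℕ)) ∨
      (t = .E7 ∧ (N ∈ ([126, 756, 2072, 4158, 7560] : List ℕ) ∨ (7560 < N ∧ N ≤ 11592))) ∨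
      (t = .E8 ∧ ((k = 1 ∧ N = 240) ∨ N ∈ ([2160, 6720, 17520, 30240, 60480] : List ℕ) ∨
        60480 < N))) := by
  cases t with
  | A n => exact h.elim
  | D n => exact h.elim
  | E6 =>
    left
    refine ⟨rfl, ?_⟩
    rcases h with ⟨_, rfl⟩ | ⟨_, rfl⟩ | ⟨_, rfl⟩ <;> simp
  | E7 =>
    right; left
    refine ⟨rfl, ?_⟩
    rcases h with ⟨_, rfl⟩ | ⟨_, rfl⟩ | ⟨_, rfl⟩ | ⟨_, rfl⟩ | ⟨_, rfl⟩ | ⟨_, h1, h2⟩
    · simp
    · simp
    · simp
    · simp
    · simp
    · exact Or.inr ⟨h1, h2⟩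
  | E8 =>
    right; right
    refine ⟨rfl, ?_⟩
    rcases h with ⟨h1, rfl⟩ | ⟨_, rfl⟩ | ⟨_, rfl⟩ | ⟨_, rfl⟩ | ⟨_, rfl⟩ | ⟨_, rfl⟩ | ⟨_, h1⟩
    · exact Or.inl ⟨h1, rfl⟩
    · simp
    · simp
    · simp
    · simp
    · simp
    · exact Or.inr (Or.inr h1)

/-- type E against a set with `N` vertices -/
theorem E_not {t : ST} {k N : ℕ} (h : ENum t k N) (h1 : N ≤ 28000)
    (h2 : N ∈ ([90, 96, 1120, 24, 40, 60, 252, 544, 1020, 1440, 84, 574, 1288, 3444, 3360, 112,
      1136, 3136, 13888, 27328, 6, 12, 20, 30, 42, 56, 210, 420, 1680] : List ℕ)) : False := by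
  simp only [List.mem_cons, List.not_mem_nil, or_false] at h2
  rcases h.cases with ⟨_, h3⟩ | ⟨_, h3⟩ | ⟨_, h3⟩
  · simp only [List.mem_cons, List.not_mem_nil, or_false] at h3
    omega
  · simp only [List.mem_cons, List.not_mem_nil, or_false] at h3
    omega
  · simp only [List.mem_cons, List.not_mem_nil, or_false] at h3
    omega

theorem EE_num {t t' : ST} {k k' N : ℕ} (h : ENum t k N) (h' : ENum t' k' N) : t = t' ∧ k = k' := by
  cases t <;> cases t' <;> first | exact h.elim | exact h'.elim | skip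
  all_goals
    unfold ENum at h h'
    simp only at h h'
    first
      | (refine ⟨rfl, ?_⟩; omega)
      | (exfalso; omega)

/-- type E against generic type D -/
theorem pair_DE {n k k' : ℕ} {t : ST} (RD : RowsD) (R : RowsN) (h : GenD n k)
    (ht : t = .E6 ∨ t = .E7 ∨ t = .E8) (h' : Nrm t k') (hi : Iso (VD n k) (t.V k')) : False := by
  have hE := E_numbers R ht h'
  have hk' : 0 < k' := by rcases ht with rfl | rfl | rfl <;> exact h'.1
  obtain ⟨d1, r1⟩ := h.any RD (ST.tgt R t hk') hi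
  have hr8 : t.rk ≤ 8 := by rcases ht with rfl | rfl | rfl <;> norm_num [ST.rk]
  obtain ⟨m1, m2, m3⟩ := D_numbers R h r1 hr8
  have hn := hi.ncard
  rw [← hn] at hE
  by_cases h28 : (VD n k).ncard ∈ ([9328, 240, 17920] : List ℕ)
  · simp only [List.mem_cons, List.not_mem_nil, or_false] at h28
    rcases h28 with h28 | h28 | h28
    · have hn8 := m2 h28
      rcases hE.cases with ⟨rfl, h3⟩ | ⟨rfl, h3⟩ | ⟨rfl, h3⟩
      · rw [hn8] at r1; norm_num [ST.rk] at r1
      · rw [hn8] at r1; norm_num [ST.rk] at r1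
      · simp only [List.mem_cons, List.not_mem_nil, or_false] at h3
        omega
    · have hk3 := m3 h28
      rcases hE.cases with ⟨rfl, h3⟩ | ⟨rfl, h3⟩ | ⟨rfl, h3⟩
      · simp only [List.mem_cons, List.not_mem_nil, or_false] at h3
        omega
      · simp only [List.mem_cons, List.not_mem_nil, or_false] at h3
        omega
      · simp only [List.mem_cons, List.not_mem_nil, or_false] at h3
        rcases h3 with ⟨h3, _⟩ | h3 | h3
        · rw [h3, hk3] at d1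
          have := Nat.le_of_dvd (by norm_num) d1
          omega
        · omega
        · omega
    · rcases hE.cases with ⟨rfl, h3⟩ | ⟨rfl, h3⟩ | ⟨rfl, h3⟩ <;>
        simp only [List.mem_cons, List.not_mem_nil, or_false] at h3 <;> omega
  · simp only [List.mem_cons, List.not_mem_nil, or_false] at m1 h28
    apply E_not hE
    · omega
    · simp only [List.mem_cons, List.not_mem_nil, or_false]
      omega

theorem pair_AE {n k k' : ℕ} {t : ST} (RA : RowsA) (R : RowsN) (h : GenA n k)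
    (ht : t = .E6 ∨ t = .E7 ∨ t = .E8) (h' : Nrm t k') (hi : Iso (VA n k) (t.V k')) : False := by
  have hE := E_numbers R ht h'
  have hk' : 0 < k' := by rcases ht with rfl | rfl | rfl <;> exact h'.1
  obtain ⟨d1, r1⟩ := h.any RA (ST.tgt R t hk') hi
  have hr8 : t.rk ≤ 8 := by rcases ht with rfl | rfl | rfl <;> norm_num [ST.rk]
  obtain ⟨m1, m2, m3⟩ := A_numbers R h (by omega)
  have hn := hi.ncard
  rw [← hn] at hE
  by_cases h28 : (VA n k).ncard ∈ ([72, 756] : List ℕ)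
  · simp only [List.mem_cons, List.not_mem_nil, or_false] at h28
    have hn9 : n = 9 := by
      rcases h28 with h28 | h28
      · exact m2 h28
      · exact m3 h28
    rcases hE.cases with ⟨rfl, h3⟩ | ⟨rfl, h3⟩ | ⟨rfl, h3⟩
    · rw [hn9] at r1; norm_num [ST.rk] at r1
    · rw [hn9] at r1; norm_num [ST.rk] at r1
    · simp only [List.mem_cons, List.not_mem_nil, or_false] at h3
      omega
  · simp only [List.mem_cons, List.not_mem_nil, or_false] at m1 h28
    apply E_not hE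
    · omega
    · simp only [List.mem_cons, List.not_mem_nil, or_false]
      omega

theorem pair_SE {n k k' : ℕ} {t : ST} (RD : RowsD) (R : RowsN) (h : SpcD n k)
    (ht : t = .E6 ∨ t = .E7 ∨ t = .E8) (h' : Nrm t k') (hi : Iso (VD n k) (t.V k')) : False := by
  have hE := E_numbers R ht h'
  have hk' : 0 < k' := by rcases ht with rfl | rfl | rfl <;> exact h'.1
  have r1 := h.any RD (ST.tgt R t hk') hi
  have hr8 : t.rk ≤ 8 := by rcases ht with rfl | rfl | rfl <;> norm_num [ST.rk]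
  obtain ⟨h4, h8, hkn, hnk⟩ := h
  obtain rfl : n = 8 := by omega
  obtain rfl : k = 8 := by omega
  obtain ⟨a1, a2, a3, a4, a5, a6, a7, a8, a9, a10, a11, a12, a13, a14, a15, a16, a17, a18, a19,
    a20, a21, a22, a23⟩ := R.nd
  have hn := hi.ncard
  rw [← hn, a23] at hE
  exact E_not hE (by norm_num) (by simp)

theorem pair_XE {k' : ℕ} {t : ST} (R : RowsN) (ht : t = .E6 ∨ t = .E7 ∨ t = .E8)
    (h' : Nrm t k') (hi : Iso (VA 6 2) (t.V k')) : False := by
  have hE := E_numbers R ht h'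
  obtain ⟨a1, a2, a3, a4, a5, a6, a7, a8, a9, a10, a11, a12⟩ := R.na
  have hn := hi.ncard
  rw [← hn, a8] at hE
  exact E_not hE (by norm_num) (by simp)

theorem pair_YE {k' : ℕ} {t : ST} (R : RowsN) (ht : t = .E6 ∨ t = .E7 ∨ t = .E8)
    (h' : Nrm t k') (hi : Iso (VD 4 3) (t.V k')) : False := by
  have hE := E_numbers R ht h'
  obtain ⟨b1, b2, b3, b4, b5, b6⟩ := R.nd
  have hn := hi.ncard
  rw [← hn, b2] at hE
  exact E_not hE (by norm_num) (by simp)

theorem pair_XY (R : RowsN) (hi : Iso (VA 6 2) (VD 4 3)) : False := by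
  obtain ⟨a1, a2, a3, a4, a5, a6, a7, a8, a9, a10, a11, a12⟩ := R.na
  obtain ⟨b1, b2, b3, b4, b5, b6⟩ := R.nd
  have hn := hi.ncard
  rw [a8, b2] at hn
  omega

theorem pair_EE {t t' : ST} {k k' : ℕ} (R : RowsN) (ht : t = .E6 ∨ t = .E7 ∨ t = .E8)
    (ht' : t' = .E6 ∨ t' = .E7 ∨ t' = .E8) (h : Nrm t k) (h' : Nrm t' k')
    (hi : Iso (t.V k) (t'.V k')) : t = t' ∧ k = k' := by
  have hE := E_numbers R ht h
  have hE' := E_numbers R ht' h'
  rw [← hi.ncard] at hE'
  exact EE_num hE hE'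

/-- type A against type D -/
theorem pair_AD {n k n' k' : ℕ} (RD : RowsD) (RA : RowsA) (R : RowsN) (h : Nrm (.A n) k)
    (h' : Nrm (.D n') k') (hi : Iso (VA n k) (VD n' k')) : False := by
  rcases h with h | ⟨rfl, rfl⟩ <;> rcases h' with h' | h' | ⟨rfl, rfl⟩
  · exact pair_DA RD RA h' h hi.symm
  · exact pair_SA RD RA h' h hi.symm
  · exact pair_A43 RA R h hi
  · exact pair_D62 RD R h' hi.symm
  · have h1 := h'.any RD (VA_tgt (n := 6) (by norm_num)) hi.symm
    obtain ⟨_, h8, hkn, _⟩ := h'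
    omega
  · exact pair_XY R hi

/-- normal pairs with isomorphic graphs are equal -/
theorem nrm_inj {t t' : ST} {k k' : ℕ} (RD : RowsD) (RA : RowsA) (R : RowsN) (h : Nrm t k)
    (h' : Nrm t' k') (hi : Iso (t.V k) (t'.V k')) : t = t' ∧ k = k' := by
  have e6 : ∀ {t : ST}, t = .E6 → t = .E6 ∨ t = .E7 ∨ t = .E8 := fun h => Or.inl h
  have e7 : ∀ {t : ST}, t = .E7 → t = .E6 ∨ t = .E7 ∨ t = .E8 := fun h => Or.inr (Or.inl h)
  have e8 : ∀ {t : ST}, t = .E8 → t = .E6 ∨ t = .E7 ∨ t = .E8 := fun h => Or.inr (Or.inr h)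
  have hAE : ∀ {n k : ℕ} {t : ST} {k' : ℕ}, (t = .E6 ∨ t = .E7 ∨ t = .E8) → Nrm (.A n) k →
      Nrm t k' → Iso (VA n k) (t.V k') → False := by
    intro n k t k' ht h h' hi
    rcases h with h | ⟨rfl, rfl⟩
    · exact pair_AE RA R h ht h' hi
    · exact pair_XE R ht h' hi
  have hDE : ∀ {n k : ℕ} {t : ST} {k' : ℕ}, (t = .E6 ∨ t = .E7 ∨ t = .E8) → Nrm (.D n) k →
      Nrm t k' → Iso (VD n k) (t.V k') → False := by
    intro n k t k' ht h h' hi
    rcases h with h | h | ⟨rfl, rfl⟩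
    · exact pair_DE RD R h ht h' hi
    · exact pair_SE RD R h ht h' hi
    · exact pair_YE R ht h' hi
  cases t with
  | A n =>
    cases t' with
    | A n' =>
      rcases h with h | ⟨rfl, rfl⟩ <;> rcases h' with h' | ⟨rfl, rfl⟩
      · obtain ⟨rfl, rfl⟩ := pair_AA RA h h' hi
        exact ⟨rfl, rfl⟩
      · exact (pair_A62 RA R h hi).elim
      · exact (pair_A62 RA R h' hi.symm).elim
      · exact ⟨rfl, rfl⟩
    | D n' => exact (pair_AD RD RA R h h' hi).elim
    | E6 => exact (hAE (e6 rfl) h h' hi).elim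
    | E7 => exact (hAE (e7 rfl) h h' hi).elim
    | E8 => exact (hAE (e8 rfl) h h' hi).elim
  | D n =>
    cases t' with
    | A n' => exact (pair_AD RD RA R h' h hi.symm).elim
    | D n' =>
      rcases h with h | h | ⟨rfl, rfl⟩ <;> rcases h' with h' | h' | ⟨rfl, rfl⟩
      · obtain ⟨rfl, rfl⟩ := pair_DD RD h h' hi
        exact ⟨rfl, rfl⟩
      · exact (pair_SD RD h' h hi.symm).elim
      · exact (pair_D43 RD R h hi).elim
      · exact (pair_SD RD h h' hi).elim
      · obtain ⟨rfl, rfl⟩ := pair_SS RD h h' hi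
        exact ⟨rfl, rfl⟩
      · have h1 := h.any RD (VD_tgt (n := 4) (by norm_num)) hi
        obtain ⟨_, h8, hkn, _⟩ := h
        omega
      · exact (pair_D43 RD R h' hi.symm).elim
      · have h1 := h'.any RD (VD_tgt (n := 4) (by norm_num)) hi.symm
        obtain ⟨_, h8, hkn, _⟩ := h'
        omega
      · exact ⟨rfl, rfl⟩
    | E6 => exact (hDE (e6 rfl) h h' hi).elim
    | E7 => exact (hDE (e7 rfl) h h' hi).elim
    | E8 => exact (hDE (e8 rfl) h h' hi).elim
  | E6 =>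
    cases t' with
    | A n' => exact (hAE (e6 rfl) h' h hi.symm).elim
    | D n' => exact (hDE (e6 rfl) h' h hi.symm).elim
    | E6 => exact pair_EE R (e6 rfl) (e6 rfl) h h' hi
    | E7 => exact pair_EE R (e6 rfl) (e7 rfl) h h' hi
    | E8 => exact pair_EE R (e6 rfl) (e8 rfl) h h' hi
  | E7 =>
    cases t' with
    | A n' => exact (hAE (e7 rfl) h' h hi.symm).elim
    | D n' => exact (hDE (e7 rfl) h' h hi.symm).elim
    | E6 => exact pair_EE R (e7 rfl) (e6 rfl) h h' hi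
    | E7 => exact pair_EE R (e7 rfl) (e7 rfl) h h' hi
    | E8 => exact pair_EE R (e7 rfl) (e8 rfl) h h' hi
  | E8 =>
    cases t' with
    | A n' => exact (hAE (e8 rfl) h' h hi.symm).elim
    | D n' => exact (hDE (e8 rfl) h' h hi.symm).elim
    | E6 => exact pair_EE R (e8 rfl) (e6 rfl) h h' hi
    | E7 => exact pair_EE R (e8 rfl) (e7 rfl) h h' hi
    | E8 => exact pair_EE R (e8 rfl) (e8 rfl) h h' hi

end Pool.Agent.SOL
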