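import Pool.Agent.helper20.SOL.AD7

/-!
# Project sol: the classification for the simply laced types
-/

set_option autoImplicit false

namespace Pool.Agent.SOL

open Pool.Agent.helper54.SOG Finset

open scoped BigOperators

/-- graphs of images -/
theorem gph_image {A A' : Type*} [AddCommGroup A] [AddCommGroup A'] (f : A →+ A')
    (hf : Function.Injective f) (S : Set A) : Nonempty (gph S ≃g gph (f '' S)) := by
  have hm : ∀ x : A, f x ∈ f '' S ↔ x ∈ S := fun x => hf.mem_set_image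
  let e : S ≃ (f '' S : Set A') := Equiv.Set.image f S hf
  refine ⟨⟨e, ?_⟩⟩
  intro v w
  have he : ∀ v : S, ((e v : (f '' S : Set A')) : A') = f v := fun v => rfl
  unfold gph
  rw [SimpleGraph.fromRel_adj, SimpleGraph.fromRel_adj, he, he, ← map_sub, ← map_sub, hm, hm]
  constructor
  · rintro ⟨h1, h2⟩
    exact ⟨fun h => h1 (by rw [h]), h2⟩
  · rintro ⟨h1, h2⟩
    exact ⟨fun h => h1 (e.injective h), h2⟩

/-- the map `cv` as a homomorphism -/
def cvH (n : ℕ) : Vec n →+ (Fin n → ℝ) where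
  toFun := cv
  map_zero' := by funext i; simp [cv]
  map_add' x y := by funext i; simp [cv]

/-- halving, as a homomorphism -/
noncomputable def hvH : Vec 8 →+ (Fin 8 → ℝ) where
  toFun x := fun i => (x i : ℝ) / 2
  map_zero' := by funext i; simp
  map_add' x y := by funext i; simp [add_div]

theorem cvH_inj (n : ℕ) : Function.Injective (cvH n) := fun _ _ h => cv_inj h

theorem hvH_inj : Function.Injective hvH := by
  intro x y h
  funext i
  have h1 : (x i : ℝ) / 2 = (y i : ℝ) / 2 := congrFun h i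
  have h2 : (x i : ℝ) = y i := by linarith
  exact_mod_cast h2

/-- the root system `E_8` in `ℝ^8`: the vectors of norm `2` with all coordinates integral or all
half integral and even coordinate sum (the coordinates are `x_i / 2`) -/
def rootsE8 : Set (Fin 8 → ℝ) :=
  {v | ∃ x : Fin 8 → ℤ, (∀ i, v i = (x i : ℝ) / 2) ∧ (∀ i j, x i % 2 = x j % 2) ∧
    (∑ i, x i) % 4 = 0 ∧ ∑ i, x i * x i = 8}

/-- the root system `E_7`: the roots of `E_8` orthogonal to `e_7 + e_8` -/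
def rootsE7 : Set (Fin 8 → ℝ) := {v | v ∈ rootsE8 ∧ v 6 + v 7 = 0}

/-- the root system `E_6`: the roots of `E_8` orthogonal to `e_7 + e_8` and `e_6 - e_7` -/
def rootsE6 : Set (Fin 8 → ℝ) := {v | v ∈ rootsE8 ∧ v 6 + v 7 = 0 ∧ v 5 - v 6 = 0}

theorem rootsE8_eq : rootsE8 = hvH '' R8 := by
  ext v
  constructor
  · rintro ⟨x, h1, h2, h3, h4⟩
    refine ⟨x, ⟨⟨h2, h3⟩, ?_⟩, ?_⟩
    · unfold dp
      rw [h4]
      norm_num
    · funext i
      exact (h1 i).symm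
  · rintro ⟨x, ⟨⟨h2, h3⟩, h4⟩, rfl⟩
    refine ⟨x, fun i => rfl, h2, h3, ?_⟩
    unfold dp at h4
    rw [h4]
    norm_num

theorem rootsE7_eq : rootsE7 = hvH '' R7 := by
  ext v
  constructor
  · rintro ⟨hv, h5⟩
    rw [rootsE8_eq] at hv
    obtain ⟨x, ⟨h1, h2⟩, rfl⟩ := hv
    refine ⟨x, ⟨h1, ?_, h2⟩, rfl⟩
    have h6 : (x 6 : ℝ) / 2 + (x 7 : ℝ) / 2 = 0 := h5
    have h7 : (x 6 : ℝ) + x 7 = 0 := by linarith
    exact_mod_cast h7
  · rintro ⟨x, ⟨h1, h3, h2⟩, rfl⟩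
    refine ⟨by rw [rootsE8_eq]; exact ⟨x, ⟨h1, h2⟩, rfl⟩, ?_⟩
    show (x 6 : ℝ) / 2 + (x 7 : ℝ) / 2 = 0
    have h7 : (x 6 : ℝ) + x 7 = 0 := by exact_mod_cast h3
    linarith

theorem rootsE6_eq : rootsE6 = hvH '' R6 := by
  ext v
  constructor
  · rintro ⟨hv, h5, h6⟩
    rw [rootsE8_eq] at hv
    obtain ⟨x, ⟨h1, h2⟩, rfl⟩ := hv
    have h7 : (x 6 : ℝ) / 2 + (x 7 : ℝ) / 2 = 0 := h5
    have h8 : (x 5 : ℝ) / 2 - (x 6 : ℝ) / 2 = 0 := h6
    have h9 : (x 6 : ℝ) + x 7 = 0 := by linarith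
    have h10 : (x 5 : ℝ) = x 6 := by linarith
    exact ⟨x, ⟨h1, by exact_mod_cast h9, by exact_mod_cast h10, h2⟩, rfl⟩
  · rintro ⟨x, ⟨h1, h3, h4, h2⟩, rfl⟩
    refine ⟨by rw [rootsE8_eq]; exact ⟨x, ⟨h1, h2⟩, rfl⟩, ?_, ?_⟩
    · show (x 6 : ℝ) / 2 + (x 7 : ℝ) / 2 = 0
      have h7 : (x 6 : ℝ) + x 7 = 0 := by exact_mod_cast h3
      linarith
    · show (x 5 : ℝ) / 2 - (x 6 : ℝ) / 2 = 0
      rw [h4, sub_self]

/-- the root systems -/
def ST.R : (t : ST) → Set (Fin t.d → ℝ)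
  | .A n => rootsA n
  | .D n => rootsD n
  | .E6 => rootsE6
  | .E7 => rootsE7
  | .E8 => rootsE8

/-- the strongly orthogonal sum graph is the graph on integer vectors -/
theorem ST.graph (hVD : VD1_stmt) (hVA : VA1_stmt) (hSO : SOE_stmt) (t : ST) (k : ℕ) :
    Nonempty (sosGraph t.R k ≃g gph (t.V k)) := by
  cases t with
  | A n =>
    obtain ⟨e⟩ := gph_image (cvH n) (cvH_inj n) (VA n k)
    have h : (cvH n : Vec n → Fin n → ℝ) '' VA n k = sosSums (rootsA n) k := (hVA n k).symm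
    rw [h] at e
    exact ⟨e.symm⟩
  | D n =>
    obtain ⟨e⟩ := gph_image (cvH n) (cvH_inj n) (VD n k)
    have h : (cvH n : Vec n → Fin n → ℝ) '' VD n k = sosSums (rootsD n) k := (hVD n k).symm
    rw [h] at e
    exact ⟨e.symm⟩
  | E6 =>
    obtain ⟨e⟩ := graph_iso_image hvH hvH_inj R6 k
    rw [← rootsE6_eq, sosGraph_eq R6 k, (hSO k).2.2] at e
    exact ⟨e.symm⟩
  | E7 =>
    obtain ⟨e⟩ := graph_iso_image hvH hvH_inj R7 k
    rw [← rootsE7_eq, sosGraph_eq R7 k, (hSO k).2.1] at e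
    exact ⟨e.symm⟩
  | E8 =>
    obtain ⟨e⟩ := graph_iso_image hvH hvH_inj R8 k
    rw [← rootsE8_eq, sosGraph_eq R8 k, (hSO k).1] at e
    exact ⟨e.symm⟩

/-- admissible ranks -/
def ST.ok : ST → Prop
  | .A n => 2 ≤ n
  | .D n => 4 ≤ n
  | _ => True

/-- the normal form of a pair -/
def nf (t : ST) (k : ℕ) : ST × ℕ :=
  if t = .D 4 ∧ (k = 2 ∨ k = 4) then (.D 4, 1)
  else if t = .D 5 ∧ k = 4 then (.D 5, 1)
  else if t = .E6 ∧ k = 4 then (.E6, 1)
  else if t = .E8 ∧ k = 8 then (.E8, 2)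
  else (t, k)

theorem iso_of_sos {n k n' k' : ℕ} (hVD : VD1_stmt)
    (h : Nonempty (sosGraph (rootsD n) k ≃g sosGraph (rootsD n') k')) :
    Iso (VD n k) (VD n' k') := by
  obtain ⟨e⟩ := gph_image (cvH n) (cvH_inj n) (VD n k)
  have h1 : (cvH n : Vec n → Fin n → ℝ) '' VD n k = sosSums (rootsD n) k := (hVD n k).symm
  rw [h1] at e
  obtain ⟨e'⟩ := gph_image (cvH n') (cvH_inj n') (VD n' k')
  have h1' : (cvH n' : Vec n' → Fin n' → ℝ) '' VD n' k' = sosSums (rootsD n') k' :=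
    (hVD n' k').symm
  rw [h1'] at e'
  obtain ⟨g⟩ := h
  exact ⟨(e.trans g).trans e'.symm⟩

theorem iso_D41_D44 (hVD : VD1_stmt) : Iso (VD 4 1) (VD 4 4) :=
  iso_of_sos hVD (iso_D_one_four (l := 4) (by norm_num) (by norm_num))

theorem iso_D51_D54 (hVD : VD1_stmt) : Iso (VD 5 1) (VD 5 4) :=
  iso_of_sos hVD (iso_D_one_four (l := 5) (by norm_num) (by norm_num))

theorem iso_nf (hVD : VD1_stmt) (R : RowsN) (t : ST) (k : ℕ) :
    Iso (t.V k) ((nf t k).1.V (nf t k).2) := by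
  unfold nf
  by_cases h1 : t = .D 4 ∧ (k = 2 ∨ k = 4)
  · rw [if_pos h1]
    obtain ⟨rfl, rfl | rfl⟩ := h1
    · exact (iso_of_sos hVD iso_D4_one_two).symm
    · exact (iso_D41_D44 hVD).symm
  · rw [if_neg h1]
    by_cases h2 : t = .D 5 ∧ k = 4
    · rw [if_pos h2]
      obtain ⟨rfl, rfl⟩ := h2
      exact (iso_D51_D54 hVD).symm
    · rw [if_neg h2]
      by_cases h3 : t = .E6 ∧ k = 4
      · rw [if_pos h3]
        obtain ⟨rfl, rfl⟩ := h3
        exact Iso.symm R.co.2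
      · rw [if_neg h3]
        by_cases h4 : t = .E8 ∧ k = 8
        · rw [if_pos h4]
          obtain ⟨rfl, rfl⟩ := h4
          exact Iso.symm R.co.1
        · rw [if_neg h4]
          exact ⟨SimpleGraph.Iso.refl⟩

/-- the set has an edge -/
def HasE {n : ℕ} (S : Set (Vec n)) : Prop := ∃ x ∈ S, ∃ y ∈ S, x - y ∈ S

theorem nrm_of_edge (R : RowsN) {t : ST} (ht : t.ok) {k : ℕ} (hk : 0 < k) (he : HasE (t.V k)) :
    Nrm (nf t k).1 (nf t k).2 := by
  obtain ⟨x, hx, y, hy, hxy⟩ := he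
  cases t with
  | A n =>
    have h1 := R.ned.1 n k x y hk hx hy hxy
    unfold nf
    simp only [reduceCtorEq, false_and, if_false]
    by_cases h62 : n = 6 ∧ k = 2
    · exact Or.inr h62
    · exact Or.inl ⟨hk, h1, h62⟩
  | D n =>
    have h1 := R.ned.2 n k x y hk hx hy hxy
    have h4 : 4 ≤ n := ht
    unfold nf
    simp only [ST.D.injEq, reduceCtorEq, false_and, if_false]
    split_ifs with c1 c2
    · exact Or.inl ⟨by norm_num, by omega⟩
    · exact Or.inl ⟨by norm_num, by omega⟩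
    · show GenD n k ∨ SpcD n k ∨ (n = 4 ∧ k = 3)
      unfold GenD SpcD
      omega
  | E6 =>
    have h5 : ¬ 5 ≤ k := by
      intro h
      have h6 := R.me6b.2 k h
      have h7 : x ∈ VE R6 k := hx
      rw [h6] at h7
      exact h7
    unfold nf
    simp only [reduceCtorEq, false_and, if_false, true_and]
    split_ifs with c
    · exact ⟨by norm_num, by norm_num⟩
    · exact ⟨hk, by omega⟩
  | E7 =>
    have h5 : ¬ 8 ≤ k := by
      intro h
      have h6 := R.emp.2 k h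
      have h7 : x ∈ VE R7 k := hx
      rw [h6] at h7
      exact h7
    have h7 : k ≠ 7 := by
      rintro rfl
      exact R.ne77 x hx y hy hxy
    unfold nf
    simp only [reduceCtorEq, false_and, if_false]
    exact ⟨hk, by omega⟩
  | E8 =>
    have h5 : ¬ 9 ≤ k := by
      intro h
      have h6 := R.emp.1 k h
      have h7 : x ∈ VE R8 k := hx
      rw [h6] at h7
      exact h7
    unfold nf
    simp only [reduceCtorEq, false_and, if_false, true_and]
    split_ifs with c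
    · exact ⟨by norm_num, by norm_num⟩
    · exact ⟨hk, by omega⟩

theorem hasE_iff (R : RowsN) (hCSI : CSI_stmt) (t : ST) {k : ℕ} (hk : 0 < k) :
    HasE (t.V k) ↔ ∃ v w, (gph (t.V k)).Adj v w := by
  have hS := (ST.tgt R t hk).sl hCSI
  constructor
  · rintro ⟨x, hx, y, hy, hxy⟩
    exact ⟨⟨x, hx⟩, ⟨y, hy⟩, (hS.adj_iff _ _).2 hxy⟩
  · rintro ⟨v, w, h⟩
    exact ⟨v, v.2, w, w.2, (hS.adj_iff _ _).1 h⟩

/-- the classification for the simply laced types -/
theorem main_SL (RD : RowsD) (RA : RowsA) (R : RowsN) (hVD : VD1_stmt) (hVA : VA1_stmt)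
    (hSO : SOE_stmt) {t t' : ST} (ht : t.ok) (ht' : t'.ok) {k k' : ℕ} (hk : 0 < k) (hk' : 0 < k')
    (hedge : ∃ v w, (sosGraph t.R k).Adj v w) :
    Nonempty (sosGraph t.R k ≃g sosGraph t'.R k') ↔ nf t k = nf t' k' := by
  obtain ⟨e⟩ := ST.graph hVD hVA hSO t k
  obtain ⟨e'⟩ := ST.graph hVD hVA hSO t' k'
  have hE : ∃ v w, (gph (t.V k)).Adj v w := by
    obtain ⟨v, w, h⟩ := hedge
    exact ⟨e v, e w, e.map_adj_iff.2 h⟩
  constructor
  · rintro ⟨g⟩
    have hi : Iso (t.V k) (t'.V k') := ⟨(e.symm.trans g).trans e'⟩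
    have hE' : ∃ v w, (gph (t'.V k')).Adj v w := by
      obtain ⟨ψ⟩ := hi
      obtain ⟨v, w, h⟩ := hE
      exact ⟨ψ v, ψ w, ψ.map_adj_iff.2 h⟩
    have n1 := nrm_of_edge R ht hk ((hasE_iff R RD.csi t hk).2 hE)
    have n2 := nrm_of_edge R ht' hk' ((hasE_iff R RD.csi t' hk').2 hE')
    have h1 := nrm_inj RD RA R n1 n2 (((iso_nf hVD R t k).symm.trans hi).trans
      (iso_nf hVD R t' k'))
    exact Prod.ext h1.1 h1.2
  · intro h
    have h1 := iso_nf hVD R t k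
    rw [h] at h1
    obtain ⟨g⟩ := h1.trans (iso_nf hVD R t' k').symm
    exact ⟨(e.trans g).trans e'.symm⟩

end Pool.Agent.SOL
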