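import Pool.Agent.helper20.SOL.Full
import Pool.Agent.helper20.SOL.ALL

/-!
# Project sol: edges of the coincident graphs
-/

set_option autoImplicit false

namespace Pool.Agent.SOL

open Pool.Agent.helper54.SOG Finset

open scoped BigOperators

theorem edge_E6 : HasE (VE R6 1) := by
  have h : ∀ x : Vec 8, x ∈ XE6 1 → x ∈ VE R6 1 := fun x hx => rME6a 1 (by norm_num) (by norm_num) x hx
  refine ⟨![2, 2, 0, 0, 0, 0, 0, 0], h _ ?_, ![2, 0, 2, 0, 0, 0, 0, 0], h _ ?_, h _ ?_⟩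
  · exact ⟨⟨by decide, by decide⟩, by decide, by decide, by decide⟩
  · exact ⟨⟨by decide, by decide⟩, by decide, by decide, by decide⟩
  · exact ⟨⟨by decide, by decide⟩, by decide, by decide, by decide⟩

theorem edge_E8 : HasE (VE R8 2) := by
  have h : ∀ x : Vec 8, x ∈ XE8 2 → x ∈ VE R8 2 := fun x hx => rME8a 2 (by norm_num) (by norm_num) x hx
  refine ⟨![4, 0, 0, 0, 0, 0, 0, 0], h _ ?_, ![2, 2, 2, 2, 0, 0, 0, 0], h _ ?_, h _ ?_⟩
  · exact ⟨⟨by decide, by decide⟩, by decide⟩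
  · exact ⟨⟨by decide, by decide⟩, by decide⟩
  · exact ⟨⟨by decide, by decide⟩, by decide⟩

/-- edges in the real models, from integer models -/
theorem edge_real {t : ST} {k : ℕ} (hk : 0 < k) (h : HasE (t.V k)) :
    ∃ v w, (sosGraph t.R k).Adj v w := by
  obtain ⟨e⟩ := ST.graph VD1 VA1 SOE t k
  obtain ⟨v, w, hvw⟩ := (hasE_iff rowsN CSI t hk).1 h
  exact ⟨e.symm v, e.symm w, e.symm.map_adj_iff.2 hvw⟩

theorem edge_iso {τ τ' : Ty} {k m : ℕ} (h : ∃ v w, (sosGraph τ.R k).Adj v w)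
    (hi : Nonempty (sosGraph τ.R k ≃g sosGraph τ'.R m)) :
    ∃ v w, (sosGraph τ'.R m).Adj v w := by
  obtain ⟨e⟩ := hi
  obtain ⟨v, w, hvw⟩ := h
  exact ⟨e v, e w, e.map_adj_iff.2 hvw⟩

end Pool.Agent.SOL
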