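import Pool.Agent.helper1.SOL.NSL
import Pool.Agent.helper20.SOL.Edges

/-!
# Project sol: the classification for all irreducible root systems
-/

set_option autoImplicit false

namespace Pool.Agent.SOL

open Pool.Agent.helper54.SOG Finset

open scoped BigOperators

/-- normal forms -/
inductive NF : Type
  | S (p : ST × ℕ)
  | N (p : NT × ℕ)
  deriving DecidableEq

def NF.d : NF → ℕ
  | .S p => p.1.d
  | .N p => p.1.d

def NF.V : (x : NF) → Set (Vec x.d)
  | .S p => p.1.V p.2
  | .N p => p.1.V p.2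

def NF.nrm : NF → Prop
  | .S p => Nrm p.1 p.2
  | .N p => NrmN p.1 p.2

/-- the normal form of a pair -/
def nfT (τ : Ty) (k : ℕ) : NF :=
  match τ with
  | .A n => .S (nf (.A (n + 1)) k)
  | .B n => if n % 4 = 0 ∧ k = n then .S (nf (.D n) k) else .N (.B n, k)
  | .C n => .N (.C n, k)
  | .D n => .S (nf (.D n) k)
  | .E6 => .S (nf .E6 k)
  | .E7 => .S (nf .E7 k)
  | .E8 => .S (nf .E8 k)
  | .F4 => if k = 4 then .S (nf (.D 4) 1) else .N (.F, k)
  | .G2 => if k = 2 then .S (nf (.A 3) 1) else .N (.G, k)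

/-- isomorphic to a graph on integer vectors -/
def IsoR {n d : ℕ} (R : Set (Fin n → ℝ)) (k : ℕ) (S : Set (Vec d)) : Prop :=
  Nonempty (sosGraph R k ≃g gph S)

theorem IsoR.trans {n d d' : ℕ} {R : Set (Fin n → ℝ)} {k : ℕ} {S : Set (Vec d)}
    {S' : Set (Vec d')} (h : IsoR R k S) (h' : Iso S S') : IsoR R k S' := by
  obtain ⟨e⟩ := h
  obtain ⟨e'⟩ := h'
  exact ⟨e.trans e'⟩

theorem iso_nf' (t : ST) (k : ℕ) : Iso (t.V k) ((nf t k).1.V (nf t k).2) := iso_nf VD1 rowsN t k

theorem graph_S (t : ST) (k : ℕ) : IsoR t.R k ((nf t k).1.V (nf t k).2) :=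
  IsoR.trans (ST.graph VD1 VA1 SOE t k) (iso_nf' t k)

/-- the graph of a pair is the graph of its normal form -/
theorem graph_nfT (R : RowsM) (τ : Ty) (k : ℕ) : IsoR τ.R k (nfT τ k).V := by
  cases τ with
  | A n => exact graph_S (.A (n + 1)) k
  | B n =>
    by_cases h : n % 4 = 0 ∧ k = n
    · have h1 : nfT (.B n) k = .S (nf (.D n) k) := if_pos h
      rw [h1]
      obtain ⟨h2, rfl⟩ := h
      have h3 : IsoR (rootsB k) k (VB k k) := NT.graph R (.B k) k
      rw [VB_self R h2] at h3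
      exact IsoR.trans h3 (iso_nf' (.D k) k)
    · have h1 : nfT (.B n) k = .N (.B n, k) := if_neg h
      rw [h1]
      exact NT.graph R (.B n) k
  | C n => exact NT.graph R (.C n) k
  | D n => exact graph_S (.D n) k
  | E6 => exact graph_S .E6 k
  | E7 => exact graph_S .E7 k
  | E8 => exact graph_S .E8 k
  | F4 =>
    by_cases h : k = 4
    · have h1 : nfT .F4 k = .S (nf (.D 4) 1) := if_pos h
      rw [h1]
      subst h
      exact IsoR.trans (IsoR.trans (NT.graph R .F 4) (iso_F44 R)) (iso_nf' (.D 4) 1)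
    · have h1 : nfT .F4 k = .N (.F, k) := if_neg h
      rw [h1]
      exact NT.graph R .F k
  | G2 =>
    by_cases h : k = 2
    · have h1 : nfT .G2 k = .S (nf (.A 3) 1) := if_pos h
      rw [h1]
      subst h
      exact IsoR.trans (IsoR.trans (NT.graph R .G 2) (iso_G22 R)) (iso_nf' (.A 3) 1)
    · have h1 : nfT .G2 k = .N (.G, k) := if_neg h
      rw [h1]
      exact NT.graph R .G k

theorem hasE_of_adj' {d : ℕ} {S : Set (Vec d)} (h : ∃ v w, (gph S).Adj v w) : HasE S := by
  obtain ⟨v, w, h⟩ := h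
  unfold gph at h
  rw [SimpleGraph.fromRel_adj] at h
  obtain ⟨_, h1 | h1⟩ := h
  · exact ⟨v, v.2, w, w.2, h1⟩
  · exact ⟨w, w.2, v, v.2, h1⟩

theorem adj_of_IsoR {n d k : ℕ} {R : Set (Fin n → ℝ)} {S : Set (Vec d)} (h : IsoR R k S)
    (hedge : ∃ v w, (sosGraph R k).Adj v w) : HasE S := by
  obtain ⟨e⟩ := h
  obtain ⟨v, w, hvw⟩ := hedge
  exact hasE_of_adj' ⟨e v, e w, e.map_adj_iff.2 hvw⟩

theorem nrm_S {t : ST} {k : ℕ} (ht : t.ok) (hk : 0 < k)
    (h : ∃ v w, (sosGraph t.R k).Adj v w) : Nrm (nf t k).1 (nf t k).2 :=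
  nrm_of_edge rowsN ht hk (adj_of_IsoR (ST.graph VD1 VA1 SOE t k) h)

/-- a pair with an edge has a normal pair as normal form -/
theorem nrm_nfT (R : RowsM) {τ : Ty} {k : ℕ} (hok : τ.ok) (hk : 0 < k)
    (hedge : ∃ v w, (sosGraph τ.R k).Adj v w) : (nfT τ k).nrm := by
  cases τ with
  | A n => exact nrm_S (t := .A (n + 1)) (Nat.succ_le_succ hok) hk hedge
  | B n =>
    by_cases h : n % 4 = 0 ∧ k = n
    · have h1 : nfT (.B n) k = .S (nf (.D n) k) := if_pos h
      rw [h1]
      obtain ⟨h2, rfl⟩ := h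
      have h3 : IsoR (rootsB k) k (VB k k) := NT.graph R (.B k) k
      rw [VB_self R h2] at h3
      have h4 : HasE (VD k k) := adj_of_IsoR h3 hedge
      have h5 : 2 ≤ k := hok
      exact nrm_of_edge rowsN (t := .D k) (show 4 ≤ k by omega) hk h4
    · have h1 : nfT (.B n) k = .N (.B n, k) := if_neg h
      rw [h1]
      rcases nsl_norm_B R hok hk (adj_of_IsoR (NT.graph R (.B n) k) hedge) with h2 | h2
      · exact h2
      · exact absurd h2 h
  | C n => exact nsl_norm_C R hok hk (adj_of_IsoR (NT.graph R (.C n) k) hedge)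
  | D n => exact nrm_S (t := .D n) hok hk hedge
  | E6 => exact nrm_S (t := .E6) trivial hk hedge
  | E7 => exact nrm_S (t := .E7) trivial hk hedge
  | E8 => exact nrm_S (t := .E8) trivial hk hedge
  | F4 =>
    by_cases h : k = 4
    · have h1 : nfT .F4 k = .S (nf (.D 4) 1) := if_pos h
      rw [h1]
      subst h
      have h2 : ∃ v w, (gph (VD 4 1)).Adj v w := by
        obtain ⟨e⟩ := IsoR.trans (NT.graph R .F 4) (iso_F44 R)
        obtain ⟨v, w, hvw⟩ := hedge
        exact ⟨e v, e w, e.map_adj_iff.2 hvw⟩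
      exact nrm_of_edge rowsN (t := .D 4) (show 4 ≤ 4 by norm_num) (by norm_num) (hasE_of_adj' h2)
    · have h1 : nfT .F4 k = .N (.F, k) := if_neg h
      rw [h1]
      rcases nsl_norm_F R hk (adj_of_IsoR (NT.graph R .F k) hedge) with h2 | h2
      · exact h2
      · exact absurd h2 h
  | G2 =>
    by_cases h : k = 2
    · have h1 : nfT .G2 k = .S (nf (.A 3) 1) := if_pos h
      rw [h1]
      subst h
      have h2 : ∃ v w, (gph (VA 3 1)).Adj v w := by
        obtain ⟨e⟩ := IsoR.trans (NT.graph R .G 2) (iso_G22 R)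
        obtain ⟨v, w, hvw⟩ := hedge
        exact ⟨e v, e w, e.map_adj_iff.2 hvw⟩
      exact nrm_of_edge rowsN (t := .A 3) (show 2 ≤ 3 by norm_num) (by norm_num) (hasE_of_adj' h2)
    · have h1 : nfT .G2 k = .N (.G, k) := if_neg h
      rw [h1]
      rcases nsl_norm_G R hk (adj_of_IsoR (NT.graph R .G k) hedge) with h2 | h2
      · exact h2
      · exact absurd h2 h

/-- normal pairs with isomorphic graphs are equal -/
theorem NF.inj (R : RowsM) (P : PairsL) {x y : NF} (hx : x.nrm) (hy : y.nrm) (h : Iso x.V y.V) : x = y := by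
  cases x with
  | S p =>
    cases y with
    | S q =>
      have h1 := nrm_inj rowsD rowsA rowsN hx hy h
      rw [Prod.ext h1.1 h1.2]
    | N q => exact (nsl_sl R P rowsN hy hx h.symm).elim
  | N p =>
    cases y with
    | S q => exact (nsl_sl R P rowsN hx hy h).elim
    | N q =>
      have h1 := nsl_inj R P hx hy h
      rw [Prod.ext h1.1 h1.2]

/-- the fibres of the normal form -/
theorem nfT_eq_iff {τ τ' : Ty} (hok : τ.ok) (hok' : τ'.ok) (k m : ℕ) :
    nfT τ k = nfT τ' m ↔ SameClass τ k τ' m := by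
  unfold SameClass
  cases τ <;> cases τ'
  all_goals
    simp only [nfT]
    try split_ifs
  all_goals
    simp only [NF.S.injEq, NF.N.injEq, nf_eq_iff, reduceCtorEq, false_iff]
    try simp
  all_goals
    simp only [Ty.ok] at hok hok'
  all_goals
    intros
    omega

/-- the classification -/
theorem full_all (R : RowsM) (P : PairsL) {τ τ' : Ty} (hok : τ.ok) (hok' : τ'.ok) {k m : ℕ} (hk : 0 < k) (hm : 0 < m)
    (hedge : ∃ v w, (sosGraph τ.R k).Adj v w) :
    Nonempty (sosGraph τ.R k ≃g sosGraph τ'.R m) ↔ SameClass τ k τ' m := by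
  obtain ⟨e⟩ := graph_nfT R τ k
  obtain ⟨e'⟩ := graph_nfT R τ' m
  rw [← nfT_eq_iff hok hok']
  constructor
  · rintro ⟨g⟩
    have hedge' : ∃ v w, (sosGraph τ'.R m).Adj v w := by
      obtain ⟨v, w, h⟩ := hedge
      exact ⟨g v, g w, g.map_adj_iff.2 h⟩
    exact NF.inj R P (nrm_nfT R hok hk hedge) (nrm_nfT R hok' hm hedge') ⟨(e.symm.trans g).trans e'⟩
  · intro h
    rw [h] at e
    exact ⟨e.trans e'.symm⟩

end Pool.Agent.SOL
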