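import Pool.Agent.helper20.SOL.SpecP

/-!
# Project sol: the linear map of an isomorphism, source between the non isolated and all vertices of a
graph of type D
-/

set_option autoImplicit false

namespace Pool.Agent.SOL

open Finset

open scoped BigOperators

/-- a vertex set between the non isolated and all vertices -/
structure Btw {n : ℕ} (k : ℕ) (S : Set (Vec n)) : Prop where
  sub : S ⊆ VD n k
  ni : NI (VD n k) ⊆ S
  neg : ∀ x ∈ S, -x ∈ S

theorem Btw.sl {n k : ℕ} {S : Set (Vec n)} (hCSI : CSI_stmt) (hk : 0 < k) (h : Btw k S) : SLs S :=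
  hCSI n S (2 * k) (by positivity) h.neg fun x hx => (h.sub hx).2.1

theorem VD_tri {n k : ℕ} {x y : Vec n} (hx : x ∈ VD n k) (hy : y ∈ VD n k) (hxy : x - y ∈ VD n k) :
    x ∈ NI (VD n k) ∧ y ∈ NI (VD n k) ∧ x - y ∈ NI (VD n k) := by
  refine ⟨⟨hx, y, hy, hxy⟩, ⟨hy, x, hx, ?_⟩, ⟨hxy, x, hx, ?_⟩⟩
  · have := VD_neg hxy
    rwa [neg_sub] at this
  · have := VD_neg hy
    rwa [sub_sub, add_comm, ← sub_sub, sub_self, zero_sub]

theorem Btw.tri {n k : ℕ} {S : Set (Vec n)} (h : Btw k S) {x y : Vec n} (hx : x ∈ VD n k)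
    (hy : y ∈ VD n k) (hxy : x - y ∈ VD n k) : x ∈ S ∧ y ∈ S ∧ x - y ∈ S := by
  obtain ⟨h1, h2, h3⟩ := VD_tri hx hy hxy
  exact ⟨h.ni h1, h.ni h2, h.ni h3⟩

theorem Btw.good {n k : ℕ} {S : Set (Vec n)} (h : Btw k S) {x y : Vec n} (hx : x ∈ VD n k)
    (hg : Good (VD n k) x y) : Good S x y := by
  intro w hw hyw hwx hxw hwy
  have hxw' : x - w ∉ VD n k := fun h1 => hxw (h.tri hx (h.sub hw) h1).2.2
  obtain ⟨v, hv, hvy, hxv, hwv⟩ := hg w (h.sub hw) (h.sub hyw) hwx hxw' hwy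
  exact ⟨v, (h.tri hx hv hxv).2.1, hvy, (h.tri hx hv hxv).2.2, (h.tri (h.sub hw) hv hwv).2.2⟩

theorem Btw.pair {n k : ℕ} {S : Set (Vec n)} (h : Btw k S) {x : Vec n} (hx : x ∈ VD n k)
    (hg : GoodPair (VD n k) x) : x ∈ S ∧ GoodPair S x := by
  obtain ⟨y, hy, hxy, g1, g2⟩ := hg
  obtain ⟨t1, t2, t3⟩ := h.tri hx hy hxy
  exact ⟨t1, y, t2, t3, h.good hx g1, h.good hx g2⟩

theorem half_innerS {n d ρ m r : ℕ} {S : Set (Vec n)} {S' : Set (Vec d)} (hCSI : CSI_stmt)
    (hS : SLs S) (h : Tgt S' ρ m r) (ψ : gph S ≃g gph S') {x y : Vec n} (hx : x ∈ S)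
    (hy : y ∈ S) (hxy : x - y ∈ S) :
    cv (up ψ x) ⬝ᵥ cv (up ψ y) = (ρ * m : ℝ) / 2 := by
  have hS' := h.sl hCSI
  have h1 := h.norm _ ((up_adj hS hS' ψ hx hy).2 hxy)
  rw [dp_sub_sub, h.norm _ (up_mem ψ hx), h.norm _ (up_mem ψ hy)] at h1
  rw [cv_dot]
  have h2 : 2 * dp (up ψ x) (up ψ y) = ρ * m := by linarith
  have h3 : (2 : ℝ) * (dp (up ψ x) (up ψ y) : ℝ) = ρ * m := by exact_mod_cast h2
  linarith

theorem coreS {n k t s d ρ m r : ℕ} {S : Set (Vec n)} {S' : Set (Vec d)} (hCNT : CNT_stmt)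
    (hCSI : CSI_stmt) (hODA : ODA_stmt) (hDSM : DSM_stmt) (hk : 0 < k) (hB : Btw k S)
    (h4 : 4 * t + s = 2 * k) (hle : 2 * t + s ≤ n)
    (h2 : 2 ≤ t + s) (hlt : t + s < n) (hLin : Lin n t s)
    (hgood : ∀ x ∈ TD n t s, GoodPair (VD n k) x) (h : Tgt S' ρ m r)
    (ψ : gph S ≃g gph S') :
    (∀ x ∈ TD n t s, x ∈ S) ∧
    ∃ T : Fin n → Fin d → ℝ, (∀ x ∈ TD n t s, cv (up ψ x) = ∑ i, (x i : ℝ) • T i) ∧
      (∀ i, T i ⬝ᵥ T i = (ρ * m : ℝ) / (2 * k)) ∧ ∀ i j, i ≠ j → T i ⬝ᵥ T j = 0 := by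
  have hS := hB.sl hCSI hk
  have hS' := h.sl hCSI
  have hsubV : ∀ x ∈ TD n t s, x ∈ VD n k := fun x hx => hCNT.2.2.1 n k t s x h4 hle hx
  have hsub : ∀ x ∈ TD n t s, x ∈ S := fun x hx => (hB.pair (hsubV x hx) (hgood x hx)).1
  obtain ⟨_, o2, o3⟩ := hODA n d S S' ψ hS hS'
  have hodd : ∀ x ∈ TD n t s, up ψ (-x) = -up ψ x := by
    intro x hx
    obtain ⟨y, hy, hxy, g1, g2⟩ := (hB.pair (hsubV x hx) (hgood x hx)).2
    exact o2 x (hsub x hx) y hy hxy g1 g2
  have hadd : AddOn (TD n t s) (fun x => cv (up ψ x)) := by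
    constructor
    · intro x hx
      show cv (up ψ (-x)) = -cv (up ψ x)
      rw [hodd x hx]
      funext i
      simp [cv]
    · intro x hx y hy hxy
      show cv (up ψ (x - y)) = cv (up ψ x) - cv (up ψ y)
      rw [o3 y (hsub y hy) x (hsub x hx) (hS.sub_comm (hsub _ hxy)) (hodd y hy), cv_sub]
  obtain ⟨T, hT⟩ := hLin (Fin d → ℝ) _ hadd
  obtain ⟨n1, n2⟩ := hDSM n d t s (ρ * m : ℝ) T h2 hlt (by
    intro x hx
    rw [← hT x hx, cv_dot, h.norm _ (up_mem ψ (hsub x hx))]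
    push_cast
    rfl)
  refine ⟨hsub, T, hT, fun i => ?_, n2⟩
  rw [n1 i]
  congr 1
  have : ((4 * t + s : ℕ) : ℝ) = ((2 * k : ℕ) : ℝ) := by rw [h4]
  push_cast at this
  exact this

/-- for `k = 2` all vertices are non isolated -/
theorem Btw.two {n : ℕ} {S : Set (Vec n)} (R : RowsD) (hn : 4 ≤ n) (hB : Btw 2 S) :
    ∀ x ∈ VD n 2, x ∈ S := by
  intro x hx
  obtain ⟨a, b, c⟩ := (R.cnt.2.1 n 2 x).1 hx
  have h1 : cnt x 2 = 1 ∨ cnt x 2 = 0 := by omega
  rcases h1 with h1 | h1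
  · exact (hB.pair hx (row_DG2a (r := 0) (by omega) hx h1)).1
  · have h2 : cnt x 1 = 4 := by omega
    have h3 : 0 < (univ.filter fun i => |x i| = 1).card := by
      unfold cnt at h2
      omega
    obtain ⟨i, hi⟩ := Finset.card_pos.1 h3
    rw [mem_filter] at hi
    have hi := hi.2
    have hsq : x i * x i = 1 := by
      have := abs_mul_abs_self (x i)
      rw [hi] at this
      linarith
    obtain ⟨X, hXi, hXj⟩ : ∃ X : Vec n, X i = 2 * x i ∧ ∀ j, j ≠ i → X j = 0 :=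
      ⟨fun j => if j = i then 2 * x i else 0, if_pos rfl, fun j hj => if_neg hj⟩
    have hX : X ∈ VD n 2 := by
      refine ⟨fun j => ?_, ?_, ?_⟩
      · by_cases h : j = i
        · subst h
          rw [hXi, abs_mul, hi]
          norm_num
        · rw [hXj j h]
          norm_num
      · unfold dp
        rw [Finset.sum_eq_single i]
        · rw [hXi]
          push_cast
          nlinarith
        · intro j _ hj
          rw [hXj j hj]
          ring
        · intro h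
          exact absurd (mem_univ i) h
      · unfold l1
        rw [Finset.sum_eq_single i]
        · rw [hXi, abs_mul, hi]
          norm_num
          omega
        · intro j _ hj
          rw [hXj j hj, abs_zero]
        · intro h
          exact absurd (mem_univ i) h
    refine (hB.tri hx hX ?_).1
    have h4 : x - X = flp i x := by
      funext j
      rw [Pi.sub_apply]
      unfold flp
      split_ifs with h
      · subst h
        rw [hXi]
        ring
      · rw [hXj j h]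
        ring
    rw [h4]
    exact R.cnt.2.2.2.2.2.2.1 n 2 x i hx

theorem genS {n k d ρ m r : ℕ} {S : Set (Vec n)} {S' : Set (Vec d)} (R : RowsD)
    (hPAT : PAT_stmt) (hg : GenD n k)
    (hB : Btw k S) (h : Tgt S' ρ m r) (ψ : gph S ≃g gph S') :
    ∃ T : Fin n → Fin d → ℝ, OutD n k S' ρ m T := by
  obtain ⟨hn, hg⟩ := hg
  have hk : 0 < k := by omega
  have hS := hB.sl R.csi hk
  have hS' := h.sl R.csi
  rcases hg with ⟨hk4, hle⟩ | ⟨hk4, hle, h5⟩ | ⟨hk4, hle, h5⟩ | ⟨hk4, hk0, hle⟩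
  · -- k = 4 q + 1
    obtain ⟨q, rfl⟩ : ∃ q, k = 4 * q + 1 := ⟨k / 4, by omega⟩
    obtain ⟨hs, T, hT, n1, n2⟩ := coreS (t := 2 * q) (s := 2) R.cnt R.csi R.oda R.dsm hk hB
      (by omega) (by omega) (by omega) (by omega) (R.dl1 n q (by omega) hn) (by
        intro x hx
        exact row_DG1 (by omega) (by omega) (R.sub (by omega) (by omega) hx) hx.2.1) h ψ
    refine ⟨T, OutD.mk' R (up ψ) T (t := 2 * q) (s := 2) (by norm_num) (by omega) (by omega)
      (by omega) (fun x hx => up_mem ψ (hs x hx)) hT n1 n2⟩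
  · -- k = 4 q + 3
    obtain ⟨q, rfl⟩ : ∃ q, k = 4 * q + 3 := ⟨k / 4, by omega⟩
    obtain ⟨hs, T, hT, n1, n2⟩ := coreS (t := 2 * q + 1) (s := 2) R.cnt R.csi R.oda R.dsm hk hB
      (by omega) (by omega) (by omega) (by omega) (R.dl3 n q (by omega) h5) (by
        intro x hx
        exact row_DG3 (by omega) (R.sub (by omega) (by omega) hx) hx.2.1) h ψ
    refine ⟨T, OutD.mk' R (up ψ) T (t := 2 * q + 1) (s := 2) (by norm_num) (by omega) (by omega)
      (by omega) (fun x hx => up_mem ψ (hs x hx)) hT n1 n2⟩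
  · obtain ⟨q, rfl⟩ : ∃ q, k = 4 * q + 2 := ⟨k / 4, by omega⟩
    rcases Nat.eq_zero_or_pos q with rfl | hq
    · -- k = 2
      have hall : ∀ x ∈ VD n 2, x ∈ S := hB.two R hn
      have hB2 : Btw 2 S := hB
      obtain ⟨_, o2, o3⟩ := R.oda n d S S' ψ hS hS'
      have hodd : ∀ x ∈ TD n 1 0, up ψ (-x) = -up ψ x := by
        intro x hx
        have hx' : x ∈ VD n 2 := R.sub (by norm_num) (by omega) hx
        obtain ⟨y, hy, hxy, g1, g2⟩ := (hB2.pair hx' (row_DG2a (r := 0) (by omega) hx' hx.2.1)).2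
        exact o2 x (hall x hx') y hy hxy g1 g2
      obtain ⟨T, hT, n1, n2⟩ := R.k2l n d (ρ * m : ℝ) (fun x => cv (up ψ x)) hn (by
          intro x hx
          show cv (up ψ x) ⬝ᵥ cv (up ψ x) = _
          rw [cv_dot, h.norm _ (up_mem ψ (hall x hx))]
          push_cast
          rfl) (by
          intro x hx y hy hxy
          exact half_innerS R.csi hS h ψ (hall x hx) (hall y hy) (hall _ hxy)) (by
          intro x hx
          show cv (up ψ (-x)) = -cv (up ψ x)
          rw [hodd x hx]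
          funext i
          simp [cv]) (by
          intro x hx y hy hxy
          show cv (up ψ (y - x)) = cv (up ψ y) - cv (up ψ x)
          rw [o3 x (hall x (R.sub (by norm_num) (by omega) hx)) y (hall y hy) (hall _ hxy)
            (hodd x hx), cv_sub])
      have hs1 : ∀ x ∈ TD n 1 0, x ∈ VD n 2 := fun x hx => R.sub (by norm_num) (by omega) hx
      have hs4 : ∀ x ∈ TD n 0 4, x ∈ VD n 2 := fun x hx => R.sub (by norm_num) (by omega) hx
      obtain ⟨d1, d2⟩ := diffs (t := 0) (s := 4) (S' := S') R.cnt (up ψ) T (by norm_num) (by omega)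
        (fun x hx => up_mem ψ (hall x (hs4 x hx))) (fun x hx => hT x (hs4 x hx))
      refine ⟨T, ⟨fun i => ?_, n2, d1, d2, fun _ => ⟨1, 0, le_refl 1, by omega, fun x hx =>
        ⟨up ψ x, up_mem ψ (hall x (hs1 x hx)), (hT x (hs1 x hx)).symm⟩⟩, fun _ => ⟨0, 4,
        by norm_num, by omega, fun x hx => ⟨up ψ x, up_mem ψ (hall x (hs4 x hx)),
        (hT x (hs4 x hx)).symm⟩⟩⟩⟩
      rw [n1 i]
      norm_num
    · obtain ⟨hs, T, hT, n1, n2⟩ := coreS (t := 2 * q) (s := 4) R.cnt R.csi R.oda R.dsm hk hB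
        (by omega) (by omega) (by omega) (by omega) (R.dl2 n q hq (by omega)) (by
          intro x hx
          exact row_DG2 hq (by omega) (R.sub (by omega) (by omega) hx) hx.2.1) h ψ
      refine ⟨T, OutD.mk' R (up ψ) T (t := 2 * q) (s := 4) (by norm_num) (by omega) (by omega)
        (by omega) (fun x hx => up_mem ψ (hs x hx)) hT n1 n2⟩
  · obtain ⟨q, rfl⟩ : ∃ q, k = 4 * q := ⟨k / 4, by omega⟩
    have hq : 1 ≤ q := by omega
    obtain ⟨hs, T, hT, n1, n2⟩ := coreS (t := 2 * q) (s := 0) R.cnt R.csi R.oda R.dsm hk hB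
      (by omega) (by omega) (by omega) (by omega) (R.dl0 n q hq (by omega)) (by
        intro x hx
        exact row_DG0 hq (by omega) (R.sub (by omega) (by omega) hx) hx.2.1) h ψ
    have hV4 : ∀ x ∈ TD n (2 * q - 1) 4, x ∈ VD n (4 * q) :=
      fun x hx => R.sub (by omega) (by omega) hx
    have hV0 : ∀ x ∈ TD n (2 * q) 0, x ∈ VD n (4 * q) :=
      fun x hx => R.sub (by omega) (by omega) hx
    have hN : (0 : ℝ) < ρ * m := by
      have := Nat.mul_pos h.rpos h.pos
      exact_mod_cast this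
    have hk' : (0 : ℝ) < ((4 * q : ℕ) : ℝ) := by exact_mod_cast hk
    -- the second orbit consists of non isolated vertices
    have hs4 : ∀ x ∈ TD n (2 * q - 1) 4, x ∈ S := by
      intro x hx
      have h0 : cnt x 0 + cnt x 1 + cnt x 2 = n := R.cnt.1 n x hx.1
      have h1 := hx.2.1
      have h2 := hx.2.2
      have h3 : 0 < (univ.filter fun i => |x i| = 1).card := by
        unfold cnt at h2
        omega
      obtain ⟨i, hi⟩ := Finset.card_pos.1 h3
      rw [mem_filter] at hi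
      have hi := hi.2
      obtain ⟨y, hy, hxy, _⟩ := hPAT.2.2 n x q (q - 1) 0 0 4 0 0 q 0 (n - 3 * q - 3) hx.1
        (by omega) (by omega) (by omega) i 0 (by
          intro p p'
          split_ifs with hc
          · obtain ⟨e1, e2⟩ := hc
            rw [hi] at e1
            subst e1
            subst e2
            unfold pat
            norm_num
          · exact Nat.zero_le _)
      have hy' : y ∈ VD n (4 * q) := R.sub (by omega) (by omega) hy
      have hxy' : x - y ∈ VD n (4 * q) := R.sub (by omega) (by omega) hxy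
      exact (hB.tri (hV4 x hx) hy' hxy').1
    -- linearity on the second orbit
    have hT2 : ∀ x ∈ TD n (2 * q - 1) 4, cv (up ψ x) = ∑ i, (x i : ℝ) • T i := by
      intro x hx
      have hxV := hV4 x hx
      have hnorm := h.norm _ (up_mem ψ (hs4 x hx))
      have hpr := R.pr4 n q x (fun i => cv (up ψ x) ⬝ᵥ T i) ((ρ * m : ℝ) / 2) hq (by omega) hx (by
        intro y hy hxy
        have h0 := hB.tri hxV (hV0 y hy) hxy
        have h1 := half_innerS R.csi hS h ψ h0.1 h0.2.1 h0.2.2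
        rw [hT y hy, dotProduct_sum] at h1
        rw [← h1]
        refine Finset.sum_congr rfl fun i _ => ?_
        rw [dotProduct_smul, smul_eq_mul])
      have h1 : cv (up ψ x) ⬝ᵥ (∑ i, (x i : ℝ) • T i) = (ρ * m : ℝ) := by
        rw [dotProduct_sum]
        have h2 : ∀ i ∈ (univ : Finset (Fin n)), cv (up ψ x) ⬝ᵥ ((x i : ℝ) • T i) =
            (x i : ℝ) * (cv (up ψ x) ⬝ᵥ T i) := by
          intro i _
          rw [dotProduct_smul, smul_eq_mul]
        rw [Finset.sum_congr rfl h2, hpr]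
        ring
      have h2 : (∑ i, (x i : ℝ) • T i) ⬝ᵥ (∑ i, (x i : ℝ) • T i) = (ρ * m : ℝ) := by
        rw [norm_comb n1 n2]
        have h4 : ∑ i, (x i : ℝ) * (x i : ℝ) = 2 * ((4 * q : ℕ) : ℝ) := by
          have h5 := hxV.2.1
          unfold dp at h5
          exact_mod_cast h5
        rw [h4]
        field_simp
      have h3 : (cv (up ψ x) - ∑ i, (x i : ℝ) • T i) ⬝ᵥ (cv (up ψ x) - ∑ i, (x i : ℝ) • T i) = 0 := by
        rw [sub_dotProduct, dotProduct_sub, dotProduct_sub, h1, h2,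
          dotProduct_comm (∑ i, (x i : ℝ) • T i) (cv (up ψ x)), h1, cv_dot, hnorm]
        push_cast
        ring
      have h4 := dotProduct_self_eq_zero.1 h3
      exact sub_eq_zero.1 h4
    obtain ⟨d1, d2⟩ := diffs (t := 2 * q - 1) (s := 4) (S' := S') R.cnt (up ψ) T (by norm_num)
      (by omega) (fun x hx => up_mem ψ (hs4 x hx)) hT2
    refine ⟨T, ⟨n1, n2, d1, d2, fun _ => ⟨2 * q - 1, 4, by omega, by omega, fun x hx =>
      ⟨up ψ x, up_mem ψ (hs4 x hx), (hT2 x hx).symm⟩⟩, fun _ => ⟨2 * q - 1, 4, by omega, by omega,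
      fun x hx => ⟨up ψ x, up_mem ψ (hs4 x hx), (hT2 x hx).symm⟩⟩⟩⟩

theorem GSO (R : RowsD) (hPAT : PAT_stmt) : GSO_stmt := by
  intro n k d ρ m r S S' hg h1 h2 h3 h hi
  obtain ⟨ψ⟩ := hi
  obtain ⟨T, hT⟩ := genS R hPAT hg ⟨h1, h2, h3⟩ h ψ
  have hn := hg.1
  have hk : 0 < k := by rcases hg.2 with h | h | h | h <;> omega
  obtain ⟨W, hW, hr⟩ := h.rank
  refine ⟨?_, ?_, T, hT⟩
  · have h01 : (⟨0, by omega⟩ : Fin n) ≠ ⟨1, by omega⟩ := by
      intro h1
      have := congrArg Fin.val h1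
      simp at this
    obtain ⟨a, ha, b, hb, hab⟩ := hT.sub _ _ h01
    have h1 := dvd_of_norm h hk ha hb (e := 1) (by
      rw [← hab, sub_dotProduct, dotProduct_sub, dotProduct_sub, hT.norm, hT.norm,
        hT.orth _ _ h01, hT.orth _ _ h01.symm]
      have h3 : (0 : ℝ) < k := by exact_mod_cast hk
      field_simp
      ring)
    rwa [mul_one] at h1
  · exact rank_orth (OutD.pos (n := n) hk h) hT.norm hT.orth (fun i => hT.mem (by omega) hW i) hr

end Pool.Agent.SOL
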