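import Pool.Agent.helper20.SOL.GSO
import Pool.Agent.helper1.SOL.NSL

/-!
# Project sol: the pairs treated by linear maps
-/

set_option autoImplicit false

namespace Pool.Agent.SOL

open Finset

open scoped BigOperators

/-- the rows of `SpecP` -/
structure RowsP : Prop where
  bty : BTY_stmt
  nmc : NMC_stmt
  gso : GSO_stmt
  nsb : NSB_stmt
  nsc : NSC_stmt
  nsi : NSI_stmt
  pbb : PBB_stmt
  bc1 : BC1_stmt
  bc2 : BC2_stmt
  cco : CCO_stmt
  hul : HUL_stmt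
  stn : STN_stmt

theorem pair_bc (R : RowsP) {n k n' k' : ℕ} (h : GenB n k) (h' : GenC n' k') :
    ¬ Iso (VB n k) (VC n' k') := by
  intro hi
  by_cases hc : (k = 1 ∧ 2 ≤ n) ∨ (n = 4 ∧ k = 3)
  · exact R.bc1 n k n' k' hc h' hi
  · have hD : GenD n k := by
      unfold GenB at h
      unfold GenD
      omega
    have h2 : 2 ≤ k := by
      unfold GenB at h
      omega
    have hk : 1 ≤ k := by omega
    have hk' : 1 ≤ k' := h'.2.1
    obtain ⟨b1, b2, b3, b4, b5, b6⟩ := R.nsb n k hk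
    obtain ⟨c1, c2, c3, c4⟩ := R.nsc n' k' h'
    have e := b5 h
    have hi' : Iso (NS (VB n k)) (NS (VC n' k')) := by
      refine R.nsi n n' _ _ (R.bty.2.2.2.2.2.2.1 n k hk).1 (R.bty.2.2.2.2.2.2.1 n' k' hk').2 ?_ c3 hi
      rw [e]
      exact b4
    rw [e] at hi'
    obtain ⟨_, _, T, hT⟩ := R.gso n k n' 4 k' n' _ _ hD b1 b2 b3 c4 hi'
    refine R.bc2 n k n' k' 4 k' _ T hD.1 h2 (by norm_num) hk' ?_ hT
    intro x hx
    rw [c1] at hx
    exact hx.2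

theorem pair_cc (R : RowsP) {n k n' k' : ℕ} (h : GenC n k) (h' : GenC n' k')
    (hi : Iso (VC n k) (VC n' k')) : n = n' ∧ k = k' := by
  have h1 := h.2.1
  have h1' := h'.2.1
  rcases Nat.lt_or_ge 1 k with hk | hk
  · obtain ⟨d1, d2⟩ := R.cco n k n' k' hk h h' hi
    have h3 := Nat.le_of_dvd h1' d1
    obtain ⟨d3, d4⟩ := R.cco n' k' n k (by omega) h' h hi.symm
    exact ⟨le_antisymm d2 d4, Nat.dvd_antisymm d1 d3⟩
  · rcases Nat.lt_or_ge 1 k' with hk' | hk'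
    · obtain ⟨d1, d2⟩ := R.cco n' k' n k hk' h' h hi.symm
      have h3 := Nat.le_of_dvd h1 d1
      omega
    · obtain rfl : k = 1 := by omega
      obtain rfl : k' = 1 := by omega
      have h3 := hi.ncard
      rw [R.nmc.1, R.nmc.1] at h3
      have h4 : n ^ 2 = n' ^ 2 := by omega
      exact ⟨Nat.pow_left_injective (by norm_num : 2 ≠ 0) h4, rfl⟩

theorem pair_sd (R : RowsP) {κ n' k' : ℕ} (hκ : 2 ≤ κ) (hk' : 0 < k') :
    ¬ Iso (VB (2 * κ + 1) (2 * κ)) (VD n' k') :=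
  R.stn κ n' (2 * k') (VD n' k') hκ (by positivity) (fun _ hx => VD_neg hx) (fun _ hx => hx.2.1)
    (fun U h1 h2 h3 => R.hul.1 n' k' U hk' h1 h2 h3)

theorem pair_sa (R : RowsP) {κ n' k' : ℕ} (hκ : 2 ≤ κ) (hk' : 0 < k') :
    ¬ Iso (VB (2 * κ + 1) (2 * κ)) (VA n' k') :=
  R.stn κ n' (2 * k') (VA n' k') hκ (by positivity) (fun _ hx => VA_neg hx) (fun _ hx => hx.2.2)
    (fun U h1 h2 h3 => R.hul.2 n' k' U hk' h1 h2 h3)

theorem pairsL (R : RowsP) : PairsL where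
  bb n k n' k' h h' hi := R.pbb n k n' k' h h' hi
  bc _ _ _ _ h h' hi := pair_bc R h h' hi
  cc _ _ _ _ h h' hi := pair_cc R h h' hi
  sd _ _ _ h1 h2 _ hi := pair_sd R h1 h2 hi
  sa _ _ _ h1 h2 _ hi := pair_sa R h1 h2 hi

end Pool.Agent.SOL
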