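import Pool.Agent.helper20.SOL.Basic

/-!
# Project sol (MP_cad530_co): rows.

Plan. For the simply laced root systems `A_{n-1}` and `D_n` the vertex sets are `VA n k`, `VD n k`
(rows `VA1`, `VD1`). An isomorphism `ψ` of the graph of `(R₁, k)` with a graph of constant norm is
odd and additive at all vertices which have a good edge (row `ODA`; the good edges come from
helper1). On the orbit `TD n t s` (resp. on `VA n k`) an odd additive function is linear (rows `EXT`,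
`PAT`, `LX1`-`LX5`, `DL0`-`DL3`, `K2L`, `ALN`), the linear map is a similarity (rows `DSM`, `ASM`), and
the differences `e_i - e_j` of orbit elements give divisibility `k ∣ m`.

Every row: file `Pool/Agent/<seat>/SOL/XX.lean`, `import Pool.Agent.helper20.SOL.Spec`, namespace
`Pool.Agent.SOL`, `theorem XX (hypotheses in the order of the docstring) : XX_stmt`, auxiliary lemmas
prefixed with the row name.
-/

set_option autoImplicit false

namespace Pool.Agent.SOL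

open Pool.Agent.helper54.SOG Finset

open scoped BigOperators

/-- the number of entries of absolute value `a` -/
def cnt {n : ℕ} (x : Vec n) (a : ℤ) : ℕ := (univ.filter fun i => |x i| = a).card

/-- the vectors with `t` entries `±2`, `s` entries `±1` and zeros -/
def TD (n t s : ℕ) : Set (Vec n) := {x | (∀ i, |x i| ≤ 2) ∧ cnt x 2 = t ∧ cnt x 1 = s}

/-- the sign change of the `i`-th coordinate -/
def flp {n : ℕ} (i : Fin n) (x : Vec n) : Vec n := fun j => if j = i then -x j else x j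

/-- the exchange of two coordinates -/
def swp {n : ℕ} (a b : Fin n) (x : Vec n) : Vec n := fun j => x (Equiv.swap a b j)

/-- the sign, with `sg 0 = 1` -/
def sg (z : ℤ) : ℤ := if z < 0 then -1 else 1

/-! ## General rows -/

/-- ROW `CNT` (short). Counts.
(1) `|x i| ≤ 2` for all `i`: `cnt x 0 + cnt x 1 + cnt x 2 = n` (the three filters partition `univ`),
(2) `x ∈ VD n k` iff `|x i| ≤ 2`, `4 cnt x 2 + cnt x 1 = 2 k`, `2 cnt x 2 + cnt x 1 ≤ n`: under
`|x i| ≤ 2` we have `x i * x i = 4 [|x i| = 2] + [|x i| = 1]` and `|x i| = 2 [|x i| = 2] + [|x i| = 1]`;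
sum up. (3) a type `TD n t s` with `4 t + s = 2 k`, `2 t + s ≤ n` is contained in `VD n k`.
(4), (5) `TD n t s` is closed under `flp i` and `swp a b`, (6) under `x ↦ -x`; (7), (8) the same for
`VD n k`. -/
def CNT_stmt : Prop :=
  (∀ (n : ℕ) (x : Vec n), (∀ i, |x i| ≤ 2) → cnt x 0 + cnt x 1 + cnt x 2 = n) ∧
  (∀ (n k : ℕ) (x : Vec n), x ∈ VD n k ↔
    (∀ i, |x i| ≤ 2) ∧ 4 * cnt x 2 + cnt x 1 = 2 * k ∧ 2 * cnt x 2 + cnt x 1 ≤ n) ∧
  (∀ (n k t s : ℕ) (x : Vec n), 4 * t + s = 2 * k → 2 * t + s ≤ n → x ∈ TD n t s → x ∈ VD n k) ∧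
  (∀ (n t s : ℕ) (x : Vec n) (i : Fin n), x ∈ TD n t s → flp i x ∈ TD n t s) ∧
  (∀ (n t s : ℕ) (x : Vec n) (a b : Fin n), x ∈ TD n t s → swp a b x ∈ TD n t s) ∧
  (∀ (n t s : ℕ) (x : Vec n), x ∈ TD n t s → -x ∈ TD n t s) ∧
  (∀ (n k : ℕ) (x : Vec n) (i : Fin n), x ∈ VD n k → flp i x ∈ VD n k) ∧
  (∀ (n k : ℕ) (x : Vec n) (a b : Fin n), x ∈ VD n k → swp a b x ∈ VD n k)

/-- ROW `CSI` (short). A symmetric set of integer vectors of constant norm `N > 0` satisfies `SLs`.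
`zero`: `dp 0 0 = 0`. `two`: `dp (x+x) (x+x) = 4 N ≠ N`. For adjacent `x, y`: `dp x y = N/2`, i.e.
`2 * dp x y = N` (`dp_sub_sub`). `uc`: with `p = x - y ∈ S` (norm `N`): `y - v ∈ S` gives
`2 dp y v = N`, `p - v ∈ S` gives `2 dp p v = N`, so `dp x v = N`, `dp (x - v) (x - v) = N - 2 N + N = 0`,
`eq_zero_of_dp`. `nc`: `2 dp x v = N`, so `dp (x+v) (x+v) = 3 N ≠ N`. -/
def CSI_stmt : Prop :=
  ∀ (n : ℕ) (S : Set (Vec n)) (N : ℤ), 0 < N → (∀ x ∈ S, -x ∈ S) → (∀ x ∈ S, dp x x = N) → SLs S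

/-- ROW `ODA` (short-medium). Let `ψ` be an isomorphism of `gph S` and `gph S'`, both with `SLs`.
(1) If `x, y, x - y ∈ S` and `Good S x y` then `ψ (y - x) = ψ y - ψ x` (`ψ` is `up ψ`).
Proof. `w' = ψ y - ψ x ∈ S'` (`up_adj` and `sub_comm`), `ψ y - w' = ψ x ∈ S'`. Take `w ∈ S` with
`ψ w = w'` (`up_surj`). `y - w ∈ S` by `up_adj`. `w ≠ x`: otherwise `ψ y = ψ x + ψ x ∈ S'`, against `two`.
`x - w ∉ S`: otherwise `ψ x - w' ∈ S'`, so `w' - ψ x ∈ S'` and `nc` (with `w'`, `ψ x`) says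
`w' + ψ x = ψ y ∉ S'`. If `w ≠ y - x` then `Good` gives `v ≠ y` in `S` with `x - v ∈ S`, `w - v ∈ S`, so
`ψ x - ψ v ∈ S'` and `w' - ψ v = ψ y - ψ x - ψ v ∈ S'`; `uc` (with `ψ y`, `ψ x`, `ψ v`) gives
`ψ v = ψ y`, `v = y`, contradiction. So `w = y - x`.
(2) If `x, y, x - y ∈ S`, `Good S x y` and `Good S x (x - y)` then `ψ (-x) = -ψ x`.
Proof. By (1) `ψ (y - x) = ψ y - ψ x`. `Good` is invariant under negation of both arguments
(replace `w, v` by `-w, -v`), so `Good S (-x) (y - x)`; the pair `-x, y - x` is adjacent (difference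
`-y`), (1) gives `ψ (y - x - (-x)) = ψ y = ψ (y - x) - ψ (-x)`. Add.
(3) If `x, y, x - y ∈ S` and `ψ (-x) = -ψ x` then `ψ (y - x) = ψ y - ψ x`.
Proof. `z = ψ (y - x)`: `y - x` is adjacent to `y` (difference `-x`) and to `-x` (difference `y`), so
`ψ y - z ∈ S'` and `-ψ x - z ∈ S'` (`up_adj`). `uc` with `x := ψ y - ψ x`, `y := -ψ x`, `v := z`: the
hypotheses are `ψ y - ψ x ∈ S'`, `-ψ x ∈ S'`, `ψ y - ψ x - -ψ x = ψ y ∈ S'`, `z ∈ S'`,
`-ψ x - z ∈ S'`, `ψ y - ψ x - -ψ x - z = ψ y - z ∈ S'`; so `z = ψ y - ψ x`. -/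
def ODA_stmt : Prop :=
  ∀ (n n' : ℕ) (S : Set (Vec n)) (S' : Set (Vec n')) (ψ : gph S ≃g gph S'), SLs S → SLs S' →
    (∀ x ∈ S, ∀ y ∈ S, x - y ∈ S → Good S x y → up ψ (y - x) = up ψ y - up ψ x) ∧
    (∀ x ∈ S, ∀ y ∈ S, x - y ∈ S → Good S x y → Good S x (x - y) → up ψ (-x) = -up ψ x) ∧
    (∀ x ∈ S, ∀ y ∈ S, x - y ∈ S → up ψ (-x) = -up ψ x → up ψ (y - x) = up ψ y - up ψ x)

/-- ROW `VD1` (medium). The vertices of `Γ(D_n, k)`: `sosSums (rootsD n) k = cv '' VD n k`.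
`⊆`: a root is `cv` of an integer vector `σ e_i + τ e_j`, `i ≠ j`, `σ, τ = ±1`. Two distinct roots
`a ≠ -b` of a strongly orthogonal set with supports `{i,j}`, `{p,q}`: if the supports meet in exactly
one index, `a + b` or `a - b` is a root. So the supports are equal or disjoint; when they are equal,
`b = ±(σ e_i - τ e_j)` (as `b ≠ ±a`), and there are at most two elements of `S` with a given support
(a third one would be `±` one of the two). Hence for every index `i` at most two elements of `S` have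
`i` in the support, `|x i| ≤ 2`, and the sum of the two elements with the same support `{i, j}` is
`±2 e_i` or `±2 e_j`. So `dp x x = 2 k` (the roots are orthogonal: their inner products are `0`) and
`l1 x` is at most the number of indices in the supports, `≤ n` (each support carries the sum of
absolute values `2` whether it has one or two elements). It may be convenient to use that the
inner product of distinct elements of `S` is `0` and a formula for `dp`, and for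
`l1 x ≤ n`: `l1 x = ∑_{supports} (sum of |entries|) ≤ ∑_{supports} 2 ≤ n`.
`⊇`: induction on `k` or direct: for `x ∈ VD n k` with `t` entries `±2` and `s = 2 k - 4 t` entries
`±1` there are at least `t` zeros; choose an injection of the entries `±2` to the zeros, `i ↦ z(i)`, and
pair the entries `±1` (their number is even) in any way. Take the roots `x_i/2 e_i ± e_{z(i)}` and for
each pair `{i, j}` the root `x_i e_i + x_j e_j`: these are `2 t + s/2 = k` distinct strongly orthogonal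
roots with the sum `x`. Induction version: prove for all `k` the statement for vectors with support in a
finset `F` (`l1 x ≤ F.card`, `x i = 0` off `F`), with roots supported in `F`: remove an entry `±2` and a
zero of `F`, or two entries `±1`. -/
def VD1_stmt : Prop := ∀ n k : ℕ, sosSums (rootsD n) k = cv '' VD n k

/-- ROW `VA1` (short-medium). The vertices of `Γ(A_{n-1}, k)`: `sosSums (rootsA n) k = cv '' VA n k`.
`⊆`: distinct elements `e_i - e_j`, `e_p - e_q` of a strongly orthogonal set have disjoint supports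
(if `i = p` the difference is `0` or a root, if `i = q` the sum is `0` or a root, etc.). So the sum has
entries `0, ±1`, sum `0`, square sum `2 k`. `⊇`: `x` has `k` entries `1` and `k` entries `-1` (the sum is
`0` and the square sum `2 k`); choose a bijection of the two sets and take the roots `e_i - e_{b(i)}`;
they are distinct, strongly orthogonal, with the sum `x`. Or induction on `k`: remove one entry `1` and
one entry `-1`. -/
def VA1_stmt : Prop := ∀ n k : ℕ, sosSums (rootsA n) k = cv '' VA n k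

/-! ## Patterns -/

/-- ROW `EXT` (short). Labels with prescribed numbers extending a given partial labelling: `P` is a
finset, `F ⊆ P`, `K` a finset of labels, `c l` the wanted number of elements with label `l`,
`∑ c l = P.card`, `g` labels on `F` with at most `c l` elements of `F` labelled `l`.
Proof: induction on `(P \ F).card`. If `F = P`: `∑_l (F.filter (g · = l)).card = P.card = ∑ c l` and `≤`
termwise, so equality; take `h = g`. Otherwise pick `j ∈ P \ F`; since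
`∑_l (F.filter (g · = l)).card = F.card < P.card = ∑ c l` there is `l ∈ K` with strict inequality; apply
the induction hypothesis to `insert j F` and `Function.update g j l`. -/
def EXT_stmt : Prop :=
  ∀ (n : ℕ) (P F : Finset (Fin n)) (K : Finset ℤ) (c : ℤ → ℕ) (g : Fin n → ℤ), F ⊆ P →
    ∑ l ∈ K, c l = P.card → (∀ j ∈ F, g j ∈ K) →
    (∀ l ∈ K, (F.filter fun j => g j = l).card ≤ c l) →
    ∃ h : Fin n → ℤ, (∀ j ∈ F, h j = g j) ∧ (∀ j ∈ P, h j ∈ K) ∧
      ∀ l ∈ K, (P.filter fun j => h j = l).card = c l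

/-- a pattern: the numbers of coordinates with given `(|x i|, normalized value of y i)` -/
def pat (c22 c20 c21 c11 c10 c12 c1m c02 c01 c00 : ℕ) (a b : ℤ) : ℕ :=
  if a = 2 then (if b = 2 then c22 else if b = 0 then c20 else if b = 1 then c21 else 0)
  else if a = 1 then
    (if b = 1 then c11 else if b = 0 then c10 else if b = 2 then c12 else if b = -1 then c1m else 0)
  else if a = 0 then (if b = 2 then c02 else if b = 1 then c01 else if b = 0 then c00 else 0)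
  else 0

/-- ROW `PAT` (medium, from `EXT`). For `x` with `|x i| ≤ 2` and a pattern with the right numbers
(`c22 + c20 + c21` entries `±2`, ...), and three different coordinates `i, a, b` with prescribed
normalized values `vi, va, vb` (normalized: multiplied by `sg (x i)`) which fit in the pattern, there is
`y` with that pattern. Then `y` and `x - y` have the stated types. Proof: for each of the three values
`A = 0, 1, 2` apply `EXT` to `P = univ.filter (|x ·| = A)`, `F` = those of `i, a, b` in `P`,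
`K = {2, 0, 1}`, `{1, 0, 2, -1}`, `{2, 1, 0}`, `c = pat ... A`, to get the normalized values `h j` for
`j ∈ P`; put `y j = sg (x j) * h j`. Then `|y j| = |h j|`, `|x j - y j| = |(|x j|) - h j|`, and
`cnt y 2 = c22 + c12 + c02`, `cnt y 1 = c11 + c1m + c21 + c01`, `cnt (x - y) 2 = c20 + c1m + c02`,
`cnt (x - y) 1 = c21 + c12 + c10 + c01`, `|x j - y j| ≤ 2`. Second statement: the same with two
different coordinates, third statement: with one coordinate. -/
def PAT_stmt : Prop :=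
  (∀ (n : ℕ) (x : Vec n) (c22 c20 c21 c11 c10 c12 c1m c02 c01 c00 : ℕ), (∀ j, |x j| ≤ 2) →
    cnt x 2 = c22 + c20 + c21 → cnt x 1 = c11 + c10 + c12 + c1m → cnt x 0 = c02 + c01 + c00 →
    ∀ (i a b : Fin n) (vi va vb : ℤ), i ≠ a → i ≠ b → a ≠ b →
    (∀ p q : ℤ, (if |x i| = p ∧ vi = q then 1 else 0) + (if |x a| = p ∧ va = q then 1 else 0) +
      (if |x b| = p ∧ vb = q then 1 else 0) ≤ pat c22 c20 c21 c11 c10 c12 c1m c02 c01 c00 p q) →
    ∃ y : Vec n, y ∈ TD n (c22 + c12 + c02) (c11 + c1m + c21 + c01) ∧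
      x - y ∈ TD n (c20 + c1m + c02) (c21 + c12 + c10 + c01) ∧
      y i = sg (x i) * vi ∧ y a = sg (x a) * va ∧ y b = sg (x b) * vb) ∧
  (∀ (n : ℕ) (x : Vec n) (c22 c20 c21 c11 c10 c12 c1m c02 c01 c00 : ℕ), (∀ j, |x j| ≤ 2) →
    cnt x 2 = c22 + c20 + c21 → cnt x 1 = c11 + c10 + c12 + c1m → cnt x 0 = c02 + c01 + c00 →
    ∀ (i a : Fin n) (vi va : ℤ), i ≠ a →
    (∀ p q : ℤ, (if |x i| = p ∧ vi = q then 1 else 0) + (if |x a| = p ∧ va = q then 1 else 0) ≤
      pat c22 c20 c21 c11 c10 c12 c1m c02 c01 c00 p q) →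
    ∃ y : Vec n, y ∈ TD n (c22 + c12 + c02) (c11 + c1m + c21 + c01) ∧
      x - y ∈ TD n (c20 + c1m + c02) (c21 + c12 + c10 + c01) ∧
      y i = sg (x i) * vi ∧ y a = sg (x a) * va) ∧
  (∀ (n : ℕ) (x : Vec n) (c22 c20 c21 c11 c10 c12 c1m c02 c01 c00 : ℕ), (∀ j, |x j| ≤ 2) →
    cnt x 2 = c22 + c20 + c21 → cnt x 1 = c11 + c10 + c12 + c1m → cnt x 0 = c02 + c01 + c00 →
    ∀ (i : Fin n) (vi : ℤ),
    (∀ p q : ℤ, (if |x i| = p ∧ vi = q then 1 else 0) ≤
      pat c22 c20 c21 c11 c10 c12 c1m c02 c01 c00 p q) →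
    ∃ y : Vec n, y ∈ TD n (c22 + c12 + c02) (c11 + c1m + c21 + c01) ∧
      x - y ∈ TD n (c20 + c1m + c02) (c21 + c12 + c10 + c01) ∧ y i = sg (x i) * vi)

/-! ## Linearity on the orbits of type D -/

/-- ROW `LX1` (short). For `f` odd and additive on `O = TD n t s` and `x, y, x - y ∈ O`:
(1) if `y i = 0`, `(x - y) j = 0`, `i ≠ j`: `f x - f (flp i x) - f (flp j x) + f (flp i (flp j x)) = 0`.
Proof: with `z = x - y`: `f x = f y + f z`, `flp i x = y + flp i z`, `flp j x = flp j y + z`,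
`flp i (flp j x) = flp j y + flp i z`, all in `O` (row `CNT`); use additivity three more times.
(2) if `(x - y) i = 0`: `f x - f (flp i x) = f y - f (flp i y)`, since `flp i x = flp i y + z`.
(3) if `|x i| = |y i| ...` no condition at all: `f x - f (flp i x) = (f y - f (flp i y)) + (f z -
f (flp i z))`, since `flp i x = flp i y + flp i z`. Hypothesis: `hCNT : CNT_stmt`. -/
def LX1_stmt : Prop :=
  ∀ (n t s : ℕ) (M : Type) [AddCommGroup M] (f : Vec n → M), AddOn (TD n t s) f →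
    ∀ x ∈ TD n t s, ∀ y ∈ TD n t s, x - y ∈ TD n t s →
      (∀ i j, i ≠ j → y i = 0 → (x - y) j = 0 →
        f x - f (flp i x) - f (flp j x) + f (flp i (flp j x)) = 0) ∧
      (∀ i, (x - y) i = 0 → f x - f (flp i x) = f y - f (flp i y)) ∧
      (∀ i, f x - f (flp i x) = (f y - f (flp i y)) + (f (x - y) - f (flp i (x - y))))

/-- ROW `LX2` (short-medium). Let all mixed differences of `f` vanish on `O = TD n t s`. If
`x, y, x - y ∈ O`, `(x - y) i = 0`, `a, b ≠ i` and `|y a| = |y b|` then the difference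
`f x - f (flp i x)` does not change when `x` is replaced by `swp a b x`.
Proof. By `LX1` (2) it is `f y - f (flp i y)`, and the one of `swp a b x = swp a b y + swp a b (x - y)` is
the one of `swp a b y` (`swp a b` commutes with `flp i` and `(swp a b (x-y)) i = 0`). As
`|y a| = |y b|`, `swp a b y` is `y`, or `flp a (flp b y)` (when `y b = -y a`), or `y` when `a = b`. The
mixed differences `i, j` vanish for `j = a`, `j = b`, i.e. `f u - f (flp i u) = f (flp j u) -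
f (flp i (flp j u))`; use this for `u = y` and `u = flp b y`.
Hypotheses: `hCNT : CNT_stmt`, `hLX1 : LX1_stmt`. -/
def LX2_stmt : Prop :=
  ∀ (n t s : ℕ) (M : Type) [AddCommGroup M] (f : Vec n → M), AddOn (TD n t s) f →
    (∀ x ∈ TD n t s, ∀ i j, i ≠ j →
      f x - f (flp i x) - f (flp j x) + f (flp i (flp j x)) = 0) →
    ∀ x ∈ TD n t s, ∀ y ∈ TD n t s, x - y ∈ TD n t s → ∀ i a b, a ≠ i → b ≠ i → (x - y) i = 0 →
      |y a| = |y b| → f (swp a b x) - f (flp i (swp a b x)) = f x - f (flp i x)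

/-- ROW `LX3` (medium). Connectivity. `g` is a function on the elements `x ∈ O = TD n t s` with
`x i = w`, invariant under sign changes at `j ≠ i` and under the exchange of `a, b ≠ i` with
`|x a| = v`, `|x b| ≠ v`; and if `|x a|, |x b| ≠ v` are different (`a, b ≠ i`) there is `c ≠ i` with
`|x c| = v`. Then `g` is constant. Proof. (i) `g (swp a b x) = g x` for all `a, b ≠ i`: if
`|x a| = |x b|` then `swp a b x` is `x` or `flp a (flp b x)` (or `a = b`); if exactly one of them has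
absolute value `v`, hypothesis (`swp a b = swp b a`); if both are `≠ v` and different, take `c`
(`c ≠ a, b`) and note `swp a b x = swp b c (swp a b (swp c a x))`: the three steps exchange the values
(`c` has `|x c| = v`, `|x a| ≠ v`), then (at `a` the value of `c`, `|.| = v`, at `b` not `v`), then (at
`b` absolute value `v`, at `c` the old value of `a`). (ii) for `x, x' ∈ O` with `x i = x' i = w`:
induction on the number of `j` with `|x j| ≠ |x' j|`. If it is `0`, `x'` is obtained from `x` by sign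
changes at some `j ≠ i` (induction on the number of `j` with `x j ≠ x' j`). Otherwise take `a` with
`|x a| ≠ |x' a| =: u`; as `cnt x u = cnt x' u` (for `u = 0` by `CNT` (1)) there is `b` with `|x b| = u`,
`|x' b| ≠ u`; `a, b ≠ i`. Then `swp a b x` agrees in absolute value with `x'` at `a`, and the only other
changed coordinate `b` was a mismatch before; so the number of mismatches decreases.
Hypothesis: `hCNT : CNT_stmt`. -/
def LX3_stmt : Prop :=
  ∀ (n t s : ℕ) (M : Type) (g : Vec n → M) (i : Fin n) (w v : ℤ),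
    (∀ x ∈ TD n t s, x i = w → ∀ j, j ≠ i → g (flp j x) = g x) →
    (∀ x ∈ TD n t s, x i = w → ∀ a b, a ≠ i → b ≠ i → |x a| = v → |x b| ≠ v →
      g (swp a b x) = g x) →
    (∀ x ∈ TD n t s, x i = w → ∀ a b, a ≠ i → b ≠ i → |x a| ≠ v → |x b| ≠ v → |x a| ≠ |x b| →
      ∃ c, c ≠ i ∧ |x c| = v) →
    ∀ x ∈ TD n t s, ∀ x' ∈ TD n t s, x i = w → x' i = w → g x = g x'

/-- ROW `LX4` (short-medium). If `f` is odd on `O = TD n t s` and `f x - f (flp i x) = (2 x_i) T_i` for all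
`x ∈ O` and all `i` then `f x = ∑ x_i T_i`. Proof: for a finset `P` let `x^P` be `x` with the signs of the
coordinates in `P` changed. By induction on `P`: `x^P ∈ O` and `f x - f (x^P) = ∑_{i ∈ P} (2 x_i) T_i`
(`x^{insert i P} = flp i (x^P)`, `(x^P) i = x i` for `i ∉ P`). For `P = univ`: `x^P = -x`,
`f x - f (-x) = 2 f x`; divide by `2`. Hypothesis: `hCNT : CNT_stmt`. -/
def LX4_stmt : Prop :=
  ∀ (n t s : ℕ) (M : Type) [AddCommGroup M] [Module ℝ M] (f : Vec n → M) (T : Fin n → M),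
    (∀ x ∈ TD n t s, f (-x) = -f x) →
    (∀ x ∈ TD n t s, ∀ i, f x - f (flp i x) = (2 * (x i : ℝ)) • T i) →
    ∀ x ∈ TD n t s, f x = ∑ i, (x i : ℝ) • T i

/-- ROW `LX5` (medium, assembly of `LX1`-`LX4`). A criterion for linearity on `O = TD n t s`:
(h1) for all `x ∈ O`, `i ≠ j` in the support there is `y ∈ O`, `x - y ∈ O` with `y i = 0`,
`(x - y) j = 0` or vice versa; (h2) for all `x ∈ O`, `i` in the support, `a, b ≠ i` with
`|x a| = v (|x i|)`, `|x b| ≠ v (|x i|)` there is `y ∈ O`, `x - y ∈ O`, `(x - y) i = 0`, `|y a| = |y b|`;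
(h2') if `|x a|, |x b|` are different and both `≠ v (|x i|)` there is `c ≠ i` with `|x c| = v (|x i|)`;
(h3) if there are elements of `O` with `x i = 2` and with `x i = 1`, there are `x, y, x - y ∈ O` with
`x i = 2`, `y i = 1`. Then every odd additive `f` on `O` is linear on `O`.
Proof. The mixed difference `f x - f (flp i x) - f (flp j x) + f (flp i (flp j x))` is symmetric in
`i, j` (`flp` commute) and vanishes when `x i = 0` or `x j = 0` (`flp i x = x` then), otherwise by (h1)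
and `LX1`. So `D_i x := f x - f (flp i x)` is invariant under `flp j`, `j ≠ i`; by `LX2` and (h2) and
`LX3` (with `w = x i ≠ 0`, `v = v (|w|)`) `D_i x` depends only on `x i` for `x i ≠ 0`: values
`c i 1, c i 2` for `x i = 1, 2` (if such `x ∈ O` exist), and `D_i (flp i x) = -D_i x` gives the values at
`x i = -1, -2`. If both values `1, 2` occur then by (h3) and `LX1` (3) with `(x - y) i = 1`:
`c i 2 = c i 1 + c i 1`. Put `T i = (1/2) c i 1` if some `x ∈ O` has `x i = 1`, else `(1/4) c i 2` if some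
`x ∈ O` has `x i = 2`, else `0`. Then `D_i x = (2 x_i) T_i` for all `x ∈ O` (`x i = 0`: both sides `0`), and
`LX4`. Hypotheses: `hCNT : CNT_stmt`, `hLX1 : LX1_stmt`, `hLX2 : LX2_stmt`, `hLX3 : LX3_stmt`,
`hLX4 : LX4_stmt`. -/
def LX5_stmt : Prop :=
  ∀ (n t s : ℕ) (M : Type) [AddCommGroup M] [Module ℝ M] (f : Vec n → M) (v : ℤ → ℤ),
    AddOn (TD n t s) f →
    (∀ x ∈ TD n t s, ∀ i j, i ≠ j → x i ≠ 0 → x j ≠ 0 → ∃ y ∈ TD n t s, x - y ∈ TD n t s ∧
      ((y i = 0 ∧ (x - y) j = 0) ∨ (y j = 0 ∧ (x - y) i = 0))) →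
    (∀ x ∈ TD n t s, ∀ i a b, x i ≠ 0 → a ≠ i → b ≠ i → |x a| = v |x i| → |x b| ≠ v |x i| →
      ∃ y ∈ TD n t s, x - y ∈ TD n t s ∧ (x - y) i = 0 ∧ |y a| = |y b|) →
    (∀ x ∈ TD n t s, ∀ i a b, x i ≠ 0 → a ≠ i → b ≠ i → |x a| ≠ v |x i| → |x b| ≠ v |x i| →
      |x a| ≠ |x b| → ∃ c, c ≠ i ∧ |x c| = v |x i|) →
    (∀ i, (∃ x ∈ TD n t s, x i = 2) → (∃ x ∈ TD n t s, x i = 1) →
      ∃ x ∈ TD n t s, ∃ y ∈ TD n t s, x - y ∈ TD n t s ∧ x i = 2 ∧ y i = 1) →
    ∃ T : Fin n → M, ∀ x ∈ TD n t s, f x = ∑ i, (x i : ℝ) • T i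

/-- the conclusion of the linearity rows -/
def Lin (n t s : ℕ) : Prop :=
  ∀ (M : Type) [AddCommGroup M] [Module ℝ M] (f : Vec n → M), AddOn (TD n t s) f →
    ∃ T : Fin n → M, ∀ x ∈ TD n t s, f x = ∑ i, (x i : ℝ) • T i

/-- ROW `DL0` (short-medium). `O = TD n (2r) 0`, `r ≥ 1`, `n ≥ 4 r`. Apply `LX5` with `v = 2` (constant).
Pattern `(c22,c20,c21 | c11,c10,c12,c1m | c02,c01,c00) = (r,r,0 | 0,0,0,0 | r,0,n-3r)` (`PAT`; the zeros
of `x` are `n - 2r` by `CNT`). h1: `i` with normalized value `0`, `j` with `2`. h2: `|x a| = 2`,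
`|x b| = 0`: `i ↦ 2`, `a ↦ 0`, `b ↦ 0` (`n - 3r ≥ 1`). h2': both `0`, impossible. h3: `x i = 1` is
impossible as `cnt x 1 = 0`. (`sg (x i) * 2 = x i` when `|x i| = 2`.)
Hypotheses: `hCNT : CNT_stmt`, `hPAT : PAT_stmt`, `hLX5 : LX5_stmt`. -/
def DL0_stmt : Prop := ∀ n r : ℕ, 1 ≤ r → 4 * r ≤ n → Lin n (2 * r) 0

/-- ROW `DL1` (medium). `O = TD n (2r) 2`, `n ≥ 4 r + 2`, `n ≥ 4` (`r = 0` is allowed). Apply `LX5` with
`v 2 = 1`, `v 1 = 2` if `r ≥ 1`, `v 1 = 1` if `r = 0`. Pattern P1 = `(r,r,0 | 1,1,0,0 | r,1,n-3r-3)`.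
h1: two twos `i ↦ 0, j ↦ 2`; `i` two, `j` one: `i ↦ 0`, `j ↦ 1`; `i` one, `j` two: `i ↦ 0`, `j ↦ 2`; two
ones: `i ↦ 0`, `j ↦ 1`; all P1. h2, `i` two (`r ≥ 1`), `|x a| = 1`: `i ↦ 2` and (`|x b| = 2`: `a ↦ 0`,
`b ↦ 0`; `|x b| = 0`: `a ↦ 1`, `b ↦ 1`), P1. h2, `i` one, `r ≥ 1`, `|x a| = 2`: `i ↦ 1` and
(`|x b| = 0`: `a ↦ 2`, `b ↦ 2`; `|x b| = 1`: `a ↦ 0`, `b ↦ 0`), P1. h2, `i` one, `r = 0`: `|x a| = 1`,
`|x b| = 0` (no twos): `i ↦ 1`, `a ↦ 0`, `b ↦ 0` (`n - 3 ≥ 1`). h2': `i` two: a one exists (`cnt x 1 = 2`,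
it is `≠ i`); `i` one, `r ≥ 1`: a two exists; `r = 0`: both are `0`, impossible. h3: (`r ≥ 1` since a
two exists) for `x ∈ O` with `x i = 2` the pattern P2 = `(r-1,r,1 | 1,0,1,0 | r,0,n-3r-2)`, `i ↦ 1`.
Hypotheses: `hCNT : CNT_stmt`, `hPAT : PAT_stmt`, `hLX5 : LX5_stmt`. -/
def DL1_stmt : Prop := ∀ n r : ℕ, 4 * r + 2 ≤ n → 4 ≤ n → Lin n (2 * r) 2

/-- ROW `DL2` (medium). `O = TD n (2r) 4`, `r ≥ 1`, `n ≥ 4 r + 4`. `LX5` with `v 2 = 1`, `v 1 = 2`.
Patterns S = `(r-1,r,1 | 2,1,1,0 | r,1,n-3r-5)`, S' = `(r,r,0 | 1,1,1,1 | r-1,2,n-3r-5)`.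
h1 (all by S'): twos `i ↦ 0, j ↦ 2`; two `i ↦ 0`, one `j ↦ 1`; one `i ↦ 0`, two `j ↦ 2`; ones
`i ↦ 0`, `j ↦ 1`. h2, `i` two (`i ↦ 2`), `|x a| = 1`: `|x b| = 2`: `a ↦ 0`, `b ↦ 0` (S'); `|x b| = 0`:
`a ↦ 1`, `b ↦ 1` (S'). h2, `i` one (`i ↦ 1`), `|x a| = 2`: `|x b| = 0`: `a ↦ 1`, `b ↦ 1` (S);
`|x b| = 1`: `a ↦ 1`, `b ↦ 1` (S). h2': a one resp. a two exists. h3: S, `i ↦ 1`.
Hypotheses: `hCNT : CNT_stmt`, `hPAT : PAT_stmt`, `hLX5 : LX5_stmt`. -/
def DL2_stmt : Prop := ∀ n r : ℕ, 1 ≤ r → 4 * r + 4 ≤ n → Lin n (2 * r) 4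

/-- ROW `DL3` (medium). `O = TD n (2r+1) 2`, `n ≥ 4 r + 4`, `n ≥ 5`. `LX5` with `v 2 = 1`, `v 1 = 2` if
`r ≥ 1`, `v 1 = 0` if `r = 0`. Patterns Q1 = `(r,r,1 | 1,1,0,0 | r+1,0,n-3r-4)`,
Q2 = `(r,r+1,0 | 1,0,1,0 | r,1,n-3r-4)`, Q3 = `(r+1,r,0 | 0,1,0,1 | r,1,n-3r-4)`.
h1: two twos (then `r ≥ 1`): `i ↦ 0`, `j ↦ 2` (Q1); two `i ↦ 0`, one `j ↦ 1` (Q2); one `i`, two `j`: the
same with the roles exchanged (second alternative in h1); ones `i ↦ 0`, `j ↦ 1` (Q1).
h2, `i` two (`i ↦ 2`), `|x a| = 1`: `|x b| = 0`: `a ↦ -1`, `b ↦ 1` (Q3); `|x b| = 2` (then `r ≥ 1`):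
`a ↦ 0`, `b ↦ 0` (Q3). h2, `i` one (`i ↦ 1`), `r ≥ 1`, `|x a| = 2`: `|x b| = 0`: `a ↦ 2`, `b ↦ 2` (Q1);
`|x b| = 1`: `a ↦ 0`, `b ↦ 0` (Q1). h2, `i` one, `r = 0`, `|x a| = 0`: `|x b| = 2`: `a ↦ 0`, `b ↦ 0`
(Q2, `n - 4 ≥ 1`); `|x b| = 1`: `a ↦ 0`, `b ↦ 0` (Q1). h2': `i` two: a one exists; `i` one, `r ≥ 1`: a
two exists; `r = 0`: a zero exists (`n ≥ 5`). h3: Q1, `i ↦ 1`.
Hypotheses: `hCNT : CNT_stmt`, `hPAT : PAT_stmt`, `hLX5 : LX5_stmt`. -/
def DL3_stmt : Prop := ∀ n r : ℕ, 4 * r + 4 ≤ n → 5 ≤ n → Lin n (2 * r + 1) 2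

/-- ROW `K2L` (medium). The case `k = 2`, `n ≥ 4`: `f : Vec n → ℝ^m` has constant norm `N` on `VD n 2`,
adjacent vertices have inner product `N / 2`, `f` is odd on `TD n 1 0 = {±2 e_i}` and
`f (y - x) = f y - f x` for `x ∈ TD n 1 0`, `y ∈ VD n 2`, `x - y ∈ VD n 2`. Then `f` is linear on `VD n 2`.
Proof. `VD n 2 = TD n 1 0 ∪ TD n 0 4` (`4 t + s = 4`). Let `T i = (1/2) f (2 e_i)`; `f (-2 e_i) = -2 T i`.
For `x ∈ TD n 0 4` with `x i ≠ 0`, `X = 2 x_i e_i`: `x - X = flp i x`, `X - x ∈ VD n 2`, so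
`f (flp i x) = f x - f X`, `f x - f (flp i x) = 2 x_i T i`. As in `LX4` (telescoping)
`f x - f (-x) = 2 ∑ x_i T_i`, so with `E x = (f x + f (-x)) / 2`: `f x = ∑ x_i T_i + E x`, and
`E (flp i x) = E x` for `x i ≠ 0` (`f (flp i x) = f x - 2 x_i T_i`, `f (-(flp i x)) = f (flp i (-x)) =
f (-x) + 2 x_i T_i`). `dot (f x) (f X) = N / 2` for `X = 2 x_i e_i`: `dot (f x) (T i) = x_i N / 4`;
apply this to `x` and to `-x` (`f (-x) = -∑ x_j T_j + E x`): the difference gives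
`dot (∑ x_j T_j) (T i) = x_i N / 4`, the sum gives `dot (E x) (T i) = 0` for `i` in the support. Apply the
former to `x` and `flp j x`, `j ≠ i` in the support: `dot (T j) (T i) = 0`. With `dot (T i) (T i) = N / 4`
(the norm of `f (2 e_i)`): `|∑ x_i T_i|² = N`, and
`N = |f x|² = |∑ x_i T_i|² + |E x|²` (the mixed term vanishes), so `E x = 0`. Any two `i ≠ j` lie in the
support of some `x ∈ TD n 0 4` (`n ≥ 4`). Hypothesis: `hCNT : CNT_stmt`. -/
def K2L_stmt : Prop :=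
  ∀ (n m : ℕ) (N : ℝ) (f : Vec n → Fin m → ℝ), 4 ≤ n →
    (∀ x ∈ VD n 2, f x ⬝ᵥ f x = N) →
    (∀ x ∈ VD n 2, ∀ y ∈ VD n 2, x - y ∈ VD n 2 → f x ⬝ᵥ f y = N / 2) →
    (∀ x ∈ TD n 1 0, f (-x) = -f x) →
    (∀ x ∈ TD n 1 0, ∀ y ∈ VD n 2, x - y ∈ VD n 2 → f (y - x) = f y - f x) →
    ∃ T : Fin n → Fin m → ℝ, (∀ x ∈ VD n 2, f x = ∑ i, (x i : ℝ) • T i) ∧
      (∀ i, T i ⬝ᵥ T i = N / 4) ∧ ∀ i j, i ≠ j → T i ⬝ᵥ T j = 0

/-- ROW `PR4` (medium). `k = 4 r`, `r ≥ 1`, `n ≥ 4 r + 2`, `x ∈ TD n (2r-1) 4`, `w : Fin n → ℝ` with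
`∑ y_i w_i = K` for all `y ∈ TD n (2r) 0` with `x - y ∈ VD n (4r)`. Then `∑ x_i w_i = 2 K`.
Proof. Patterns (`PAT`) Y0 = `(r,r-1,0 | 0,4,0,0 | r,0,n-3r-3)` and
Y2 = `(r-1,r,0 | 0,2,2,0 | r-1,0,n-3r-2)`: in both cases `y ∈ TD n (2r) 0` and
`x - y ∈ TD n (2r-1) 4 ⊆ VD n (4r)`. (a) `w z = 0` when `x z = 0`: Y0 with `z ↦ 2` gives `y`, and
`flp z y` is admissible too (`x - flp z y = flp z (x - y)`), the difference of the two equations is
`4 w z = 0`. (b) for twos `p ≠ q`: Y0 (`r ≥ 2` here) with `p ↦ 2`, `q ↦ 0` gives `y`; the vector `y'`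
with `y' p = 0`, `y' q = x q` and otherwise equal to `y` is admissible; so `x_p w_p = x_q w_q`. (c) for
ones `p ≠ q`: Y2 with `p ↦ 2`, `q ↦ 0` and `y'` with `y' p = 0`, `y' q = 2 x_q`: `x_p w_p = x_q w_q`. Let
`x_p w_p = 2 A` for the twos and `= B` for the ones (if there is no two... there is at least one,
`2 r - 1 ≥ 1`). By (a) the equation for Y0 is `r * (2 A) = K` and for Y2
`(r-1) * (2 A) + 2 * (2 B) = K` (for a one with `y_p = 2 x_p`: `y_p w_p = 2 B`), so `4 B = 2 A` and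
`∑ x_i w_i = (2r-1) * 2 A + 4 B = 2 r * 2 A = 2 K`.
Hypotheses: `hCNT : CNT_stmt`, `hPAT : PAT_stmt`. -/
def PR4_stmt : Prop :=
  ∀ (n r : ℕ) (x : Vec n) (w : Fin n → ℝ) (K : ℝ), 1 ≤ r → 4 * r + 2 ≤ n → x ∈ TD n (2 * r - 1) 4 →
    (∀ y ∈ TD n (2 * r) 0, x - y ∈ VD n (4 * r) → ∑ i, (y i : ℝ) * w i = K) →
    ∑ i, (x i : ℝ) * w i = 2 * K

/-- ROW `DSM` (short-medium). A linear function of constant norm on `TD n t s` (`t + s ≥ 2`,
`t + s < n`) is a similarity. Proof. For `x ∈ O` write `F x = ∑ x_i T_i`. `F (flp i x) = F x - 2 x_i T_i`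
has the same norm: `x_i (dot (F x) (T i)) = x_i² dot (T i) (T i)`, so for `x i ≠ 0`
`∑_{j ≠ i} x_j dot (T j) (T i) = 0`. Apply it to `x` and `flp j x` with `x i, x j ≠ 0`, `i ≠ j`:
`dot (T j) (T i) = 0`; such `x ∈ O` exists for all `i ≠ j` (`t + s ≥ 2`, `t + s ≤ n`). Then
`∑ x_i² dot (T i) (T i) = N` for `x ∈ O`; for `i ≠ j` there is `x ∈ O` with `x i ≠ 0`, `x j = 0`
(`1 ≤ t + s < n`), and comparing with `swp i j x` gives `dot (T i) (T i) = dot (T j) (T j)`, say `= c`, and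
`(4 t + s) c = N`. The existence of `x ∈ O` with prescribed support elements: take
`x p = 2` for `p ∈ A`, `1` for `p ∈ B`, else `0`, with finsets `A, B` (`Finset.exists_subsuperset_card_eq`)
or use any element and exchange coordinates. Hypothesis: `hCNT : CNT_stmt`. -/
def DSM_stmt : Prop :=
  ∀ (n m t s : ℕ) (N : ℝ) (T : Fin n → Fin m → ℝ), 2 ≤ t + s → t + s < n →
    (∀ x ∈ TD n t s, (∑ i, (x i : ℝ) • T i) ⬝ᵥ (∑ i, (x i : ℝ) • T i) = N) →
    (∀ i, T i ⬝ᵥ T i = N / (4 * t + s)) ∧ ∀ i j, i ≠ j → T i ⬝ᵥ T j = 0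

/-! ## Type A -/

/-- ROW `ALP` (medium, from `EXT`). Patterns of type A: `x ∈ VA n k`, `q ≤ k`; there is `y ∈ VA n k` with
`x - y ∈ VA n k` and the numbers of coordinates `(x_i : y_i)`: `(1:1)` `q` times, `(1:0)` `k-q`,
`(-1:-1)` `k-q`, `(-1:0)` `q`, `(0:1)` `k-q`, `(0:-1)` `q`, `(0:0)` `n-3k`; and the values at four
(second statement: two) different coordinates can be prescribed when they fit in these numbers (`pA` is the function
of these numbers). `VA n k` is described by: entries in `{0, 1, -1}`, `k` entries `1`, `k` entries `-1`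
(prove this first). Apply `EXT` to the three sets of coordinates with `x_i = 1, -1, 0`.
Hypothesis: `hEXT : EXT_stmt`. -/
def pA (n k q : ℕ) (a b : ℤ) : ℕ :=
  if a = 1 then (if b = 1 then q else if b = 0 then k - q else 0)
  else if a = -1 then (if b = -1 then k - q else if b = 0 then q else 0)
  else if a = 0 then (if b = 1 then k - q else if b = -1 then q else if b = 0 then n - 3 * k else 0)
  else 0

def ALP_stmt : Prop :=
  (∀ (n k q : ℕ) (x : Vec n), q ≤ k → 3 * k ≤ n → x ∈ VA n k →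
    ∀ (i j l m : Fin n) (vi vj vl vm : ℤ), i ≠ j → i ≠ l → i ≠ m → j ≠ l → j ≠ m → l ≠ m →
    (∀ a b : ℤ, (if x i = a ∧ vi = b then 1 else 0) + (if x j = a ∧ vj = b then 1 else 0) +
      (if x l = a ∧ vl = b then 1 else 0) + (if x m = a ∧ vm = b then 1 else 0) ≤ pA n k q a b) →
    ∃ y ∈ VA n k, x - y ∈ VA n k ∧ y i = vi ∧ y j = vj ∧ y l = vl ∧ y m = vm) ∧
  (∀ (n k q : ℕ) (x : Vec n), q ≤ k → 3 * k ≤ n → x ∈ VA n k →
    ∀ (i j : Fin n) (vi vj : ℤ), i ≠ j →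
    (∀ a b : ℤ, (if x i = a ∧ vi = b then 1 else 0) + (if x j = a ∧ vj = b then 1 else 0) ≤
      pA n k q a b) →
    ∃ y ∈ VA n k, x - y ∈ VA n k ∧ y i = vi ∧ y j = vj)

/-- ROW `AL1` (medium). The differences for disjoint transpositions commute: for `f` odd and additive on
`V = VA n k`, `2 ≤ k`, `3 k ≤ n`, `(n, k) ≠ (6, 2)`, `x ∈ V`, four different coordinates:
`f x - f (swp i j x) - f (swp l m x) + f (swp i j (swp l m x)) = 0`.
Proof. It vanishes when `x i = x j` or `x l = x m` (`swp i j x = x`). Otherwise it is enough to find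
`y ∈ V` with `z = x - y ∈ V`, `y i = y j` and `z l = z m` (or `y l = y m` and `z i = z j`): then
`swp i j x = y + swp i j z`, `swp l m x = swp l m y + z`, `swp i j (swp l m x) = swp l m y + swp i j z`
(the swaps commute, `swp i j (swp l m y) = swp l m y` as `y i = y j`) and additivity. The statement is
symmetric under exchange of `i, j`, of `l, m`, of the pairs, and under `x ↦ -x` (`f` odd). With `ALP`,
values `(x_i, x_j), (x_l, x_m)` and `(x:y)`: `(1,-1),(1,-1)`: `q = 1`, `(1:0)(-1:0)(1:1)(-1:-1)`.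
`(1,-1),(1,0)`: `k ≥ 3`: `q = 1`, `(1:0)(-1:0)(1:0)(0:-1)`; `k = 2`, `n ≥ 7`: `q = 1`,
`(1:0)(-1:0)(1:1)(0:0)`. `(1,-1),(0,-1)`: `x ↦ -x`, or `k ≥ 3`: `q = 2`, `(1:0)(-1:0)(0:1)(-1:0)`;
`k = 2`: `q = 1`, `(1:0)(-1:0)(0:0)(-1:-1)`. `(1,0),(1,0)`: `q = 1`, `(1:1)(0:1)(1:0)(0:-1)`.
`(0,-1),(0,-1)`: `q = 1`, `(0:-1)(-1:-1)(0:1)(-1:0)`. `(1,0),(0,-1)`: `k ≥ 3`: `q = 1`,
`(1:1)(0:1)(0:1)(-1:0)`; `k = 2`: `q = 1`, `(1:1)(0:1)(0:0)(-1:-1)`.
Hypothesis: `hALP : ALP_stmt`. -/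
def AL1_stmt : Prop :=
  ∀ (n k : ℕ) (M : Type) [AddCommGroup M] (f : Vec n → M), 2 ≤ k → 3 * k ≤ n → ¬(n = 6 ∧ k = 2) →
    AddOn (VA n k) f → ∀ x ∈ VA n k, ∀ i j l m : Fin n, i ≠ j → i ≠ l → i ≠ m → j ≠ l → j ≠ m →
    l ≠ m → f x - f (swp i j x) - f (swp l m x) + f (swp i j (swp l m x)) = 0

/-- ROW `AL2` (medium). Connectivity of type A: a function `g` on the elements `x ∈ V = VA n k` with
`x i = u`, `x j = w` (`i ≠ j`) which is invariant under `swp l m` for `l, m ∉ {i, j}` is constant.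
Proof: for `x, x'` with the same values at `i, j` use induction on the number of `p` with
`x p ≠ x' p`: take such `a`, `x' a = c`; as `x, x'` have the same number of entries `c`, there is `b` with
`x b = c ≠ x' b`; replace `x` by `swp a b x`. -/
def AL2_stmt : Prop :=
  ∀ (n k : ℕ) (M : Type) (g : Vec n → M) (i j : Fin n) (u w : ℤ), i ≠ j →
    (∀ x ∈ VA n k, x i = u → x j = w → ∀ l m : Fin n, l ≠ m → l ≠ i → l ≠ j → m ≠ i → m ≠ j →
      g (swp l m x) = g x) →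
    ∀ x ∈ VA n k, ∀ x' ∈ VA n k, x i = u → x j = w → x' i = u → x' j = w → g x = g x'

/-- ROW `ALN` (medium, assembly of `AL1`, `AL2`). Every odd additive function on `VA n k` is linear,
`1 ≤ k`, `3 k ≤ n`, `(n, k) ≠ (6, 2)`. Proof. `k = 1` (`n ≥ 3`): `V = {e_i - e_j}`; put
`T i = f (e_i - e_0)` for `i ≠ 0`, `T 0 = 0`; `f (e_i - e_j) = f (e_i - e_0) - f (e_j - e_0)` by
additivity (`x = e_i - e_0`, `y = e_j - e_0`, `x - y = e_i - e_j`), the cases `i = 0` or `j = 0` by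
oddness. `k ≥ 2`: by `AL1` and `AL2` for `i ≠ j` the difference `D_ij x = f x - f (swp i j x)` depends only
on `(x i, x j)`. Write `F_ij (u, w)`. `F_ij (1,-1) = F_ij (1,0) + F_ij (0,-1)` (a triple
`x = y + z` with `(x:y) = (1:1)` at `i`, `(-1:0)` at `j`, `q = 1`) and `F_ij (1,0) = F_ij (0,-1)` (a triple
with `(1:1)` at `i`, `(0:1)` at `j`, `q = 1`: `D_ij x = D_ij y + D_ij z`, `D_ij y = 0`). With
`d_ij = F_ij (1,0)`: `F_ij (u, w) = (u - w) d_ij` for all `u, w ∈ {0, 1, -1}` (the remaining cases by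
`D_ij (swp i j x) = -D_ij x`, which gives also `d_ji = -d_ij`... precisely
`F_ji (w, u) = F_ij (u, w)` and `F_ij (w, u) = -F_ij (u, w)`). For three different `i, j, l`:
`d_ij + d_jl = d_il`: take `x` with `x i = 1`, `x j = x l = 0` (`n ≥ 3k`, `k ≥ 2`), then
`f x - f (swp i j x) = d_ij`, `f (swp i j x) - f (swp j l (swp i j x)) = d_jl`, and
`swp j l (swp i j x) = swp i l x` has the value `1` at `l` and `0` at `i, j`. Fix an index `o`, put
`T i = d_io` (`T o = 0`). Then `d_ij = T i - T j` and `g x = f x - ∑ x_i T_i` is invariant under all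
swaps, hence constant on `V` (connectivity by swaps as in `AL2`), and odd; `-x ∈ V`; so `g = 0`
(`M` is a real vector space). Hypotheses: `hALP : ALP_stmt`, `hAL1 : AL1_stmt`, `hAL2 : AL2_stmt`. -/
def ALN_stmt : Prop :=
  ∀ (n k : ℕ) (M : Type) [AddCommGroup M] [Module ℝ M] (f : Vec n → M), 1 ≤ k → 3 * k ≤ n →
    ¬(n = 6 ∧ k = 2) → AddOn (VA n k) f →
    ∃ T : Fin n → M, ∀ x ∈ VA n k, f x = ∑ i, (x i : ℝ) • T i

/-- ROW `ASM` (medium). A linear function of constant norm `N` on `VA n k` (`1 ≤ k`, `3 k ≤ n`) is a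
similarity on the vectors of sum zero: `|∑ u_i T_i|² = (N / (2 k)) ∑ u_i²` when `∑ u_i = 0`.
Proof. Write `B (u, v) = dot (∑ u_i T_i) (∑ v_i T_i)` for `u, v` of sum zero.
`k = 1`: `B (e_i - e_j, e_i - e_j) = N`, and `B (e_i - e_j, e_i - e_l) = N / 2` from the norm of the
difference `e_l - e_j`, so `B (e_i - e_j, e_l - e_m) = 0`; these give the claim. In general: for `x ∈ V`
with `x i = 1`, `x j = 0`: `|F x|² = |F (swp i j x)|²`, so `dot (F x + F (swp i j x)) (T i - T j) = 0`.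
Apply this to `x` and `x' = swp l m x` with `l, m ∉ {i, j}`, `x l = 1`, `x m = 0` (`k ≥ 2`, `n ≥ 3 k`):
`dot (T l - T m) (T i - T j) = 0` for all different `i, j, l, m`. Hence
`dot (T i - T j) (T i - T l) =: b i` does not depend on `j, l` (`i, j, l` different; `n ≥ 5`), and
`|T i - T j|² = b i + b j` (`T i - T j = (T i - T l) - (T j - T l)`,
`dot (T i - T j) (T i - T l) - dot (T i - T j) (T j - T l) = b i + b j`). So for `∑ u_i = 0`:
`|∑ u_i T_i|² = ∑ u_i² b_i` (subtract `T o ∑ u_i = 0`; `|∑_{i ≠ o} u_i (T i - T o)|² =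
∑_{i ≠ o} u_i² (b i + b o) + ∑_{i ≠ j} u_i u_j b o`). The norm of `F x`, `x ∈ V`, is `∑ x_i² b_i = N`;
exchanging a nonzero and a zero coordinate gives `b i = b j`; so `b i = N / (2 k)`. -/
def ASM_stmt : Prop :=
  ∀ (n m k : ℕ) (N : ℝ) (T : Fin n → Fin m → ℝ), 1 ≤ k → 3 * k ≤ n →
    (∀ x ∈ VA n k, (∑ i, (x i : ℝ) • T i) ⬝ᵥ (∑ i, (x i : ℝ) • T i) = N) →
    ∀ u : Fin n → ℝ, ∑ i, u i = 0 →
      (∑ i, u i • T i) ⬝ᵥ (∑ i, u i • T i) = N / (2 * k) * ∑ i, u i * u i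

/-- ROW `NED` (short-medium). Graphs without edges. (1) If `x, y, x - y ∈ VA n k`, `1 ≤ k`, then
`3 k ≤ n`. Proof: let `p` be the number of coordinates with `(x_i : y_i) = (1 : 1)`. `x_i y_i ≠ -1`
(otherwise `|x_i - y_i| = 2`). The supports of the positive part of `x`, the negative part of `x` and
...: count: `dp x y = k` (`VA_dp`), so `|supp x ∩ supp y| = k` and `|supp x ∪ supp y| = 2k + 2k - k = 3k ≤ n`.
(2) If `x, y, x - y ∈ VD n k`, `1 ≤ k`, then (`k % 4 = 0` and `k ≤ n`) or (`k % 2 = 1` and `k + 1 ≤ n`) or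
(`k % 4 = 2` and `k + 2 ≤ n`). Proof. Let `t` be the number of entries `±2` of `x`, `t ≤ k/2` as
`4 t + s = 2 k`; `2 t + s = 2 k - 2 t ≤ n`, so `n ≥ k`, and `n ≥ k + 1` when `k` is odd (`t ≤ (k-1)/2`).
Let `k % 4 = 2`. `k` even and `n ≤ k + 1` imply `2 t ≥ k - 1`, so `t = k/2`, `s = 0` for all three
vectors `x, y, x - y`: all entries are even, `x = 2 x'`, `y = 2 y'`, `dp x y = 4 dp x' y' = k`,
contradiction with `k % 4 = 2`. Hypothesis: `hCNT : CNT_stmt`. -/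
def NED_stmt : Prop :=
  (∀ (n k : ℕ) (x y : Vec n), 1 ≤ k → x ∈ VA n k → y ∈ VA n k → x - y ∈ VA n k → 3 * k ≤ n) ∧
  (∀ (n k : ℕ) (x y : Vec n), 1 ≤ k → x ∈ VD n k → y ∈ VD n k → x - y ∈ VD n k →
    (k % 4 = 0 ∧ k ≤ n) ∨ (k % 2 = 1 ∧ k + 1 ≤ n) ∨ (k % 4 = 2 ∧ k + 2 ≤ n))

end Pool.Agent.SOL
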