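import Pool.Agent.helper20.SOL.Spec

/-!
# Project sol (MP_cad530_co), block 2: the vertex numbers of `Γ(E_6, k)`, `Γ(E_7, k)`, `Γ(E_8, k)`.

Doubled coordinates: the lattice `E_8` is `EL` (integer vectors with all entries of the same parity and
sum divisible by `4`), the roots have `dp x x = 8`, inner products are `0, ±4, ±8`. `E_7` is the
orthogonal complement of `(0,0,0,0,0,0,2,2)`, `E_6` that of `(0,0,0,0,0,0,2,2)` and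
`(0,0,0,0,0,2,-2,0)`: the last three coordinates of its vectors are `a, a, -a`.

Same conventions as in `Spec.lean`: file `Pool/Agent/<seat>/SOL/XX.lean`,
`import Pool.Agent.helper20.SOL.SpecE`, namespace `Pool.Agent.SOL`, `theorem XX (hyps) : XX_stmt`.
-/

set_option autoImplicit false

namespace Pool.Agent.SOL

open Pool.Agent.helper54.SOG Finset

open scoped BigOperators

/-- the lattice `E_8` in doubled coordinates -/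
def EL : Set (Vec 8) := {x | (∀ i j, x i % 2 = x j % 2) ∧ (∑ i, x i) % 4 = 0}

/-- the vectors of norm `8 k` in the doubled lattices -/
def XE8 (k : ℕ) : Set (Vec 8) := {x | x ∈ EL ∧ dp x x = 8 * k}

def XE7 (k : ℕ) : Set (Vec 8) := {x | x ∈ EL ∧ x 6 + x 7 = 0 ∧ dp x x = 8 * k}

def XE6 (k : ℕ) : Set (Vec 8) := {x | x ∈ EL ∧ x 6 + x 7 = 0 ∧ x 5 = x 6 ∧ dp x x = 8 * k}

/-- the roots -/
def R8 : Set (Vec 8) := XE8 1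

def R7 : Set (Vec 8) := XE7 1

def R6 : Set (Vec 8) := XE6 1

/-- sums of `k` mutually orthogonal elements of `P` -/
def VE (P : Set (Vec 8)) (k : ℕ) : Set (Vec 8) :=
  {x | ∃ S : Finset (Vec 8), S.card = k ∧ (∀ a ∈ S, a ∈ P) ∧
    (∀ a ∈ S, ∀ b ∈ S, a ≠ b → dp a b = 0) ∧ ∑ a ∈ S, a = x}

/-- number of the first `N` coordinates with absolute value `v` -/
def cN (N : ℕ) (x : Vec 8) (v : ℤ) : ℕ := (univ.filter fun i : Fin 8 => i.val < N ∧ |x i| = v).card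

/-- product of the first `N` coordinates -/
def pN (N : ℕ) (x : Vec 8) : ℤ := ∏ i ∈ univ.filter (fun i : Fin 8 => i.val < N), x i

/-- ROW `SOE` (short-medium). In the root systems `R8, R7, R6` distinct roots `a ≠ b` are strongly
orthogonal iff `dp a b = 0`; so `sosSums R k = VE R k`. Proof. (i) `dp a b` is divisible by `4` for
`a, b ∈ EL`: polarize, `2 dp a b = dp (a+b) (a+b) - dp a a - dp b b` and `8 ∣ dp x x` for `x ∈ EL`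
(even entries `x = 2 y`: `∑ y` is even, so `∑ y²` is even; odd entries: each `x_i²` is `1` mod `8`, the
sum of eight is `0` mod `8`). (ii) `|dp a b| ≤ 8` for roots, with equality only for `a = ±b`
(`dp (a ∓ b) (a ∓ b) ≥ 0`, `eq_zero_of_dp`). (iii) if `dp a b = 4` then `a - b` is a root, if
`dp a b = -4` then `a + b` is a root (`dp_sub_sub`; `EL` and the linear conditions are closed under
`±`), if `dp a b = -8` then `a + b = 0`. Conversely if `dp a b = 0` then `a ± b` have norm `16`. -/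
def SOE_stmt : Prop :=
  ∀ k : ℕ, sosSums R8 k = VE R8 k ∧ sosSums R7 k = VE R7 k ∧ sosSums R6 k = VE R6 k

/-- ROW `ELB` (short). Basic facts. (1) `EL` is closed under `+`, `-`, negation; (2) `dp a b % 4 = 0`
and `dp a a % 8 = 0` for `a, b ∈ EL`; (3) `VE P k` for `P = R8, R7, R6` is contained in `XE8 k`, `XE7 k`,
`XE6 k` (norm of a sum of orthogonal vectors), (4) `x ∈ VE P k → -x ∈ VE P k` for these `P`
(negate the summands), (5) `VE R7 k ⊆ VE R8 k`, `VE R6 k ⊆ VE R7 k`. See the hints in `SOE`. -/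
def ELB_stmt : Prop :=
  (∀ a b : Vec 8, a ∈ EL → b ∈ EL → a + b ∈ EL ∧ a - b ∈ EL ∧ -a ∈ EL) ∧
  (∀ a b : Vec 8, a ∈ EL → b ∈ EL → dp a b % 4 = 0 ∧ dp a a % 8 = 0) ∧
  (∀ (k : ℕ) (x : Vec 8), (x ∈ VE R8 k → x ∈ XE8 k) ∧ (x ∈ VE R7 k → x ∈ XE7 k) ∧
    (x ∈ VE R6 k → x ∈ XE6 k)) ∧
  (∀ (k : ℕ) (x : Vec 8), (x ∈ VE R8 k → -x ∈ VE R8 k) ∧ (x ∈ VE R7 k → -x ∈ VE R7 k) ∧
    (x ∈ VE R6 k → -x ∈ VE R6 k)) ∧
  (∀ (k : ℕ) (x : Vec 8), (x ∈ VE R7 k → x ∈ VE R8 k) ∧ (x ∈ VE R6 k → x ∈ VE R7 k))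

/-- ROW `CLQ` (short). A list of mutually orthogonal roots gives a vertex: the elements of the list are
different (`dp a a = 8 ≠ 0`, so `L.Nodup`), take `S = L.toFinset`. -/
def CLQ_stmt : Prop :=
  ∀ (P : Set (Vec 8)) (L : List (Vec 8)), (∀ a ∈ L, a ∈ P ∧ dp a a = 8) →
    L.Pairwise (fun a b => dp a b = 0) → L.sum ∈ VE P L.length

/-- ROW `REP` (medium). Invariance under the permutations and the even sign changes of the first `N`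
coordinates, `(P, N) = (R8, 8), (R7, 6), (R6, 5)`: if `x, y` agree in the coordinates `≥ N`, have the
same numbers of absolute values and the same product in the first `N` coordinates, then
`y ∈ VE P k` implies `x ∈ VE P k`. Proof. There is a permutation `σ` of the first `N` coordinates (fixing
the others) with `|x i| = |y (σ i)|` (equal fibre sizes), so `x i = ε i * y (σ i)` with signs `ε i`
(`ε i = 1` for `i ≥ N`). If all `y i ≠ 0`, `i < N`, then the product of the `ε i` is `1` as the products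
agree; if some `y (σ i) = 0`, `i < N`, `ε i` can be changed, so the product of the `ε i` is `1` in any
case. The map `g : z ↦ (i ↦ ε i * z (σ i))` is linear, injective, preserves `dp`, and maps `P` to `P`:
parity, norm and the last coordinates are clear, and the sum changes by `∑ (ε i - 1) z (σ i) =
-2 ∑_{ε i = -1} z (σ i)`, an even number of entries of the same parity, so a multiple of `4`. Take the
image of `S` under `g`. -/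
def REP_stmt : Prop :=
  ∀ (k : ℕ) (x y : Vec 8),
    ((∀ v : ℤ, cN 8 x v = cN 8 y v) → pN 8 x = pN 8 y → y ∈ VE R8 k → x ∈ VE R8 k) ∧
    ((∀ i : Fin 8, 6 ≤ i.val → x i = y i) → (∀ v : ℤ, cN 6 x v = cN 6 y v) → pN 6 x = pN 6 y →
      y ∈ VE R7 k → x ∈ VE R7 k) ∧
    ((∀ i : Fin 8, 5 ≤ i.val → x i = y i) → (∀ v : ℤ, cN 5 x v = cN 5 y v) → pN 5 x = pN 5 y →
      y ∈ VE R6 k → x ∈ VE R6 k)

/-- ROW `CTE` (short-medium). Counting identities: if `|x i| ≤ 8` for all `i` and `N ≤ 8` then the sum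
of `cN N x v` over `v = 0..8` is `N`, the sum of the first `N` squares is `∑ v² cN N x v`, all the other
`cN N x v` vanish, and `dp x x` is the sum of the first `N` squares plus the rest. -/
def CTE_stmt : Prop :=
  ∀ (N : ℕ) (x : Vec 8), N ≤ 8 → (∀ i, |x i| ≤ 8) →
    ∑ v ∈ range 9, cN N x (v : ℤ) = N ∧
    ∑ i ∈ univ.filter (fun i : Fin 8 => i.val < N), x i * x i =
      ∑ v ∈ range 9, ((v : ℤ) * v) * cN N x (v : ℤ) ∧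
    (∀ v : ℤ, (v < 0 ∨ 8 < v) → cN N x v = 0) ∧
    dp x x = ∑ i ∈ univ.filter (fun i : Fin 8 => i.val < N), x i * x i +
      ∑ i ∈ univ.filter (fun i : Fin 8 => ¬ i.val < N), x i * x i

/-- ROW `PRD` (short-medium). Products: for `x ∈ EL` with odd entries the product of all eight entries
is `1` mod `4` (`∑ x_i ≡ 8 - 2 #{x_i ≡ 3 mod 4} ≡ 0 mod 4`). Hence two vectors `x, y ∈ EL` with odd
entries, equal coordinates `≥ N` (`N = 8, 6, 5`) and equal numbers `cN N x v = cN N y v` for all `v` have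
`pN N x = pN N y` (the absolute values of the products agree, as they are products of `v ^ cN N x v`, and
both are odd with the same residue mod `4`). Second statement: if the numbers agree and some entry among
the first `N` is `0` in `x` then `pN N x = pN N y = 0`; third: if the numbers agree then
`pN N x = pN N y` or `pN N x = -pN N y`. -/
def PRD_stmt : Prop :=
  (∀ (N : ℕ) (x y : Vec 8), (N = 8 ∨ N = 6 ∨ N = 5) → x ∈ EL → y ∈ EL → x 0 % 2 = 1 →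
    (∀ i : Fin 8, N ≤ i.val → x i = y i) → (∀ v : ℤ, cN N x v = cN N y v) → pN N x = pN N y) ∧
  (∀ (N : ℕ) (x y : Vec 8), (∀ v : ℤ, cN N x v = cN N y v) → 0 < cN N x 0 →
    pN N x = 0 ∧ pN N y = 0) ∧
  (∀ (N : ℕ) (x y : Vec 8), (∀ v : ℤ, cN N x v = cN N y v) → pN N x = pN N y ∨ pN N x = -pN N y)

/-- ROWS `ME8a`, `ME8b`, `ME8c` (medium each). All vectors of norm `8 k` in `EL` are sums of `k`
orthogonal roots: `k = 1, 2, 3` (`ME8a`), `k = 4, 5` (`ME8b`), `k = 6` (`ME8c`). Proof. Let `x ∈ XE8 k`.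
`x_i² ≤ 48`, so `|x i| ≤ 6` and `CTE` with `N = 8` gives the possible numbers: even entries:
`c0 + c2 + c4 + c6 = 8`, `4 c2 + 16 c4 + 36 c6 = 8 k`; odd entries: `c1 + c3 + c5 = 8`,
`c1 + 9 c3 + 25 c5 = 8 k` (`omega` enumerates the solutions). They are the numbers of the
representatives below (for even entries without zeros, `k = 4`, both signs of the product occur);
`pN` agrees by `PRD`, so `REP` reduces to the representative, and the listed roots with `CLQ` finish.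
Representatives and their decompositions (doubled coordinates), `ME8a`:
`(2 2 0 0 0 0 0 0)`: (2 2 0 0 0 0 0 0).
`(1 1 1 1 1 1 1 1)`: (1 1 1 1 1 1 1 1).
`(2 2 2 2 0 0 0 0)`: (2 2 0 0 0 0 0 0), (0 0 2 2 0 0 0 0).
`(4 0 0 0 0 0 0 0)`: (2 2 0 0 0 0 0 0), (2 -2 0 0 0 0 0 0).
`(3 1 1 1 1 1 1 -1)`: (2 2 0 0 0 0 0 0), (1 -1 1 1 1 1 1 -1).
`(2 2 2 2 2 2 0 0)`: (2 2 0 0 0 0 0 0), (0 0 2 2 0 0 0 0), (0 0 0 0 2 2 0 0).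
`(4 2 2 0 0 0 0 0)`: (2 0 0 2 0 0 0 0), (2 0 0 -2 0 0 0 0), (0 2 2 0 0 0 0 0).
`(3 3 1 1 1 1 1 1)`: (2 0 2 0 0 0 0 0), (0 2 0 2 0 0 0 0), (1 1 -1 -1 1 1 1 1).
Hypotheses: `hREP : REP_stmt`, `hCTE : CTE_stmt`, `hPRD : PRD_stmt`, `hCLQ : CLQ_stmt`. -/
def ME8a_stmt : Prop := ∀ k : ℕ, 1 ≤ k → k ≤ 3 → ∀ x ∈ XE8 k, x ∈ VE R8 k

/-- see `ME8a`. Representatives:
`(2 2 2 2 2 2 2 2)`: (2 2 0 0 0 0 0 0), (0 0 2 2 0 0 0 0), (0 0 0 0 2 2 0 0), (0 0 0 0 0 0 2 2).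
`(2 2 2 2 2 2 2 -2)`: (2 2 0 0 0 0 0 0), (0 0 2 2 0 0 0 0), (0 0 0 0 2 2 0 0), (0 0 0 0 0 0 2 -2).
`(4 2 2 2 2 0 0 0)`: (2 0 0 0 0 2 0 0), (2 0 0 0 0 -2 0 0), (0 2 2 0 0 0 0 0), (0 0 0 2 2 0 0 0).
`(4 4 0 0 0 0 0 0)`: (2 0 2 0 0 0 0 0), (2 0 -2 0 0 0 0 0), (0 2 0 2 0 0 0 0), (0 2 0 -2 0 0 0 0).
`(3 3 3 1 1 1 1 -1)`: (2 0 0 2 0 0 0 0), (0 2 0 0 2 0 0 0), (0 0 2 0 0 2 0 0), (1 1 1 -1 -1 -1 1 -1).
`(5 1 1 1 1 1 1 1)`: (2 -2 0 0 0 0 0 0), (1 1 1 1 1 1 -1 -1), (1 1 1 1 -1 -1 1 1), (1 1 -1 -1 1 1 1 1).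
`(4 2 2 2 2 2 2 0)`: (2 0 0 0 0 0 0 2), (2 0 0 0 0 0 0 -2), (0 2 2 0 0 0 0 0), (0 0 0 2 2 0 0 0), (0 0 0 0 0 2 2 0).
`(4 4 2 2 0 0 0 0)`: (2 0 0 0 2 0 0 0), (2 0 0 0 -2 0 0 0), (0 2 0 0 0 2 0 0), (0 2 0 0 0 -2 0 0), (0 0 2 2 0 0 0 0).
`(6 2 0 0 0 0 0 0)`: (2 -2 0 0 0 0 0 0), (1 1 1 1 1 1 1 1), (1 1 1 1 -1 -1 -1 -1), (1 1 -1 -1 1 1 -1 -1), (1 1 -1 -1 -1 -1 1 1).
`(3 3 3 3 1 1 1 1)`: (2 0 0 0 2 0 0 0), (0 2 0 0 0 2 0 0), (0 0 2 0 0 0 2 0), (0 0 0 2 0 0 0 2), (1 1 1 1 -1 -1 -1 -1).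
`(5 3 1 1 1 1 1 -1)`: (2 0 -2 0 0 0 0 0), (0 2 0 2 0 0 0 0), (1 1 1 -1 1 1 -1 1), (1 1 1 -1 -1 -1 1 -1), (1 -1 1 1 1 1 1 -1). -/
def ME8b_stmt : Prop := ∀ k : ℕ, 4 ≤ k → k ≤ 5 → ∀ x ∈ XE8 k, x ∈ VE R8 k

/-- see `ME8a`. Representatives:
`(4 4 2 2 2 2 0 0)`: (2 0 0 0 0 0 2 0), (2 0 0 0 0 0 -2 0), (0 2 0 0 0 0 0 2), (0 2 0 0 0 0 0 -2), (0 0 2 2 0 0 0 0), (0 0 0 0 2 2 0 0).
`(6 2 2 2 0 0 0 0)`: (2 -2 0 0 0 0 0 0), (0 0 2 2 0 0 0 0), (1 1 1 -1 1 1 1 -1), (1 1 1 -1 -1 -1 -1 1), (1 1 -1 1 1 1 -1 1), (1 1 -1 1 -1 -1 1 -1).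
`(4 4 4 0 0 0 0 0)`: (2 0 0 2 0 0 0 0), (2 0 0 -2 0 0 0 0), (0 2 0 0 2 0 0 0), (0 2 0 0 -2 0 0 0), (0 0 2 0 0 2 0 0), (0 0 2 0 0 -2 0 0).
`(3 3 3 3 3 1 1 -1)`: (2 0 0 0 0 2 0 0), (0 2 0 0 0 0 2 0), (0 0 2 0 0 0 0 -2), (1 1 -1 1 1 -1 -1 -1), (1 -1 1 1 1 -1 1 1), (-1 1 1 1 1 1 -1 1).
`(5 3 3 1 1 1 1 1)`: (2 0 0 -2 0 0 0 0), (0 2 0 0 2 0 0 0), (0 0 2 0 0 2 0 0), (1 1 1 1 -1 -1 -1 -1), (1 1 -1 1 -1 1 1 1), (1 -1 1 1 1 -1 1 1). -/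
def ME8c_stmt : Prop := ∀ x ∈ XE8 6, x ∈ VE R8 6

/-- ROW `ME8d` (medium). `VE R8 8 = 2 XE8 2`. `⊇`: the vectors `x = y + y` with `y ∈ XE8 2` (norm `64`):
`y` has the numbers of `(2 2 2 2 0 0 0 0)`, `(4 0 ... 0)` or `(3 1 1 1 1 1 1 -1)`, so `x` those of
`(4 4 4 4 0 0 0 0)`, `(8 0 ... 0)`, `(6 2 2 2 2 2 2 -2)` (in the last case `pN 8 x = 2^8 pN 8 y` agrees
with that of the representative by `PRD` for `y`). Decompositions: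
`(6 2 2 2 2 2 2 -2)`: (2 -2 0 0 0 0 0 0), (0 0 2 2 0 0 0 0), (0 0 0 0 2 2 0 0), (0 0 0 0 0 0 2 -2), (1 1 1 -1 1 -1 1 1), (1 1 1 -1 -1 1 -1 -1), (1 1 -1 1 1 -1 -1 -1), (1 1 -1 1 -1 1 1 1).
`(4 4 4 4 0 0 0 0)`: (2 0 0 0 2 0 0 0), (2 0 0 0 -2 0 0 0), (0 2 0 0 0 2 0 0), (0 2 0 0 0 -2 0 0), (0 0 2 0 0 0 2 0), (0 0 2 0 0 0 -2 0), (0 0 0 2 0 0 0 2), (0 0 0 2 0 0 0 -2).
`(8 0 0 0 0 0 0 0)`: (1 1 1 1 1 1 1 1), (1 1 1 1 -1 -1 -1 -1), (1 1 -1 -1 1 1 -1 -1), (1 1 -1 -1 -1 -1 1 1), (1 -1 1 -1 1 -1 1 -1), (1 -1 1 -1 -1 1 -1 1), (1 -1 -1 1 1 -1 -1 1), (1 -1 -1 1 -1 1 1 -1).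
`⊆`: let `x = ∑ β_i`, eight orthogonal roots. They are a basis of the real space, so for every root `β`:
`∑ (dp β β_i)² = 8 * 8` (Parseval: the `8 × 8` matrix `B` of the `β_i` has `B Bᵀ = 8`, so `Bᵀ B = 8`,
`|B β|² = 8 |β|²`), with `dp β β_i = 4 e_i`: `∑ e_i² = 4`, so `∑ e_i` is even and `8 ∣ dp β x`. With
`β = 2 e_i ± 2 e_j` (`4 ∣ x_i ± x_j`, so `x_i` is even and `x_i ≡ x_j mod 4`) and `β = (1,...,1)`
(`8 ∣ ∑ x_i`) we get `x = 2 y`, `y ∈ EL`. Hypotheses: `hREP`, `hCTE`, `hPRD`, `hCLQ`, `hELB : ELB_stmt`. -/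
def ME8d_stmt : Prop := ∀ x : Vec 8, x ∈ VE R8 8 ↔ ∃ y ∈ XE8 2, x = y + y

/-- ROWS `ME7a`, `ME7b`, `ME7c` (medium each). All vectors of norm `8 k` in the `E_7` lattice are sums of
`k` orthogonal roots of `R7`: `k = 1, 2, 3` (`ME7a`), `k = 4` (`ME7b`), `k = 5` (`ME7c`). Proof. As `ME8a`,
with `N = 6`, `x = (x_0, ..., x_5, a, -a)`. By `ELB` (4) one may assume `a ≥ 0` (`-x` has the same numbers
`cN 6` and the same `pN 6`). `dp x x = ∑_{i<6} x_i² + 2 a²`, so `a² ≤ 4 k` and for each `a` the numbers of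
`(x_0, ..., x_5)` (entries of the parity of `a`) are solutions of
`∑ c_v = 6`, `∑ v² c_v = 8 k - 2 a²`, `v ≤ 6` (`omega`). Representatives, `ME7a`:
`(2 2 0 0 0 0 0 0)`: (2 2 0 0 0 0 0 0).
`(1 1 1 1 1 -1 1 -1)`: (1 1 1 1 1 -1 1 -1).
`(0 0 0 0 0 0 2 -2)`: (0 0 0 0 0 0 2 -2).
`(2 2 2 2 0 0 0 0)`: (2 2 0 0 0 0 0 0), (0 0 2 2 0 0 0 0).
`(4 0 0 0 0 0 0 0)`: (2 2 0 0 0 0 0 0), (2 -2 0 0 0 0 0 0).
`(3 1 1 1 1 1 1 -1)`: (2 2 0 0 0 0 0 0), (1 -1 1 1 1 1 1 -1).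
`(2 2 0 0 0 0 2 -2)`: (2 2 0 0 0 0 0 0), (0 0 0 0 0 0 2 -2).
`(2 2 2 2 2 2 0 0)`: (2 2 0 0 0 0 0 0), (0 0 2 2 0 0 0 0), (0 0 0 0 2 2 0 0).
`(2 2 2 2 2 -2 0 0)`: (2 2 0 0 0 0 0 0), (0 0 2 2 0 0 0 0), (0 0 0 0 2 -2 0 0).
`(4 2 2 0 0 0 0 0)`: (2 0 0 2 0 0 0 0), (2 0 0 -2 0 0 0 0), (0 2 2 0 0 0 0 0).
`(3 3 1 1 1 -1 1 -1)`: (2 0 2 0 0 0 0 0), (0 2 0 2 0 0 0 0), (1 1 -1 -1 1 -1 1 -1).
`(2 2 2 2 0 0 2 -2)`: (2 2 0 0 0 0 0 0), (0 0 2 2 0 0 0 0), (0 0 0 0 0 0 2 -2).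
`(4 0 0 0 0 0 2 -2)`: (2 2 0 0 0 0 0 0), (2 -2 0 0 0 0 0 0), (0 0 0 0 0 0 2 -2).
`(1 1 1 1 1 -1 3 -3)`: (1 1 1 1 -1 1 1 -1), (1 1 -1 -1 1 -1 1 -1), (-1 -1 1 1 1 -1 1 -1).
Hypotheses: `hREP`, `hCTE`, `hPRD`, `hCLQ`, `hELB`. -/
def ME7a_stmt : Prop := ∀ k : ℕ, 1 ≤ k → k ≤ 3 → ∀ x ∈ XE7 k, x ∈ VE R7 k

/-- see `ME7a`. Representatives:
`(4 2 2 2 2 0 0 0)`: (2 0 0 0 0 2 0 0), (2 0 0 0 0 -2 0 0), (0 2 2 0 0 0 0 0), (0 0 0 2 2 0 0 0).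
`(4 4 0 0 0 0 0 0)`: (2 0 2 0 0 0 0 0), (2 0 -2 0 0 0 0 0), (0 2 0 2 0 0 0 0), (0 2 0 -2 0 0 0 0).
`(3 3 3 1 1 1 1 -1)`: (2 0 0 2 0 0 0 0), (0 2 0 0 2 0 0 0), (0 0 2 0 0 2 0 0), (1 1 1 -1 -1 -1 1 -1).
`(5 1 1 1 1 -1 1 -1)`: (2 -2 0 0 0 0 0 0), (1 1 1 1 1 -1 -1 1), (1 1 1 1 -1 1 1 -1), (1 1 -1 -1 1 -1 1 -1).
`(2 2 2 2 2 2 2 -2)`: (2 2 0 0 0 0 0 0), (0 0 2 2 0 0 0 0), (0 0 0 0 2 2 0 0), (0 0 0 0 0 0 2 -2).
`(2 2 2 2 2 -2 2 -2)`: (2 2 0 0 0 0 0 0), (0 0 2 2 0 0 0 0), (0 0 0 0 2 -2 0 0), (0 0 0 0 0 0 2 -2).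
`(4 2 2 0 0 0 2 -2)`: (2 0 0 2 0 0 0 0), (2 0 0 -2 0 0 0 0), (0 2 2 0 0 0 0 0), (0 0 0 0 0 0 2 -2).
`(3 1 1 1 1 1 3 -3)`: (2 2 0 0 0 0 0 0), (1 -1 1 1 -1 -1 1 -1), (1 -1 -1 -1 1 1 1 -1), (-1 1 1 1 1 1 1 -1).
`(0 0 0 0 0 0 4 -4)`: (1 1 1 1 1 -1 1 -1), (1 1 -1 -1 -1 1 1 -1), (-1 -1 1 1 -1 1 1 -1), (-1 -1 -1 -1 1 -1 1 -1). -/
def ME7b_stmt : Prop := ∀ x ∈ XE7 4, x ∈ VE R7 4

/-- see `ME7a`. Representatives:
`(4 4 2 2 0 0 0 0)`: (2 0 0 0 2 0 0 0), (2 0 0 0 -2 0 0 0), (0 2 0 0 0 2 0 0), (0 2 0 0 0 -2 0 0), (0 0 2 2 0 0 0 0).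
`(6 2 0 0 0 0 0 0)`: (2 -2 0 0 0 0 0 0), (1 1 1 1 1 -1 1 -1), (1 1 1 1 -1 1 -1 1), (1 1 -1 -1 1 -1 -1 1), (1 1 -1 -1 -1 1 1 -1).
`(3 3 3 3 1 -1 1 -1)`: (2 0 0 0 2 0 0 0), (0 2 0 0 0 -2 0 0), (1 1 1 1 -1 1 -1 1), (1 -1 1 1 -1 -1 1 -1), (-1 1 1 1 1 1 1 -1).
`(5 3 1 1 1 1 1 -1)`: (2 0 -2 0 0 0 0 0), (0 2 0 2 0 0 0 0), (1 1 1 -1 1 1 -1 1), (1 1 1 -1 -1 -1 1 -1), (1 -1 1 1 1 1 1 -1).
`(4 2 2 2 2 0 2 -2)`: (2 0 0 0 0 2 0 0), (2 0 0 0 0 -2 0 0), (0 2 2 0 0 0 0 0), (0 0 0 2 2 0 0 0), (0 0 0 0 0 0 2 -2).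
`(4 4 0 0 0 0 2 -2)`: (2 0 2 0 0 0 0 0), (2 0 -2 0 0 0 0 0), (0 2 0 2 0 0 0 0), (0 2 0 -2 0 0 0 0), (0 0 0 0 0 0 2 -2).
`(3 3 1 1 1 -1 3 -3)`: (2 0 2 0 0 0 0 0), (0 2 0 2 0 0 0 0), (1 1 -1 -1 -1 1 1 -1), (1 -1 -1 1 1 -1 1 -1), (-1 1 1 -1 1 -1 1 -1).
`(2 2 0 0 0 0 4 -4)`: (2 2 0 0 0 0 0 0), (1 -1 1 1 1 1 1 -1), (1 -1 -1 -1 -1 -1 1 -1), (-1 1 1 1 -1 -1 1 -1), (-1 1 -1 -1 1 1 1 -1). -/
def ME7c_stmt : Prop := ∀ x ∈ XE7 5, x ∈ VE R7 5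

/-- ROW `ME6a` (medium). The same for `E_6`, `k = 1, 2, 3`: `N = 5`, `x = (x_0, ..., x_4, a, a, -a)`,
`dp x x = ∑_{i<5} x_i² + 3 a²`. No reduction to `a ≥ 0` is needed (the table lists both signs).
Representatives:
`(1 1 1 1 1 -1 -1 1)`: (1 1 1 1 1 -1 -1 1).
`(2 2 0 0 0 0 0 0)`: (2 2 0 0 0 0 0 0).
`(1 1 1 1 -1 1 1 -1)`: (1 1 1 1 -1 1 1 -1).
`(2 0 0 0 0 -2 -2 2)`: (1 1 1 1 1 -1 -1 1), (1 -1 -1 -1 -1 -1 -1 1).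
`(3 1 1 1 -1 -1 -1 1)`: (2 2 0 0 0 0 0 0), (1 -1 1 1 -1 -1 -1 1).
`(2 2 2 2 0 0 0 0)`: (2 2 0 0 0 0 0 0), (0 0 2 2 0 0 0 0).
`(4 0 0 0 0 0 0 0)`: (2 2 0 0 0 0 0 0), (2 -2 0 0 0 0 0 0).
`(3 1 1 1 1 1 1 -1)`: (2 2 0 0 0 0 0 0), (1 -1 1 1 1 1 1 -1).
`(2 0 0 0 0 2 2 -2)`: (1 1 1 1 -1 1 1 -1), (1 -1 -1 -1 1 1 1 -1).
`(2 2 2 0 0 -2 -2 2)`: (2 2 0 0 0 0 0 0), (1 -1 1 1 -1 -1 -1 1), (-1 1 1 -1 1 -1 -1 1).
`(3 3 1 1 1 -1 -1 1)`: (2 0 2 0 0 0 0 0), (0 2 0 2 0 0 0 0), (1 1 -1 -1 1 -1 -1 1).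
`(4 2 2 0 0 0 0 0)`: (2 0 0 2 0 0 0 0), (2 0 0 -2 0 0 0 0), (0 2 2 0 0 0 0 0).
`(3 3 1 1 -1 1 1 -1)`: (2 0 2 0 0 0 0 0), (0 2 0 2 0 0 0 0), (1 1 -1 -1 -1 1 1 -1).
`(2 2 2 0 0 2 2 -2)`: (2 2 0 0 0 0 0 0), (1 -1 1 1 1 1 1 -1), (-1 1 1 -1 -1 1 1 -1).
Hypotheses: `hREP`, `hCTE`, `hPRD`, `hCLQ`. -/
def ME6a_stmt : Prop := ∀ k : ℕ, 1 ≤ k → k ≤ 3 → ∀ x ∈ XE6 k, x ∈ VE R6 k

/-- ROW `ME6b` (medium). `VE R6 4 = 2 R6`, and `VE R6 k` is empty for `k ≥ 5`. `⊇`: `x = y + y`, `y ∈ R6`: `y` has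
the numbers of `(2 2 0 0 0; 0)` or `(1 1 1 1 ±1; a)`, `a = ±1`. Decompositions:
`(2 2 2 2 2 -2 -2 2)`: (2 2 0 0 0 0 0 0), (0 0 2 2 0 0 0 0), (1 -1 1 -1 1 -1 -1 1), (-1 1 -1 1 1 -1 -1 1).
`(4 4 0 0 0 0 0 0)`: (2 0 2 0 0 0 0 0), (2 0 -2 0 0 0 0 0), (0 2 0 2 0 0 0 0), (0 2 0 -2 0 0 0 0).
`(2 2 2 2 -2 2 2 -2)`: (2 2 0 0 0 0 0 0), (0 0 2 2 0 0 0 0), (1 -1 1 -1 -1 1 1 -1), (-1 1 -1 1 -1 1 1 -1).
`⊆` and emptiness: a computation in the kernel with the list of the `72` roots (as lists of eight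
integers or as numbers): for all roots `a`, all roots `b` orthogonal to `a`, all roots `c` orthogonal to
`a, b` (there are `72 * 30 * 12` triples), the roots orthogonal to `a, b, c` are two, `±d`, and
`a + b + c ± d` has even entries with half of it in `EL`; five mutually orthogonal roots do not exist as
`d, -d` are not orthogonal. (By the reflections or by `REP`-like symmetry the first root can be fixed, but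
it is not necessary.) Hypotheses: `hREP`, `hCTE`, `hPRD`, `hCLQ`. -/
def ME6b_stmt : Prop :=
  (∀ x : Vec 8, x ∈ VE R6 4 ↔ ∃ y ∈ R6, x = y + y) ∧ ∀ k : ℕ, 5 ≤ k → VE R6 k = ∅

/-- ROW `EMP` (short-medium). More than `8` (resp. `7`) mutually orthogonal nonzero vectors do not exist
in the real space of dimension `8` (resp. in the hyperplane `x 6 + x 7 = 0`; or: together with
`(0,0,0,0,0,0,2,2)` they would be more than `8`). -/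
def EMP_stmt : Prop := (∀ k : ℕ, 9 ≤ k → VE R8 k = ∅) ∧ ∀ k : ℕ, 8 ≤ k → VE R7 k = ∅

/-- ROW `NE77` (short-medium). `Γ(E_7, 7)` has no edges. Let `x, y, x - y ∈ VE R7 7` and
`e = (0,0,0,0,0,0,2,2)`. Then `x + e` is a sum of eight orthogonal roots of `R8` (`e` is orthogonal to `R7`),
so `x + e = 2 u`, `y + e = 2 v` with `u, v ∈ EL` (`ME8d`). `dp x y = 28` (norms `56`), so
`4 dp u v = dp (x + e) (y + e) = 28 + 8 = 36`, `dp u v = 9`, not divisible by `4`. Hypotheses: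
`hME8d : ME8d_stmt`, `hELB : ELB_stmt`. -/
def NE77_stmt : Prop := ∀ x ∈ VE R7 7, ∀ y ∈ VE R7 7, x - y ∉ VE R7 7

/-- ROW `CE8` (medium). The numbers of vectors of norm `8 k` in `EL`. Proof: count the integer vectors of
length `n` with all entries of the parity `p`, square sum `m` and sum `≡ c mod 4` by recursion on `n`
(`Fin.cons`): `D p (n+1) m c = ∑_{j ≡ p, |j| ≤ 7, j² ≤ m} D p n (m - j²) (c - j)`, and evaluate with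
`decide +kernel` (use naturals or lists to be fast; for speed split `8 = 4 + 4`, or use the closed
formula `n! / ∏ c_v! * 2^(n - c_0)` for the number of vectors with given numbers `c_v` of entries of
absolute value `v`, half of it for odd entries with the condition on the sum mod `4`). For `k = 1..6` the
types are those of the representatives in `ME8a`, `ME8b`, `ME8c`: `240 = 112 + 128`,
`2160 = 1120 + 16 + 1024`, `6720 = 1792 + 1344 + 3584`, `17520 = 256 + 8960 + 112 + 7168 + 1024`,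
`30240 = 7168 + 6720 + 224 + 8960 + 7168`, `60480 = 26880 + 4480 + 448 + 7168 + 21504`. -/
def CE8_stmt : Prop :=
  (XE8 1).ncard = 240 ∧ (XE8 2).ncard = 2160 ∧ (XE8 3).ncard = 6720 ∧ (XE8 4).ncard = 17520 ∧
    (XE8 5).ncard = 30240 ∧ (XE8 6).ncard = 60480

/-- ROW `CE7` (medium). The same for `E_7`: `x = (x_0, ..., x_5, a, -a)`: sum over `a` of the numbers of
`y ∈ ℤ^6` with entries of the parity of `a`, square sum `8 k - 2 a²`, sum `≡ 0 mod 4`. -/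
def CE7_stmt : Prop :=
  (XE7 1).ncard = 126 ∧ (XE7 2).ncard = 756 ∧ (XE7 3).ncard = 2072 ∧ (XE7 4).ncard = 4158 ∧
    (XE7 5).ncard = 7560 ∧ (XE7 6).ncard = 11592

/-- ROW `CE6` (short-medium). The same for `E_6`: `x = (x_0, ..., x_4, a, a, -a)`: sum over `a` of the
numbers of `y ∈ ℤ^5` with entries of the parity of `a`, square sum `8 k - 3 a²`, sum `≡ -a mod 4`. -/
def CE6_stmt : Prop := (XE6 1).ncard = 72 ∧ (XE6 2).ncard = 270 ∧ (XE6 3).ncard = 720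

/-- ROW `LE87` (medium-long). `60480 < |VE R8 7| < ∞`. Finite: `⊆ XE8 7`. Lower bound: the vectors of `EL`
with the numbers of one of the following representatives are in `VE R8 7` (`REP`, `PRD`, `CLQ`), and there
are `10752 + 17920 + 35840 = 64512` of them (`8 * C(7,5) * 2^6`, `C(8,3) * C(5,2) * 2^5`,
`8 * C(7,3) * 2^7`; count as in `CE8`, e.g. by a recursion on the length for vectors with given numbers
of absolute values).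
`(6 2 2 2 2 2 0 0)`: (2 -2 0 0 0 0 0 0), (0 0 2 2 0 0 0 0), (0 0 0 0 2 2 0 0), (1 1 1 -1 1 -1 1 1), (1 1 1 -1 -1 1 -1 -1), (1 1 -1 1 1 -1 -1 -1), (1 1 -1 1 -1 1 1 1).
`(4 4 4 2 2 0 0 0)`: (2 0 0 0 0 2 0 0), (2 0 0 0 0 -2 0 0), (0 2 0 0 0 0 2 0), (0 2 0 0 0 0 -2 0), (0 0 2 0 0 0 0 2), (0 0 2 0 0 0 0 -2), (0 0 0 2 2 0 0 0).
`(5 3 3 3 1 1 1 -1)`: (2 0 0 0 -2 0 0 0), (0 2 0 0 0 2 0 0), (0 0 2 0 0 0 2 0), (0 0 0 2 0 0 0 -2), (1 1 1 -1 1 -1 -1 -1), (1 1 -1 1 1 -1 1 1), (1 -1 1 1 1 1 -1 1).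
Hypotheses: `hREP`, `hCTE`, `hPRD`, `hCLQ`, `hELB`. -/
def LE87_stmt : Prop := 60480 < (VE R8 7).ncard

/-- ROW `LE76` (medium-long). `7560 < |VE R7 6|`. The vectors with the numbers of the following
representatives (`a = ±1, ±2, ±3`) are in `VE R7 6`, and there are `2 (1920 + 1440 + 640) = 8000` of them.
`(5 3 3 1 1 -1 1 -1)`: (2 0 0 -2 0 0 0 0), (0 2 0 0 2 0 0 0), (0 0 2 0 0 -2 0 0), (1 1 1 1 -1 1 -1 1), (1 1 -1 1 -1 -1 1 -1), (1 -1 1 1 1 1 1 -1).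
`(4 4 2 2 0 0 2 -2)`: (2 0 0 0 2 0 0 0), (2 0 0 0 -2 0 0 0), (0 2 0 0 0 2 0 0), (0 2 0 0 0 -2 0 0), (0 0 2 2 0 0 0 0), (0 0 0 0 0 0 2 -2).
`(3 3 3 1 1 1 3 -3)`: (2 0 0 2 0 0 0 0), (0 2 0 0 2 0 0 0), (0 0 2 0 0 2 0 0), (1 1 -1 -1 -1 1 1 -1), (1 -1 1 -1 1 -1 1 -1), (-1 1 1 1 -1 -1 1 -1).
Hypotheses: `hREP`, `hCTE`, `hPRD`, `hCLQ`, `hELB`. -/
def LE76_stmt : Prop := 7560 < (VE R7 6).ncard

end Pool.Agent.SOL
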