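import Pool.Agent.helper20.SOL.AD7
import Pool.Agent.helper1.SOL.SpecN

/-!
# Project sol (MP_cad530_co), part P: pairs of generic graphs of types B and C, and the special graphs of
type B against simply laced targets

Every row: file `Pool/Agent/<seat>/SOL/XX.lean`, `import Pool.Agent.helper20.SOL.SpecP`, namespace
`Pool.Agent.SOL`, `theorem XX (hypotheses in the order of the docstring) : XX_stmt`, auxiliary lemmas
prefixed with the row name (`XX_...`). Useful lemmas: `Iso`, `Iso.symm`, `Iso.ncard` (AD7), `Tgt`, `OutD`,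
`rank_orth`, `norm_comb`, `cv_dot`, `exists_perm`, `std`, `std_mem`, `TD_perm`, `exists_ne_fin` (AD1, AD3),
`hyp`, `sum_cv`, `VA_perm`, `VA_swp` (AD4), `align`, `align_mul`, `l1_of_TD` (AD5), `dp_sub_sub`,
`up_mem`, `up_surj`, `up_of_mem` (Basic).
-/

set_option autoImplicit false

namespace Pool.Agent.SOL

open Finset

open scoped BigOperators

/-- (proved by helper20, `helper20/SOL/GSO.lean`) generic type D with any vertex set between the non
isolated vertices and all vertices -/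
def GSO_stmt : Prop :=
  ∀ (n k d ρ m r : ℕ) (S : Set (Vec n)) (S' : Set (Vec d)), GenD n k → S ⊆ VD n k →
    NI (VD n k) ⊆ S → (∀ x ∈ S, -x ∈ S) → Tgt S' ρ m r → Iso S S' →
    k ∣ m ∧ n ≤ r ∧ ∃ T : Fin n → Fin d → ℝ, OutD n k S' ρ m T

/-- ROW `NSB` (short-medium). The even non isolated vertices of `Γ(B_n, k)`.
(1) `EvB n k ⊆ VD n k` (`BDN` (2)). (2) `NI (VD n k) ⊆ EvB n k`: `x, y, x - y ∈ VD n k ⊆ VB n k` and
`dp x x = 2 k`. (3) symmetric. (4) closed under adjacent differences: `dp (x-y) (x-y) = 2 k` by `SHB` (1) and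
`x - y` is adjacent to `x` (`(x - y) - x = -y`). (5) for generic pairs it is the set `NS`: if `x ∈ NS` then
`dp x x` is `2 k` or `2 k - 1`, and the second is impossible by `PB`; conversely an edge at an even vertex
is sharp (`SHB` (3): `y - x ∈ SS`), so it is not an empty edge. (6) `Tgt (EvB n k) 2 k n`: constant norm
`2 k`, `dp (a - b) (a - b) = 4 k - 2 dp a b`, rank `⊤` (compare `VD_tgt` in `AD1`).
Hypotheses: `hBTY : BTY_stmt`, `hBDN : BDN_stmt`, `hSHB : SHB_stmt`, `hPB : PB_stmt`. -/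
def NSB_stmt : Prop :=
  ∀ n k : ℕ, 1 ≤ k →
    EvB n k ⊆ VD n k ∧ NI (VD n k) ⊆ EvB n k ∧ (∀ x ∈ EvB n k, -x ∈ EvB n k) ∧
    (∀ x ∈ EvB n k, ∀ y ∈ EvB n k, x - y ∈ VB n k → x - y ∈ EvB n k) ∧
    (GenB n k → NS (VB n k) = EvB n k) ∧ Tgt (EvB n k) 2 k n

/-- ROW `NSC` (short-medium). The set `NS` for generic graphs of type C. Let `P = NS (VC n k)`.
(1) `P = {x | x ∈ NI (VC n k) ∧ x ∈ TD n k 0}`: `⊆` by `PC` (a vertex outside of `TD n k 0` has an empty edge);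
`⊇`: edges at `x ∈ TD n k 0` are sharp (`SHC`), so not empty. (2) symmetric. (3) closed under adjacent
differences (`SHC`, second part; `x - y` is adjacent to `x`). (4) `Tgt P 4 k n`: for `x ∈ TD n k 0` all entries
are `0, ±2` and `dp x x = 4 k` (`BTY` (3)), the entries of `a - b` are even, so `4 ∣ dp (a-b) (a-b)`.
Hypotheses: `hBTY : BTY_stmt`, `hSHC : SHC_stmt`, `hPC : PC_stmt`. -/
def NSC_stmt : Prop :=
  ∀ n k : ℕ, GenC n k →
    NS (VC n k) = {x | x ∈ NI (VC n k) ∧ x ∈ TD n k 0} ∧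
    (∀ x ∈ NS (VC n k), -x ∈ NS (VC n k)) ∧
    (∀ x ∈ NS (VC n k), ∀ y ∈ NS (VC n k), x - y ∈ VC n k → x - y ∈ NS (VC n k)) ∧
    Tgt (NS (VC n k)) 4 k n

/-- ROW `NSI` (short). Isomorphisms restrict to the sets `NS`. `RST` with `P = NS S`, `P' = NS S'` and `SYA` (4);
`NS S` is symmetric for symmetric `S` (`EE S x y` iff `EE S (-x) (-y)`: `z ∈ SS S x y` iff
`-z ∈ SS S (-x) (-y)`). Hypotheses: `hSYA : SYA_stmt`, `hRST : RST_stmt`. -/
def NSI_stmt : Prop :=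
  ∀ (n m : ℕ) (S : Set (Vec n)) (S' : Set (Vec m)), Sy S → Sy S' →
    (∀ x ∈ NS S, ∀ y ∈ NS S, x - y ∈ S → x - y ∈ NS S) →
    (∀ x ∈ NS S', ∀ y ∈ NS S', x - y ∈ S' → x - y ∈ NS S') → Iso S S' → Iso (NS S) (NS S')

/-- ROW `PBB` (short-medium). Two generic graphs of type B. By `NSI`, `NSB` an isomorphism gives
`Iso (EvB n k) (EvB n' k')`. `GenB` implies `GenD` except for `(2,1)`, `(3,1)`, `(4,3)` (omega). If `GenD n k` then
`GSO` (source `EvB n k`, target `EvB n' k'`, `NSB` (1), (2), (3), (6)) gives `k ∣ k'` and `n ≤ n'`; in the same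
way with the roles exchanged. Both `GenD`: equal. `GenD n' k'` and `(n, k)` exceptional: `k' ∣ k`, `n' ≤ n`
and `4 ≤ n'` leave only `n = 4, k = 3, n' = 4, k' = 1`, but `|VB 4 1| = 32`, `|VB 4 3| = 144` (`NMB`, `Iso.ncard`).
Both exceptional: `|VB| = 8, 18, 144`. Hypotheses: `hBTY : BTY_stmt`, `hNSB : NSB_stmt`,
`hNSI : NSI_stmt`, `hGSO : GSO_stmt`, `hNMB : NMB_stmt`. -/
def PBB_stmt : Prop :=
  ∀ n k n' k' : ℕ, GenB n k → GenB n' k' → Iso (VB n k) (VB n' k') → n = n' ∧ k = k'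

/-- ROW `BC1` (short-medium). Small generic graphs of type B against generic type C, by numbers. An isomorphism
gives `Iso (EvB n k) (NS (VC n' k'))` (`NSI`, `NSB`, `NSC`), so `|EvB n k| ≤ |TD n' k' 0|` (finite by `CRD`), and
`|VB n k| = |VC n' k'|`. `k = 1`: `|VB n 1| = 2 n²`, and `TD n 0 2 ⊆ EvB n 1`: for `x = σ e_i + τ e_j` the
vector `y = σ e_i` satisfies `y, x - y ∈ VB n 1` (dp `1`, `l1 ≤ n`); so `|EvB n 1| ≥ |TD n 0 2| = 2 n (n-1)`
(`CRD`: `C(n,2) * 4`). `k' ≥ 2`: `5 |TD n' k' 0| ≤ |VC n' k'| = 2 n²` (`NMC` (4)), so `10 n (n-1) ≤ 2 n²`,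
impossible for `n ≥ 2`. `k' = 1`: `2 n'² = 2 n²`, `n = n' ≥ 3` and `2 n (n-1) ≤ |TD n 1 0| = 2 n`, impossible.
`(n, k) = (4, 3)`: `|VB 4 3| = 144` (`NMB`), `TD 4 1 2 ⊆ EvB 4 3`: for `x` with `|x p| = 2`, `|x i| = |x j| = 1` the
vector `y` with `y p = x p`, `y i = -x i`, `y j = 0` and zero otherwise (the pattern
`(1, 0, 0 | 0, 1, 0, 1 | 0, 0, 1)` in `PAT`) and `x - y` are in `TD 4 1 1 ⊆ VB 4 3` (`BTY`); so
`|EvB 4 3| ≥ |TD 4 1 2| = 96` (`CRD`). `k' ≥ 2`: `5 * 96 ≤ 144`, impossible. `k' = 1`: `2 n'² = 144`,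
impossible. Hypotheses: `hCNT : CNT_stmt`, `hPAT : PAT_stmt`, `hBTY : BTY_stmt`, `hCRD : CRD_stmt`,
`hNSB : NSB_stmt`, `hNSC : NSC_stmt`, `hNSI : NSI_stmt`, `hNMB : NMB_stmt`, `hNMC : NMC_stmt`. -/
def BC1_stmt : Prop :=
  ∀ n k n' k' : ℕ, ((k = 1 ∧ 2 ≤ n) ∨ (n = 4 ∧ k = 3)) → GenC n' k' → ¬ Iso (VB n k) (VC n' k')

/-- ROW `BC2` (medium). Generic type D maps cannot go to a target with entries `0, ±2`. Let `S'` be a set of
vectors in `TD d m 0` (entries `0, ±2`), and `T` as in `OutD` with `ρ m > 0`, `k ≥ 2`, `n ≥ 4`. Contradiction: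
`T_i - T_j` and `T_i + T_j` (`i ≠ j`) have entries in `2ℤ` (fields `sub`, `add`), so `2 T_i` has entries in
`2ℤ`, the entries of `T_i` are integers and for a fixed coordinate `c` all `T_i c` have the same parity. Let
`v j` be the integer `T_j c`. Case `v j` odd for all `j`: field `lone` (`t, s` with `3 ≤ 2 t + s`,
`t + s ≤ n`), `x ∈ TD n t s` with signs such that `x_j v_j = |x_j| |v_j|` (`std`, `align`, `align_mul`): then
`∑ x_j v_j ≥ ∑ |x_j| = 2 t + s ≥ 3` (`l1_of_TD`), but it is an entry of an element of `S'`, so `≤ 2`. Case all `v j`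
even and `v i ≠ 0` for some `i`: field `two` (`t ≥ 1`), `x ∈ TD n t s` with `|x i| = 2` (move the coordinate with
`exists_perm` / `Equiv.swap` and `TD_perm`) and aligned signs: `∑ x_j v_j ≥ |x_i| |v_i| ≥ 4 > 2`. So all
`T_i = 0`, contradicting the field `norm` (`T_i · T_i = ρ m / (2 k) > 0`). Compare `spec_gen` in `AD5`.
No hypotheses. -/
def BC2_stmt : Prop :=
  ∀ (n k d m' ρ m : ℕ) (S' : Set (Vec d)) (T : Fin n → Fin d → ℝ), 4 ≤ n → 2 ≤ k → 0 < ρ → 0 < m →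
    (∀ x ∈ S', x ∈ TD d m' 0) → ¬ OutD n k S' ρ m T

/-- ROW `CCO` (medium). Generic type C: the linear map. Let `ψ` be an isomorphism of `S = VC n k` and
`S' = VC n' k'`. By `SYA` (4) and `NSC` (1) `up ψ` maps `TD n k 0` to `TD n' k' 0`: every `x ∈ TD n k 0` has
`GPr S x` (`GCC`), so it is non isolated and in `NS S`. `ODG` with `GCC` (the edges of `S'` at `up ψ x` and
`up ψ (-x)`, elements of `TD n' k' 0`, are sharp by `SHC`): `up ψ (-x) = -up ψ x`, so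
`odp ψ x = cv (up ψ x)` for `x ∈ TD n k 0`. By `THS` (`S` finite by `BTY`) and `GLC` there is `T` with
`cv (up ψ x) = ∑ x_i T_i` on `TD n k 0`. `DSM` (`t = k`, `s = 0`, `k < n`): `T_i · T_i = 4 k' / (4 k) = k'/k`, and
`T_i · T_j = 0`. For `i ≠ j` take `x ∈ TD n k 0` with `x i = 2`, `x j = 0` (compare `hex` in `specD_out` of
`AD3`), `x' = swp i j x`: `2 (T_i - T_j) = cv (up ψ x) - cv (up ψ x') = 2 u` with `u` integral;
`∑ u = (∑ up ψ x - ∑ up ψ x') / 2` is even, since each half sum is a sum of `k'` signs, so it is `≡ k' mod 2`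
(or: `u_c ≡ u_c²` and `dp u u = (dp a a + dp b b - 2 dp a b)/4 = 2 k' - dp a b / 2`, with `a = 2 a'`,
`b = 2 b'`, `dp u u = dp a' a' + dp b' b' - 2 dp a' b' = 2 k' - 2 dp a' b'` is even). So `dp u u = 2 k'/k` is
even: `k ∣ k'`. `n ≤ n'`: the `T_i` are nonzero and orthogonal in `ℝ^{n'}` (`rank_orth` with `W = ⊤`).
Hypotheses: `hCNT : CNT_stmt`, `hDSM : DSM_stmt`, `hBTY : BTY_stmt`, `hSYA : SYA_stmt`,
`hTHS : THS_stmt`, `hODG : ODG_stmt`, `hSHC : SHC_stmt`, `hGLC : GLC_stmt`, `hGCC : GCC_stmt`,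
`hNSC : NSC_stmt`. -/
def CCO_stmt : Prop :=
  ∀ n k n' k' : ℕ, 2 ≤ k → GenC n k → GenC n' k' → Iso (VC n k) (VC n' k') → k ∣ k' ∧ n ≤ n'

/-- ROW `HUL` (medium). A nonempty set `U` of vertices of `Γ(D_n, k)` (`Γ(A_{n-1}, k)`) which contains with a
vertex all vertices of the same degree spans everything. The maps `flp i`, `swp i j` (type D) and the
permutations of coordinates (type A) preserve the vertex set and the degree `(NB V z).ncard`
(`NB V (g z) = g '' NB V z`, `g` injective and linear), so `U` is closed under them. Type D: let `z ∈ U`; `z ≠ 0`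
(norm `2 k > 0`), `z i ≠ 0`; `z - flp i z = 2 z_i e_i`, so `e_i` is in the span; `swp i j z` has the entry
`z i ≠ 0` at `j`, so `e_j` is in the span for all `j`. Type A: `z ∈ U` has an entry `1` and an entry `-1`; for
`a ≠ b` a permutation (`exists_perm`, `VA_perm`) gives `z' ∈ U` with `z' a = 1`, `z' b = -1`, and
`z' - swp a b z' = 2 (e_a - e_b)`; every vector with sum zero is a combination of the `e_a - e_b`
(`z = ∑ z_a (e_a - e_b)` for a fixed `b`). No hypotheses (or `hCNT : CNT_stmt` for `VD` closed under `flp`,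
`swp`; please take it as hypothesis). -/
def HUL_stmt : Prop :=
  (∀ (n k : ℕ) (U : Set (Vec n)), 0 < k → U ⊆ VD n k → U.Nonempty →
    (∀ z ∈ U, ∀ z' ∈ VD n k, (NB (VD n k) z').ncard = (NB (VD n k) z).ncard → z' ∈ U) →
    ∀ z ∈ VD n k, cv z ∈ Submodule.span ℝ (cv '' U)) ∧
  (∀ (n k : ℕ) (U : Set (Vec n)), 0 < k → U ⊆ VA n k → U.Nonempty →
    (∀ z ∈ U, ∀ z' ∈ VA n k, (NB (VA n k) z').ncard = (NB (VA n k) z).ncard → z' ∈ U) →
    ∀ z ∈ VA n k, cv z ∈ Submodule.span ℝ (cv '' U))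

/-- ROW `STN` (medium). The special graphs of type B have no isomorphisms to graphs of simply laced systems.
Let `κ ≥ 2`, `n = 2 κ + 1`, `S = VB n (2 κ)`, `S'` symmetric of constant norm `N > 0` with the span property
`hull`, and `ψ : gph S ≃g gph S'`, `φ = up ψ`. `CSI` gives `SLs S'`, `SLE`: `Sy S'` and all edges of `S'` are sharp.
`V_0 = TD n κ 0 ⊆ S`, `V_1 = TD n (κ-1) 3 ⊆ S`, `S = V_0 ∪ V_1` (`BTY`: `4 t + s = 4 κ`, `2 t + s ≤ 2 κ + 1` gives
`t = κ, s = 0`; `4 t + s + 1 = 4 κ` gives `t = κ - 1, s = 3`). `ODG` with `GBS`: `φ (-v) = -φ v` on `V_0`, so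
`odp ψ v = cv (φ v)` there. `THS` (`S` finite by `BTY`) and `GLB`: there is `T` with `cv (φ v) = ∑ v_i T_i` on
`V_0`. `DSM` (`t = κ`, `s = 0`): `T_i · T_i = N / (4 κ)`, `T_i · T_j = 0` for `i ≠ j`.
Let `x ∈ V_1` (nonempty: `std`). For `v ∈ V_0` with `x - v ∈ S` the vertices `φ x`, `φ v` are adjacent
(`SYA` (1)), so `dp (φ x) (φ v) = N/2` (`dp_sub_sub`), i.e. `∑ v_i w_i = N/2` with `w_i = cv (φ x) · T_i`. `PRB`:
`w_i = N / (4 κ) * x_i`. Hence `η = cv (φ x) - ∑ x_i T_i` is orthogonal to all `T_i`, so to all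
`cv (φ v)`, `v ∈ V_0`, and to `∑ x_i T_i`; so `cv (φ x) · η = η · η = N - (4 κ - 1) N / (4 κ) = N / (4 κ) > 0`
(`dp x x = 4 κ - 1`, `norm_comb`). Let `U = φ '' V_0`, nonempty. If `z = φ v ∈ U`, `z' ∈ S'` has the same
degree, `z' = φ v'`, `v' ∈ S` (`SYA` (7)), then `v, v'` have the same degree (`SYA` (6)), so `v' ∈ V_0` by `BDG`:
`z' ∈ U`. By `hull` `cv (φ x)` is in the span of `cv '' U`, on which `· ⬝ᵥ η` vanishes. Contradiction.
Hypotheses: `hCNT : CNT_stmt`, `hCSI : CSI_stmt`, `hDSM : DSM_stmt`, `hBTY : BTY_stmt`,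
`hSYA : SYA_stmt`, `hTHS : THS_stmt`, `hODG : ODG_stmt`, `hSLE : SLE_stmt`, `hGLB : GLB_stmt`,
`hGBS : GBS_stmt`, `hPRB : PRB_stmt`, `hBDG : BDG_stmt`. -/
def STN_stmt : Prop :=
  ∀ (κ d : ℕ) (N : ℤ) (S' : Set (Vec d)), 2 ≤ κ → 0 < N → (∀ x ∈ S', -x ∈ S') →
    (∀ x ∈ S', dp x x = N) →
    (∀ U : Set (Vec d), U ⊆ S' → U.Nonempty →
      (∀ z ∈ U, ∀ z' ∈ S', (NB S' z').ncard = (NB S' z).ncard → z' ∈ U) →
      ∀ z ∈ S', cv z ∈ Submodule.span ℝ (cv '' U)) →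
    ¬ Iso (VB (2 * κ + 1) (2 * κ)) S'

end Pool.Agent.SOL
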